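import Mathlib

set_option autoImplicit false

open Filter Topology

namespace Pool.Agent.Helper11_Exact

/-- Exponential growth contradicts a quadratic bound. -/
theorem growth {ε c C : ℝ} (hε : 0 < ε) (hc : 0 < c) (a : ℕ → ℝ) (h : ∀ j, (1 + ε) * a j ≤ a (j + 1))
    (h0 : c ≤ a 0) (hb : ∀ j : ℕ, a j ≤ C * ((j : ℝ) + 1) ^ 2) : False := by
  have h1 : ∀ j, (1 + ε) ^ j * c ≤ a j := by
    intro j
    induction j with
    | zero => simpa using h0
    | succ j ih =>
      calc (1 + ε) ^ (j + 1) * c = (1 + ε) * ((1 + ε) ^ j * c) := by ring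
        _ ≤ (1 + ε) * a j := by
            have : 0 ≤ 1 + ε := by linarith
            exact mul_le_mul_of_nonneg_left ih this
        _ ≤ a (j + 1) := h j
  have h2 := tendsto_pow_const_div_const_pow_of_one_lt 2 (show 1 < 1 + ε by linarith)
  have h3 : Tendsto (fun n : ℕ => (1 + ε) * |C| * (((n + 1 : ℕ) : ℝ) ^ 2 / (1 + ε) ^ (n + 1))) atTop (𝓝 0) := by
    have := (h2.comp (tendsto_add_atTop_nat 1)).const_mul ((1 + ε) * |C|)
    simpa using this
  obtain ⟨j, hj⟩ := (h3.eventually_lt_const hc).exists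
  have hp : 0 < (1 + ε) ^ j := by positivity
  have h4 : (1 + ε) * |C| * (((j + 1 : ℕ) : ℝ) ^ 2 / (1 + ε) ^ (j + 1)) = |C| * ((j : ℝ) + 1) ^ 2 / (1 + ε) ^ j := by
    have : (1 + ε) ≠ 0 := by positivity
    rw [pow_succ (1 + ε) j]
    push_cast
    field_simp
  rw [h4, div_lt_iff₀ hp] at hj
  have h5 := h1 j
  have h6 := hb j
  have h7 : C * ((j : ℝ) + 1) ^ 2 ≤ |C| * ((j : ℝ) + 1) ^ 2 := by
    have := le_abs_self C
    gcongr
  linarith [mul_comm c ((1 + ε) ^ j)]

end Pool.Agent.Helper11_Exact
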