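import Mathlib
import Pool.Agent.Helper11_Segments.Plane

set_option autoImplicit false

open Set Filter Topology MeasureTheory Real
open scoped ENNReal

namespace Pool.Agent.Helper11_Exact

theorem lintegral_Ioc_ofReal {ρ : ℝ} (hρ : 0 ≤ ρ) :
    ∫⁻ r in Ioc 0 ρ, ENNReal.ofReal r = ENNReal.ofReal (ρ ^ 2 / 2) := by
  rw [← ofReal_integral_eq_lintegral_ofReal]
  · congr 1
    rw [← intervalIntegral.integral_of_le hρ, integral_id]
    ring
  · exact (continuous_id.integrableOn_Icc (a := 0) (b := ρ)).mono_set Ioc_subset_Icc_self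
  · filter_upwards [ae_restrict_mem measurableSet_Ioc] with x hx using hx.1.le

/-- The part of the polar integral in direction `θ`. -/
noncomputable def polarSlice (A : Set (ℝ × ℝ)) (θ : ℝ) : ℝ≥0∞ :=
  ∫⁻ r in Ioi (0 : ℝ), ENNReal.ofReal r * A.indicator 1 (r * cos θ, r * sin θ)

theorem measurable_polarSlice {A : Set (ℝ × ℝ)} (hA : MeasurableSet A) :
    Measurable (polarSlice A) := by
  unfold polarSlice
  refine Measurable.lintegral_prod_right' (f := fun p : ℝ × ℝ => ENNReal.ofReal p.2 *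
    A.indicator 1 (p.2 * cos p.1, p.2 * sin p.1)) ?_
  refine Measurable.mul (by fun_prop) ?_
  exact (measurable_one.indicator hA).comp (by fun_prop)

theorem volume_eq_polar {A : Set (ℝ × ℝ)} (hA : MeasurableSet A) :
    volume A = ∫⁻ θ in Ioo (-π) π, polarSlice A θ := by
  have h1 := lintegral_comp_polarCoord_symm (A.indicator 1)
  rw [lintegral_indicator_one hA] at h1
  rw [← h1]
  have h2 : (polarCoord.target : Set (ℝ × ℝ)) = Ioi (0 : ℝ) ×ˢ Ioo (-π) π := rfl
  rw [h2, Measure.volume_eq_prod, ← Measure.prod_restrict, lintegral_prod_symm']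
  · rfl
  · simp only [smul_eq_mul]
    refine Measurable.mul (by fun_prop) ?_
    refine (measurable_one.indicator hA).comp ?_
    exact continuous_polarCoord_symm.measurable

theorem polarSlice_le {A : Set (ℝ × ℝ)} {θ ρ : ℝ} (hρ : 0 ≤ ρ)
    (h : ∀ r > 0, (r * cos θ, r * sin θ) ∈ A → r ≤ ρ) :
    polarSlice A θ ≤ ENNReal.ofReal (ρ ^ 2 / 2) := by
  rw [← lintegral_Ioc_ofReal hρ, polarSlice, ← lintegral_indicator measurableSet_Ioi,
    ← lintegral_indicator measurableSet_Ioc]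
  refine lintegral_mono fun r => ?_
  by_cases hr : 0 < r
  · rw [indicator_of_mem (show r ∈ Ioi (0 : ℝ) from hr)]
    by_cases hA : (r * cos θ, r * sin θ) ∈ A
    · rw [indicator_of_mem hA, Pi.one_apply, mul_one, indicator_of_mem]
      exact ⟨hr, h r hr hA⟩
    · rw [indicator_of_notMem hA, mul_zero]; exact zero_le
  · rw [indicator_of_notMem (show r ∉ Ioi (0 : ℝ) from hr)]; exact zero_le

theorem exists_reach {A : Set (ℝ × ℝ)} (hA : IsCompact A) (h0 : (0, 0) ∈ A) (θ : ℝ) :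
    ∃ ρ, 0 ≤ ρ ∧ (ρ * cos θ, ρ * sin θ) ∈ A ∧ ∀ r > 0, (r * cos θ, r * sin θ) ∈ A → r ≤ ρ := by
  have hcont : Continuous (fun r : ℝ => (r * cos θ, r * sin θ)) := by fun_prop
  obtain ⟨M, hM⟩ := hA.isBounded.subset_closedBall (0 : ℝ × ℝ)
  have hcl : IsClosed ((fun r : ℝ => (r * cos θ, r * sin θ)) ⁻¹' A) := hA.isClosed.preimage hcont
  have hb : ∀ r : ℝ, (r * cos θ, r * sin θ) ∈ A → r ≤ 2 * |M| := by
    intro r hr
    have h1 := hM hr
    rw [Metric.mem_closedBall, dist_zero_right, Prod.norm_def, max_le_iff, Real.norm_eq_abs, Real.norm_eq_abs] at h1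
    have h2 : r ^ 2 = (r * cos θ) ^ 2 + (r * sin θ) ^ 2 := by
      have := sin_sq_add_cos_sq θ
      nlinarith
    have h3 : (r * cos θ) ^ 2 ≤ |M| ^ 2 := by
      rw [← sq_abs (r * cos θ)]
      have := h1.1.trans (le_abs_self M)
      gcongr
    have h4 : (r * sin θ) ^ 2 ≤ |M| ^ 2 := by
      rw [← sq_abs (r * sin θ)]
      have := h1.2.trans (le_abs_self M)
      gcongr
    have h5 : r ^ 2 ≤ (2 * |M|) ^ 2 := by nlinarith [abs_nonneg M]
    exact (abs_le_of_sq_le_sq' h5 (by positivity)).2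
  have hc : IsCompact ((fun r : ℝ => (r * cos θ, r * sin θ)) ⁻¹' A ∩ Icc 0 (2 * |M|)) :=
    isCompact_Icc.inter_left hcl
  obtain ⟨ρ, ⟨hρ1, hρ2⟩, hmax⟩ := hc.exists_isGreatest ⟨0, by simpa using h0, by constructor <;> simp⟩
  exact ⟨ρ, hρ2.1, hρ1, fun r hr hrA => hmax ⟨hrA, hr.le, hb r hrA⟩⟩

theorem iso_half {A : Set (ℝ × ℝ)} (hA : IsCompact A) (h0 : (0, 0) ∈ A) (hpos : ∀ p ∈ A, 0 ≤ p.1)
    {D : ℝ} (hD : ∀ p ∈ A, ∀ q ∈ A, (p.1 - q.1) ^ 2 + (p.2 - q.2) ^ 2 ≤ D ^ 2) :
    volume A ≤ ENNReal.ofReal (π * D ^ 2 / 4) := by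
  have hm := hA.measurableSet
  have hgm := measurable_polarSlice hm
  have hzero : ∀ θ ∈ Ioo (-π) π, θ ∉ Icc (-(π / 2)) (π / 2) → polarSlice A θ = 0 := by
    intro θ hθ hθ2
    have hcos : cos θ < 0 := by
      rcases lt_or_ge θ (-(π / 2)) with h | h
      · rw [← cos_neg]
        exact cos_neg_of_pi_div_two_lt_of_lt (by linarith) (by linarith [hθ.1])
      · have : π / 2 < θ := by
          by_contra hcon
          exact hθ2 ⟨h, not_lt.mp hcon⟩
        exact cos_neg_of_pi_div_two_lt_of_lt this (by linarith [hθ.2])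
    have h1 := polarSlice_le (A := A) (θ := θ) le_rfl (by
      intro r hr hrA
      have := hpos _ hrA
      simp only at this
      nlinarith)
    simpa using h1
  have h1 : ∫⁻ θ in Ioo (-π) π, polarSlice A θ ≤ ∫⁻ θ in Icc (-(π / 2)) (π / 2), polarSlice A θ := by
    rw [← lintegral_indicator measurableSet_Ioo, ← lintegral_indicator measurableSet_Icc]
    refine lintegral_mono fun θ => ?_
    by_cases h : θ ∈ Ioo (-π) π
    · rw [indicator_of_mem h]
      by_cases h2 : θ ∈ Icc (-(π / 2)) (π / 2)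
      · rw [indicator_of_mem h2]
      · rw [hzero θ h h2]; exact zero_le
    · rw [indicator_of_notMem h]; exact zero_le
  have h2 : ∫⁻ θ in Icc (-(π / 2)) (π / 2), polarSlice A θ ≤
      ∫⁻ θ in Icc (0 : ℝ) (π / 2), (polarSlice A (θ - π / 2) + polarSlice A θ) := by
    rw [lintegral_add_left (show Measurable fun θ => polarSlice A (θ - π / 2) from
      hgm.comp (measurable_id.sub_const _))]
    have e1 : Icc (-(π / 2)) (π / 2) = Icc (-(π / 2)) 0 ∪ Icc 0 (π / 2) :=
      (Icc_union_Icc_eq_Icc (by linarith [pi_pos]) (by linarith [pi_pos])).symm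
    rw [e1]
    refine (lintegral_union_le _ _ _).trans (add_le_add ?_ le_rfl)
    rw [← lintegral_indicator measurableSet_Icc, ← lintegral_indicator measurableSet_Icc]
    have e2 := lintegral_sub_right_eq_self (μ := (volume : Measure ℝ))
      (fun θ => (Icc (-(π / 2)) 0).indicator (polarSlice A) θ) (π / 2)
    rw [← e2]
    refine lintegral_mono fun θ => ?_
    by_cases h : θ - π / 2 ∈ Icc (-(π / 2)) 0
    · rw [indicator_of_mem h, indicator_of_mem]
      exact ⟨by linarith [h.1], by linarith [h.2]⟩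
    · rw [indicator_of_notMem h]; exact zero_le
  have h3 : ∀ θ, polarSlice A (θ - π / 2) + polarSlice A θ ≤ ENNReal.ofReal (D ^ 2 / 2) := by
    intro θ
    obtain ⟨ρ, hρ0, hρA, hρ⟩ := exists_reach hA h0 θ
    obtain ⟨ρ', hρ0', hρA', hρ'⟩ := exists_reach hA h0 (θ - π / 2)
    refine (add_le_add (polarSlice_le hρ0' hρ') (polarSlice_le hρ0 hρ)).trans ?_
    rw [← ENNReal.ofReal_add (by positivity) (by positivity)]
    refine ENNReal.ofReal_le_ofReal ?_
    have h4 := hD _ hρA _ hρA'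
    simp only [cos_sub_pi_div_two, sin_sub_pi_div_two] at h4
    have h5 := sin_sq_add_cos_sq θ
    nlinarith
  rw [volume_eq_polar hm]
  calc _ ≤ _ := h1.trans h2
    _ ≤ ∫⁻ θ in Icc (0 : ℝ) (π / 2), ENNReal.ofReal (D ^ 2 / 2) := lintegral_mono fun θ => h3 θ
    _ = ENNReal.ofReal (π * D ^ 2 / 4) := by
        rw [setLIntegral_const, Real.volume_Icc, ← ENNReal.ofReal_mul (by positivity)]
        congr 1
        ring

/-- Isodiametric inequality in the Euclidean plane, for compact sets. -/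
theorem isodiametric {A : Set (EuclideanSpace ℝ (Fin 2))} (hA : IsCompact A) {D : ℝ}
    (hD : ∀ p ∈ A, ∀ q ∈ A, dist p q ≤ D) : volume A ≤ ENNReal.ofReal (π * D ^ 2 / 4) := by
  rcases A.eq_empty_or_nonempty with rfl | hne
  · simp
  have hcont : Continuous (fun x : EuclideanSpace ℝ (Fin 2) => (x 0, x 1)) := by fun_prop
  obtain ⟨o, ho, hmin⟩ := hA.exists_isMinOn hne (f := fun x : EuclideanSpace ℝ (Fin 2) => x 0)
    (by fun_prop)
  have hmin' : ∀ x ∈ A, o 0 ≤ x 0 := fun x hx => isMinOn_iff.mp hmin x hx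
  set B : Set (EuclideanSpace ℝ (Fin 2)) := (fun x => x + (-o)) '' A with hB
  have hBv : volume B = volume A := by
    rw [hB, image_add_right, measure_preimage_add_right]
  rw [← hBv, ← Helper11_Segments.volume_coord_image]
  have hBc : IsCompact B := hA.image (by fun_prop)
  refine iso_half (hBc.image (by exact hcont)) ?_ ?_ ?_
  · refine ⟨0, ⟨o, ho, by simp⟩, ?_⟩
    simp [Helper11_Segments.coord_apply]
  · rintro _ ⟨_, ⟨x, hx, rfl⟩, rfl⟩
    simp only [Helper11_Segments.coord_apply]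
    simpa using hmin' x hx
  · rintro _ ⟨_, ⟨x, hx, rfl⟩, rfl⟩ _ ⟨_, ⟨y, hy, rfl⟩, rfl⟩
    have h1 := hD x hx y hy
    have h2 : dist x y ^ 2 ≤ D ^ 2 := by gcongr
    rw [EuclideanSpace.dist_eq, Real.sq_sqrt (by positivity), Fin.sum_univ_two, Real.dist_eq,
      Real.dist_eq, sq_abs, sq_abs] at h2
    simp only [Helper11_Segments.coord_apply, PiLp.add_apply, PiLp.neg_apply]
    have e0 : x 0 + -o 0 - (y 0 + -o 0) = x 0 - y 0 := by ring
    have e1 : x 1 + -o 1 - (y 1 + -o 1) = x 1 - y 1 := by ring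
    rw [e0, e1]
    exact h2

end Pool.Agent.Helper11_Exact
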