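import Mathlib

set_option autoImplicit false

open Set Filter Topology

namespace Pool.Agent.Helper11_Exact

/-- The nonprincipal ultrafilter used for all limits. -/
noncomputable def UF : Ultrafilter ℕ := hyperfilter ℕ

theorem UF_le : (UF : Filter ℕ) ≤ atTop := Nat.hyperfilter_le_atTop

theorem UF_ev {p : ℕ → Prop} (h : ∀ᶠ n in atTop, p n) : ∀ᶠ n in (UF : Filter ℕ), p n :=
  h.filter_mono UF_le

theorem UF_inv : Tendsto (fun n : ℕ => 1 / ((n : ℝ) + 1)) UF (𝓝 0) :=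
  (tendsto_one_div_add_atTop_nhds_zero_nat (𝕜 := ℝ)).mono_left UF_le

section metric

variable {X : Type*} [PseudoMetricSpace X]

/-- Limit of a sequence of sets along the ultrafilter. -/
def Lim (A : ℕ → Set X) : Set X :=
  {x | ∀ r > 0, ∀ᶠ m in (UF : Filter ℕ), ∃ y ∈ A m, dist y x < r}

theorem isClosed_Lim (A : ℕ → Set X) : IsClosed (Lim A) := by
  rw [← isOpen_compl_iff, Metric.isOpen_iff]
  intro s hs
  simp only [Lim, mem_compl_iff, mem_ofPred_eq, not_forall] at hs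
  obtain ⟨r, hr, hn⟩ := hs
  refine ⟨r / 2, by positivity, fun s1 hs1 hs1G => hn ?_⟩
  filter_upwards [hs1G (r / 2) (by positivity)] with n hn
  obtain ⟨s', hs', hd⟩ := hn
  refine ⟨s', hs', ?_⟩
  calc dist s' s ≤ dist s' s1 + dist s1 s := dist_triangle _ _ _
    _ < r / 2 + r / 2 := add_lt_add hd hs1
    _ = r := by ring

theorem mem_Lim_of_tendsto {A : ℕ → Set X} {y : ℕ → X} {x : X}
    (hy : ∀ᶠ m in (UF : Filter ℕ), y m ∈ A m) (h : Tendsto y UF (𝓝 x)) : x ∈ Lim A := by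
  intro r hr
  have h1 : ∀ᶠ n : ℕ in (UF : Filter ℕ), dist (y n) x < r := h.eventually (Metric.ball_mem_nhds x hr)
  filter_upwards [h1, hy] with n h1 h2
  exact ⟨y n, h2, h1⟩

theorem exists_seq_of_mem_Lim {A : ℕ → Set X} {x : X} (hx : x ∈ Lim A) :
    ∃ y : ℕ → X, (∀ᶠ m in (UF : Filter ℕ), y m ∈ A m) ∧ Tendsto y UF (𝓝 x) := by
  classical
  have h : ∀ m, ∃ y, (A m).Nonempty → y ∈ A m ∧ dist y x < Metric.infDist x (A m) + 1 / ((m : ℝ) + 1) := by
    intro m
    by_cases hne : (A m).Nonempty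
    · obtain ⟨y, hy, hd⟩ := (Metric.infDist_lt_iff hne).mp
        (lt_add_of_pos_right (Metric.infDist x (A m)) (show (0 : ℝ) < 1 / ((m : ℝ) + 1) by positivity))
      exact ⟨y, fun _ => ⟨hy, by rwa [dist_comm]⟩⟩
    · exact ⟨x, fun h => absurd h hne⟩
  choose y hy using h
  have hne : ∀ᶠ m in (UF : Filter ℕ), (A m).Nonempty := by
    filter_upwards [hx 1 one_pos] with m hm
    obtain ⟨z, hz, -⟩ := hm
    exact ⟨z, hz⟩
  refine ⟨y, ?_, ?_⟩
  · filter_upwards [hne] with m hm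
    exact (hy m hm).1
  · rw [Metric.tendsto_nhds]
    intro ε hε
    filter_upwards [hne, hx (ε / 2) (by positivity), UF_inv.eventually_lt_const (show (0 : ℝ) < ε / 2 by positivity)]
      with m h1 h2 h3
    obtain ⟨z, hz, hzd⟩ := h2
    have h4 : Metric.infDist x (A m) ≤ dist x z := Metric.infDist_le_dist_of_mem hz
    rw [dist_comm] at h4
    linarith [(hy m h1).2]

theorem exists_tendsto_of_compact {K : Set X} (hK : IsCompact K) {y : ℕ → X}
    (hy : ∀ᶠ m in (UF : Filter ℕ), y m ∈ K) : ∃ x ∈ K, Tendsto y UF (𝓝 x) := by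
  obtain ⟨x, hx, h⟩ := hK.ultrafilter_le_nhds (UF.map y) (by rw [le_principal_iff]; exact hy)
  exact ⟨x, hx, h⟩

theorem exists_tendsto_of_bounded [ProperSpace X] (c : X) (M : ℝ) {y : ℕ → X}
    (hy : ∀ᶠ m in (UF : Filter ℕ), dist (y m) c ≤ M) :
    ∃ x, dist x c ≤ M ∧ Tendsto y UF (𝓝 x) := by
  obtain ⟨x, hx, h⟩ := exists_tendsto_of_compact (isCompact_closedBall c M) (y := y) hy
  exact ⟨x, hx, h⟩

/-- The sets `A` and `B` are `r`-close in the ball of radius `R` about `c`. -/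
def CloseIn (c : X) (R r : ℝ) (A B : Set X) : Prop :=
  (∀ y ∈ A, dist y c ≤ R → ∃ x ∈ B, dist y x < r) ∧ (∀ x ∈ B, dist x c ≤ R → ∃ y ∈ A, dist y x < r)

theorem CloseIn.trans {c : X} {R r r' : ℝ} {A B C : Set X} (h1 : CloseIn c (R + r') r A B)
    (h2 : CloseIn c (R + r) r' B C) (hr : 0 ≤ r) (hr' : 0 ≤ r') : CloseIn c R (r + r') A C := by
  constructor
  · intro y hy hyR
    obtain ⟨x, hx, hyx⟩ := h1.1 y hy (by linarith)
    obtain ⟨z, hz, hxz⟩ := h2.1 x hx (by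
      have := dist_triangle x y c
      rw [dist_comm x y] at this
      linarith)
    exact ⟨z, hz, by linarith [dist_triangle y x z]⟩
  · intro z hz hzR
    obtain ⟨x, hx, hxz⟩ := h2.2 z hz (by linarith)
    obtain ⟨y, hy, hyx⟩ := h1.2 x hx (by linarith [dist_triangle x z c])
    exact ⟨y, hy, by linarith [dist_triangle y x z]⟩

theorem closeIn_Lim [ProperSpace X] (A : ℕ → Set X) (c : X) (R r : ℝ) (hr : 0 < r) :
    ∀ᶠ m in (UF : Filter ℕ), CloseIn c R r (A m) (Lim A) := by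
  classical
  have h1 : ∀ᶠ m in (UF : Filter ℕ), ∀ y ∈ A m, dist y c ≤ R → ∃ x ∈ Lim A, dist y x < r := by
    by_contra hcon
    rw [← Ultrafilter.eventually_not] at hcon
    have hch : ∀ᶠ m in (UF : Filter ℕ), ∃ y, y ∈ A m ∧ dist y c ≤ R ∧ ∀ x ∈ Lim A, ¬ dist y x < r := by
      filter_upwards [hcon] with m hm
      push Not at hm
      obtain ⟨y, h1, h2, h3⟩ := hm
      exact ⟨y, h1, h2, fun x hx => not_lt.mpr (h3 x hx)⟩
    obtain ⟨y, hy⟩ := hch.choice
    obtain ⟨x, -, hx⟩ := exists_tendsto_of_bounded c R (hy.mono fun m hm => hm.2.1)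
    have hxL : x ∈ Lim A := mem_Lim_of_tendsto (hy.mono fun m hm => hm.1) hx
    have h2 : ∀ᶠ n : ℕ in (UF : Filter ℕ), dist (y n) x < r := hx.eventually (Metric.ball_mem_nhds x hr)
    obtain ⟨m, hm1, hm2⟩ := (h2.and hy).exists
    exact hm2.2.2 x hxL hm1
  have h2 : ∀ᶠ m in (UF : Filter ℕ), ∀ x ∈ Lim A, dist x c ≤ R → ∃ y ∈ A m, dist y x < r := by
    have hc : IsCompact (Lim A ∩ Metric.closedBall c R) :=
      (isCompact_closedBall c R).inter_left (isClosed_Lim A)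
    obtain ⟨T, hT, hTf, hcov⟩ := hc.finite_cover_balls (show (0 : ℝ) < r / 2 by positivity)
    have h3 : ∀ᶠ m in (UF : Filter ℕ), ∀ x ∈ T, ∃ y ∈ A m, dist y x < r / 2 := by
      rw [hTf.eventually_all]
      intro x hx
      exact (hT hx).1 (r / 2) (by positivity)
    filter_upwards [h3] with m hm x hx hxR
    obtain ⟨z, hz, hxz⟩ := mem_iUnion₂.mp (hcov ⟨hx, hxR⟩)
    obtain ⟨y, hy, hyz⟩ := hm z hz
    refine ⟨y, hy, ?_⟩
    have h4 : dist x z < r / 2 := hxz
    have h5 := dist_triangle y z x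
    rw [dist_comm z x] at h5
    linarith
  exact h1.and h2

end metric

end Pool.Agent.Helper11_Exact
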