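import Mathlib
import Pool.Agent.Helper11_Exact.Lim
import Pool.Agent.Helper11_Thin.Core

set_option autoImplicit false

open Set Filter Topology MeasureTheory
open Pool.Agent.Helper11_Thin

namespace Pool.Agent.Helper11_Exact

/-- The segment with endpoints `s.1`, `s.2`. -/
def Sg (s : E2 × E2) : Set E2 := segment ℝ s.1 s.2

theorem mem_Sg_iff {s : E2 × E2} {y : E2} :
    y ∈ Sg s ↔ dist s.1 y + dist y s.2 = dist s.1 s.2 := by
  rw [Sg, mem_segment_iff_wbtw, dist_add_dist_eq_iff]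

theorem left_mem_Sg (s : E2 × E2) : s.1 ∈ Sg s := left_mem_segment ℝ _ _

theorem right_mem_Sg (s : E2 × E2) : s.2 ∈ Sg s := right_mem_segment ℝ _ _

theorem isCompact_Sg (s : E2 × E2) : IsCompact (Sg s) := isCompact_segment' _ _

theorem Sg_swap (s : E2 × E2) : Sg s.swap = Sg s := segment_symm ℝ _ _

theorem dist_le_of_mem_Sg {s : E2 × E2} {x y : E2} (hx : x ∈ Sg s) (hy : y ∈ Sg s) :
    dist x y ≤ dist s.1 s.2 := by
  have h1 := mem_Sg_iff.mp hx
  have h2 := mem_Sg_iff.mp hy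
  have t1 := dist_triangle x s.1 y
  have t2 := dist_triangle x s.2 y
  rw [dist_comm x s.1] at t1
  rw [dist_comm s.2 y] at t2
  linarith

theorem Sg_limit {ι : Type*} {F : Filter ι} [F.NeBot] {σ : ι → E2 × E2} {s : E2 × E2} {y : ι → E2} {x : E2}
    (hσ : Tendsto σ F (𝓝 s)) (hy : Tendsto y F (𝓝 x)) (h : ∀ᶠ i in F, y i ∈ Sg (σ i)) :
    x ∈ Sg s := by
  rw [mem_Sg_iff]
  have h1 : Tendsto (fun i => dist (σ i).1 (y i) + dist (y i) (σ i).2) F
      (𝓝 (dist s.1 x + dist x s.2)) :=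
    ((((continuous_fst.tendsto s).comp hσ).dist hy).add (hy.dist ((continuous_snd.tendsto s).comp hσ)))
  have h2 : Tendsto (fun i => dist (σ i).1 (σ i).2) F (𝓝 (dist s.1 s.2)) :=
    ((continuous_fst.tendsto s).comp hσ).dist ((continuous_snd.tendsto s).comp hσ)
  refine tendsto_nhds_unique (h1.congr' ?_) h2
  filter_upwards [h] with i hi
  exact mem_Sg_iff.mp hi

theorem Sg_near {s t : E2 × E2} {r : ℝ} (h : dist s t < r) {x : E2} (hx : x ∈ Sg s) :
    ∃ y ∈ Sg t, dist x y < r := by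
  rw [Prod.dist_eq, max_lt_iff] at h
  exact segment_near h.1 h.2 hx

/-- Union of the segments of the family. -/
def UU (G : Set (E2 × E2)) : Set E2 := ⋃ s ∈ G, Sg s

theorem mem_UU {G : Set (E2 × E2)} {x : E2} : x ∈ UU G ↔ ∃ s ∈ G, x ∈ Sg s := by
  simp [UU]

theorem UU_mono {G H : Set (E2 × E2)} (h : G ⊆ H) : UU G ⊆ UU H :=
  biUnion_subset_biUnion_left h

/-- The members meeting `V`. -/
def Meet (G : Set (E2 × E2)) (V : Set E2) : Set (E2 × E2) := {s ∈ G | (Sg s ∩ V).Nonempty}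

theorem isCompact_UU {G : Set (E2 × E2)} (hG : IsCompact G) : IsCompact (UU G) := by
  have h1 : UU G = (fun z : (E2 × E2) × ℝ => z.1.1 + z.2 • (z.1.2 - z.1.1)) ''
      (G ×ˢ Icc (0 : ℝ) 1) := by
    ext x
    simp only [UU, Sg, mem_iUnion, segment_eq_image', mem_image, exists_prop, Prod.exists, mem_prod]
    constructor
    · rintro ⟨s1, s2, hs, θ, hθ, rfl⟩
      exact ⟨s1, s2, θ, ⟨hs, hθ⟩, rfl⟩
    · rintro ⟨s1, s2, θ, ⟨hs, hθ⟩, rfl⟩
      exact ⟨s1, s2, hs, θ, hθ, rfl⟩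
  rw [h1]
  exact (hG.prod isCompact_Icc).image (by fun_prop)

/-- All members have length one. -/
def Unit1 (G : Set (E2 × E2)) : Prop := ∀ s ∈ G, dist s.1 s.2 = 1

theorem bounded_of_meet {s : E2 × E2} (hs : dist s.1 s.2 = 1) {x : E2} (hx : x ∈ Sg s) {c : E2} {M : ℝ}
    (hM : dist x c ≤ M) : dist s.1 c ≤ M + 1 ∧ dist s.2 c ≤ M + 1 := by
  have h1 := dist_le_of_mem_Sg (left_mem_Sg s) hx
  have h2 := dist_le_of_mem_Sg (right_mem_Sg s) hx
  exact ⟨by linarith [dist_triangle s.1 x c], by linarith [dist_triangle s.2 x c]⟩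

theorem dist_prod_le {s : E2 × E2} {c : E2} {M : ℝ} (h : dist s.1 c ≤ M ∧ dist s.2 c ≤ M) :
    dist s (c, c) ≤ M := by
  rw [Prod.dist_eq]; exact max_le h.1 h.2

theorem isCompact_Meet {G : Set (E2 × E2)} (hG : IsClosed G) (hu : Unit1 G) {V : Set E2}
    (hV : IsCompact V) : IsCompact (Meet G V) := by
  obtain ⟨M, hM⟩ := hV.isBounded.subset_closedBall (0 : E2)
  have hsub : Meet G V ⊆ Metric.closedBall ((0 : E2), (0 : E2)) (M + 1) := by
    rintro s ⟨hs, x, hx, hxV⟩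
    exact dist_prod_le (bounded_of_meet (hu s hs) hx (hM hxV))
  refine (isCompact_closedBall _ _).of_isClosed_subset ?_ hsub
  rw [← isSeqClosed_iff_isClosed]
  intro σ s hσ hs
  have h1 : s ∈ G := hG.mem_of_tendsto hs (Eventually.of_forall fun n => (hσ n).1)
  refine ⟨h1, ?_⟩
  choose y hy hyV using fun n => (hσ n).2
  obtain ⟨x, hx, φ, hφ, hxφ⟩ := hV.tendsto_subseq hyV
  exact ⟨x, Sg_limit (hs.comp hφ.tendsto_atTop) hxφ (Eventually.of_forall fun n => hy (φ n)), hx⟩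

/-- Translate of a pair. -/
def tr (a : E2) (s : E2 × E2) : E2 × E2 := (s.1 + a, s.2 + a)

theorem Sg_tr (a : E2) (s : E2 × E2) (x : E2) : x + a ∈ Sg (tr a s) ↔ x ∈ Sg s := by
  simp [mem_Sg_iff, tr]

theorem mem_Sg_tr (a : E2) (s : E2 × E2) (x : E2) : x ∈ Sg (tr a s) ↔ x - a ∈ Sg s := by
  rw [← Sg_tr a s (x - a), sub_add_cancel]

theorem dist_tr (a : E2) (s t : E2 × E2) : dist (tr a s) (tr a t) = dist s t := by
  simp [tr, Prod.dist_eq]

theorem tr_tr (a b : E2) (s : E2 × E2) : tr a (tr b s) = tr (b + a) s := by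
  simp [tr, add_assoc]

theorem tr_zero (s : E2 × E2) : tr 0 s = s := by simp [tr]

end Pool.Agent.Helper11_Exact
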