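import Mathlib
import Pool.Agent.Helper11_Exact.Seg

set_option autoImplicit false

open Set Filter Topology MeasureTheory Real
open scoped ENNReal
open Pool.Agent.Helper11_Thin

namespace Pool.Agent.Helper11_Exact

/-- A finite thin family violating the inequality, with minimal `nu`. -/
structure CE (η : ℝ) {n : ℕ} (K : Fin n → Set E2) (J : Finset (Fin n)) : Prop where
  thin : ∀ i ∈ J, Convex ℝ (K i) ∧ IsCompact (K i) ∧ (K i).Nonempty ∧ Metric.diam (K i) = 1 ∧
    volume (K i) ≤ ENNReal.ofReal η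
  big : ENNReal.ofReal (π * nu K J) < volume (⋃ i ∈ J, K i)
  min : ∀ J' ⊆ J, nu K J' < nu K J → volume (⋃ i ∈ J', K i) ≤ ENNReal.ofReal (π * nu K J')

theorem exists_CE {η : ℝ} {n : ℕ} (K : Fin n → Set E2)
    (hK : ∀ i, Convex ℝ (K i) ∧ IsCompact (K i) ∧ (K i).Nonempty ∧ Metric.diam (K i) = 1 ∧
      volume (K i) ≤ ENNReal.ofReal η)
    (h : ENNReal.ofReal (π * nu K Finset.univ) < volume (⋃ i, K i)) :
    ∃ J, CE η K J := by
  classical
  have hex : ∃ k, ∃ J : Finset (Fin n), nu K J = k ∧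
      ENNReal.ofReal (π * nu K J) < volume (⋃ i ∈ J, K i) :=
    ⟨_, Finset.univ, rfl, by simpa using h⟩
  obtain ⟨J, hJk, hJ⟩ := Nat.find_spec hex
  refine ⟨J, fun i _ => hK i, hJ, fun J' hJ' hlt => ?_⟩
  by_contra hcon
  push Not at hcon
  rw [hJk] at hlt
  exact Nat.find_min hex hlt ⟨J', rfl, hcon⟩

theorem nu_mono {n : ℕ} {K : Fin n → Set E2} {J J' : Finset (Fin n)} (h : J' ⊆ J) :
    nu K J' ≤ nu K J := by
  obtain ⟨S, hS, hSi, hc⟩ := exists_nu K J'
  rw [← hc]
  exact card_le_nu (hS.trans h) hSi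

theorem nu_congr {n : ℕ} {K K' : Fin n → Set E2} {J : Finset (Fin n)}
    (h : ∀ S ⊆ J, Indep K S ↔ Indep K' S) : nu K J = nu K' J := by
  apply le_antisymm
  · obtain ⟨S, hS, hSi, hc⟩ := exists_nu K J
    rw [← hc]
    exact card_le_nu hS ((h S hS).mp hSi)
  · obtain ⟨S, hS, hSi, hc⟩ := exists_nu K' J
    rw [← hc]
    exact card_le_nu hS ((h S hS).mpr hSi)

/-- Members of `J` near an independent set `I`. -/
theorem CE.near {η : ℝ} {n : ℕ} {K : Fin n → Set E2} {J : Finset (Fin n)} (h : CE η K J)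
    (I N : Finset (Fin n)) (hI : I ⊆ J) (hInd : Indep K I) (hne : I.Nonempty) (hIN : I ⊆ N)
    (hN : ∀ i ∈ J, i ∉ N → ∀ i' ∈ I, Disjoint (interior (K i)) (interior (K i'))) :
    ENNReal.ofReal (π * I.card) < volume (⋃ i ∈ J ∩ N, K i) := by
  classical
  by_contra hcon
  push Not at hcon
  have hnu : nu K (J \ N) + I.card ≤ nu K J := by
    obtain ⟨S, hS, hSi, hc⟩ := exists_nu K (J \ N)
    have hdis : Disjoint S I := by
      rw [Finset.disjoint_left]
      intro i hiS hiI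
      exact (Finset.mem_sdiff.mp (hS hiS)).2 (hIN hiI)
    rw [← hc, ← Finset.card_union_of_disjoint hdis]
    refine card_le_nu (Finset.union_subset (hS.trans Finset.sdiff_subset) hI) ?_
    intro i hi j hj hij
    rw [Finset.coe_union] at hi hj
    rcases hi with hi | hi <;> rcases hj with hj | hj
    · exact hSi hi hj hij
    · have h1 := Finset.mem_sdiff.mp (hS hi)
      exact hN i h1.1 h1.2 j hj
    · have h1 := Finset.mem_sdiff.mp (hS hj)
      exact (hN j h1.1 h1.2 i hi).symm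
    · exact hInd hi hj hij
  have hcard : 0 < I.card := hne.card_pos
  have h1 := h.min (J \ N) Finset.sdiff_subset (by omega)
  have h2 : (⋃ i ∈ J, K i) ⊆ (⋃ i ∈ J ∩ N, K i) ∪ ⋃ i ∈ J \ N, K i := by
    intro x hx
    simp only [mem_iUnion] at hx
    obtain ⟨i, hi, hx⟩ := hx
    by_cases hiN : i ∈ N
    · left
      simp only [mem_iUnion]
      exact ⟨i, Finset.mem_inter.mpr ⟨hi, hiN⟩, hx⟩
    · right
      simp only [mem_iUnion]
      exact ⟨i, Finset.mem_sdiff.mpr ⟨hi, hiN⟩, hx⟩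
  have h3 : volume (⋃ i ∈ J, K i) ≤ ENNReal.ofReal (π * nu K J) := by
    calc volume (⋃ i ∈ J, K i) ≤ _ := measure_mono h2
      _ ≤ volume (⋃ i ∈ J ∩ N, K i) + volume (⋃ i ∈ J \ N, K i) := measure_union_le _ _
      _ ≤ ENNReal.ofReal (π * I.card) + ENNReal.ofReal (π * nu K (J \ N)) := add_le_add hcon h1
      _ = ENNReal.ofReal (π * I.card + π * nu K (J \ N)) := by
          rw [ENNReal.ofReal_add (by positivity) (by positivity)]
      _ ≤ ENNReal.ofReal (π * nu K J) := by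
          refine ENNReal.ofReal_le_ofReal ?_
          have : (nu K (J \ N) : ℝ) + I.card ≤ nu K J := by exact_mod_cast hnu
          have := mul_le_mul_of_nonneg_left this pi_pos.le
          linarith
  exact absurd h3 (not_le.mpr h.big)

theorem interior_tr (a : E2) (s : Set E2) :
    interior ((fun x => x + a) '' s) = (fun x => x + a) '' interior s :=
  ((Homeomorph.addRight a).image_interior s).symm

theorem disjoint_tr (a : E2) (s t : Set E2) :
    Disjoint ((fun x => x + a) '' s) ((fun x => x + a) '' t) ↔ Disjoint s t :=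
  disjoint_image_iff (add_left_injective a)

theorem volume_tr (a : E2) (s : Set E2) : volume ((fun x => x + a) '' s) = volume s := by
  rw [image_add_right, measure_preimage_add_right]

theorem diam_tr (a : E2) (s : Set E2) : Metric.diam ((fun x => x + a) '' s) = Metric.diam s :=
  (IsometryEquiv.addRight a).diam_image s

/-- Translates of counterexamples are counterexamples. -/
theorem CE.translate {η : ℝ} {n : ℕ} {K : Fin n → Set E2} {J : Finset (Fin n)} (h : CE η K J)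
    (a : E2) : CE η (fun i => (fun x => x + a) '' K i) J := by
  have hIn : ∀ S : Finset (Fin n), Indep (fun i => (fun x => x + a) '' K i) S ↔ Indep K S := by
    intro S
    unfold Indep
    simp only [interior_tr, disjoint_tr]
  have hnu : ∀ J', nu (fun i => (fun x => x + a) '' K i) J' = nu K J' :=
    fun J' => nu_congr fun S _ => hIn S
  have hvol : ∀ J' : Finset (Fin n), volume (⋃ i ∈ J', (fun x => x + a) '' K i) =
      volume (⋃ i ∈ J', K i) := by
    intro J'
    rw [← volume_tr a (⋃ i ∈ J', K i), image_iUnion₂]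
  refine ⟨?_, ?_, ?_⟩
  · intro i hi
    obtain ⟨h1, h2, h3, h4, h5⟩ := h.thin i hi
    refine ⟨?_, ?_, h3.image _, ?_, ?_⟩
    · have := h1.translate a
      simpa [add_comm] using this
    · exact h2.image (by fun_prop)
    · rw [diam_tr, h4]
    · rw [volume_tr]; exact h5
  · rw [hvol, hnu]; exact h.big
  · intro J' hJ' hlt
    rw [hnu, hnu] at hlt
    rw [hvol, hnu]
    exact h.min J' hJ' hlt

/-- Pairs of points of a member at distance one, such that the member is close to the segment. -/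
def chords (r : ℝ) {n : ℕ} (K : Fin n → Set E2) (J : Finset (Fin n)) : Set (E2 × E2) :=
  {s | ∃ i ∈ J, s.1 ∈ K i ∧ s.2 ∈ K i ∧ dist s.1 s.2 = 1 ∧ ∀ x ∈ K i, ∃ y ∈ Sg s, dist x y ≤ r}

theorem chords_translate (r : ℝ) {n : ℕ} (K : Fin n → Set E2) (J : Finset (Fin n)) (a : E2) :
    chords r (fun i => (fun x => x + a) '' K i) J = tr a '' chords r K J := by
  ext s
  constructor
  · rintro ⟨i, hi, ⟨p, hp, hp1⟩, ⟨q, hq, hq1⟩, hd, h⟩
    refine ⟨(p, q), ⟨i, hi, hp, hq, ?_, ?_⟩, Prod.ext hp1 hq1⟩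
    · rw [← hp1, ← hq1] at hd
      simpa using hd
    · intro x hx
      obtain ⟨y, hy, hxy⟩ := h (x + a) ⟨x, hx, rfl⟩
      have : s = tr a (p, q) := Prod.ext hp1.symm hq1.symm
      rw [this, mem_Sg_tr] at hy
      refine ⟨y - a, hy, ?_⟩
      have : dist x (y - a) = dist (x + a) y := by
        rw [dist_eq_norm, dist_eq_norm]; congr 1; abel
      rw [this]; exact hxy
  · rintro ⟨t, ⟨i, hi, hp, hq, hd, h⟩, rfl⟩
    refine ⟨i, hi, ⟨t.1, hp, rfl⟩, ⟨t.2, hq, rfl⟩, by simpa [tr] using hd, ?_⟩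
    rintro _ ⟨x, hx, rfl⟩
    obtain ⟨y, hy, hxy⟩ := h x hx
    exact ⟨y + a, (Sg_tr a t y).mpr hy, by simpa using hxy⟩

/-- Closed sets of pairs that are local limits of minimal counterexamples with `η → 0`. -/
def Cls (G : Set (E2 × E2)) : Prop :=
  IsClosed G ∧ ∀ R r : ℝ, 0 < r → ∃ (r' : ℝ) (n : ℕ) (K : Fin n → Set E2) (J : Finset (Fin n)),
    0 < r' ∧ r' ≤ r ∧ CE r' K J ∧ CloseIn 0 R r (chords (4 * r') K J) G

theorem Cls.unit1 {G : Set (E2 × E2)} (hG : Cls G) : Unit1 G := by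
  intro s hs
  by_contra hne
  have h0 : 0 < |dist s.1 s.2 - 1| := abs_pos.mpr (sub_ne_zero.mpr hne)
  obtain ⟨r', n, K, J, -, -, -, hc⟩ := hG.2 (dist s 0) (|dist s.1 s.2 - 1| / 2) (by positivity)
  obtain ⟨t, ⟨i, hi, h1, h2, h3, h4⟩, hts⟩ := hc.2 s hs le_rfl
  rw [Prod.dist_eq, max_lt_iff] at hts
  have h5 : |dist s.1 s.2 - dist t.1 t.2| ≤ dist t.1 s.1 + dist t.2 s.2 := by
    have := dist_dist_dist_le s.1 s.2 t.1 t.2
    rw [Real.dist_eq, dist_comm s.1 t.1, dist_comm s.2 t.2] at this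
    exact this
  rw [h3] at h5
  linarith [hts.1, hts.2]

theorem chords_symm {r : ℝ} {n : ℕ} {K : Fin n → Set E2} {J : Finset (Fin n)} {s : E2 × E2}
    (h : s ∈ chords r K J) : s.swap ∈ chords r K J := by
  obtain ⟨i, hi, h1, h2, h3, h4⟩ := h
  refine ⟨i, hi, h2, h1, by rw [Prod.fst_swap, Prod.snd_swap, dist_comm]; exact h3, ?_⟩
  rw [Sg_swap]; exact h4

theorem dist_swap (s t : E2 × E2) : dist s.swap t.swap = dist s t := by
  rw [Prod.dist_eq, Prod.dist_eq, max_comm]; rfl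

theorem mem_of_approx {X : Type*} [PseudoMetricSpace X] {G : Set X} (hG : IsClosed G) {x : X}
    (h : ∀ r > 0, ∃ y ∈ G, dist y x < r) : x ∈ G := by
  rw [← hG.closure_eq, Metric.mem_closure_iff]
  intro ε hε
  obtain ⟨y, hy, hd⟩ := h ε hε
  exact ⟨y, hy, by rwa [dist_comm]⟩

theorem Cls.symm {G : Set (E2 × E2)} (hG : Cls G) {s : E2 × E2} (hs : s ∈ G) : s.swap ∈ G := by
  refine mem_of_approx hG.1 fun r hr => ?_
  obtain ⟨r', n, K, J, -, -, -, hc⟩ := hG.2 (dist s 0 + r) (r / 2) (by positivity)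
  obtain ⟨t, ht, hts⟩ := hc.2 s hs (by linarith)
  obtain ⟨u, hu, htu⟩ := hc.1 t.swap (chords_symm ht) (by
    have h1 : dist t.swap 0 = dist t 0 := by
      rw [← dist_swap t 0]; rfl
    rw [h1]
    linarith [dist_triangle t s 0])
  refine ⟨u, hu, ?_⟩
  have h2 : dist t.swap s.swap < r / 2 := by rw [dist_swap]; exact hts
  rw [dist_comm] at htu
  linarith [dist_triangle u t.swap s.swap]

theorem CE.nonempty {η : ℝ} {n : ℕ} {K : Fin n → Set E2} {J : Finset (Fin n)} (h : CE η K J) :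
    J.Nonempty := by
  by_contra hne
  rw [Finset.not_nonempty_iff_eq_empty] at hne
  have := h.big
  rw [hne] at this
  simp at this

theorem exists_mem_chords {r : ℝ} {n : ℕ} {K : Fin n → Set E2} {J : Finset (Fin n)}
    (hr : 0 ≤ r) (h : CE r K J) {i : Fin n} (hi : i ∈ J) :
    ∃ s : E2 × E2, s.1 ∈ K i ∧ s.2 ∈ K i ∧ dist s.1 s.2 = 1 ∧
      ∀ x ∈ K i, ∃ y ∈ Sg s, dist x y ≤ 4 * r := by
  obtain ⟨h1, h2, h3, h4, h5⟩ := h.thin i hi
  obtain ⟨p, hp, q, hq, hpq, hx⟩ := exists_chord h1 h2 h3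
  refine ⟨(p, q), hp, hq, by rw [hpq, h4], fun x hxK => ?_⟩
  obtain ⟨y, hy, hxy⟩ := hx x hxK
  refine ⟨y, hy, ?_⟩
  rw [h4, mul_one] at hxy
  have : (volume (K i)).toReal ≤ r := by
    have := ENNReal.toReal_mono (by simp) h5
    rwa [ENNReal.toReal_ofReal hr] at this
  linarith

/-- Monotonicity of the class condition in `r`. -/
theorem CE.mono {r r' : ℝ} (h : r ≤ r') {n : ℕ} {K : Fin n → Set E2} {J : Finset (Fin n)}
    (hK : CE r K J) : CE r' K J :=
  ⟨fun i hi => by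
    obtain ⟨h1, h2, h3, h4, h5⟩ := hK.thin i hi
    exact ⟨h1, h2, h3, h4, h5.trans (ENNReal.ofReal_le_ofReal h)⟩, hK.big, hK.min⟩

end Pool.Agent.Helper11_Exact
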