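import Mathlib
import Pool.Agent.Helper11_Exact.Fam

set_option autoImplicit false

open Set Filter Topology MeasureTheory Real
open scoped ENNReal
open Pool.Agent.Helper11_Thin

namespace Pool.Agent.Helper11_Exact

theorem dist_self_tr (a : E2) (s : E2 × E2) : dist s (tr a s) ≤ ‖a‖ := by
  rw [Prod.dist_eq]
  simp [tr]

theorem dist_tr_self (a : E2) (s : E2 × E2) : dist (tr a s) s ≤ ‖a‖ := by
  rw [dist_comm]; exact dist_self_tr a s

theorem isClosed_tr {G : Set (E2 × E2)} (hG : IsClosed G) (a : E2) : IsClosed (tr a '' G) := by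
  have : tr a '' G = tr (-a) ⁻¹' G := by
    ext s
    constructor
    · rintro ⟨t, ht, rfl⟩
      simpa [tr_tr, tr_zero] using ht
    · intro hs
      exact ⟨tr (-a) s, hs, by simp [tr_tr, tr_zero]⟩
  rw [this]
  refine hG.preimage ?_
  unfold tr
  fun_prop

theorem CloseIn.tr {A B : Set (E2 × E2)} {R r : ℝ} (a : E2) (h : CloseIn 0 (R + ‖a‖) r A B) :
    CloseIn 0 R r (tr a '' A) (tr a '' B) := by
  constructor
  · rintro _ ⟨s, hs, rfl⟩ hR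
    obtain ⟨x, hx, hd⟩ := h.1 s hs (by linarith [dist_triangle s (Helper11_Exact.tr a s) 0, dist_self_tr a s])
    exact ⟨Helper11_Exact.tr a x, ⟨x, hx, rfl⟩, by rwa [dist_tr]⟩
  · rintro _ ⟨s, hs, rfl⟩ hR
    obtain ⟨x, hx, hd⟩ := h.2 s hs (by linarith [dist_triangle s (Helper11_Exact.tr a s) 0, dist_self_tr a s])
    exact ⟨Helper11_Exact.tr a x, ⟨x, hx, rfl⟩, by rwa [dist_tr]⟩

theorem Cls.translate {G : Set (E2 × E2)} (hG : Cls G) (a : E2) : Cls (tr a '' G) := by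
  refine ⟨isClosed_tr hG.1 a, fun R r hr => ?_⟩
  obtain ⟨r', n, K, J, h1, h2, h3, h4⟩ := hG.2 (R + ‖a‖) r hr
  refine ⟨r', n, _, J, h1, h2, h3.translate a, ?_⟩
  rw [chords_translate]
  exact h4.tr a

theorem Cls.lim {G : ℕ → Set (E2 × E2)} (hG : ∀ m, Cls (G m)) : Cls (Lim G) := by
  refine ⟨isClosed_Lim G, fun R r hr => ?_⟩
  obtain ⟨m, hm⟩ := (closeIn_Lim G 0 (R + r / 2) (r / 2) (by positivity)).exists
  obtain ⟨r', n, K, J, h1, h2, h3, h4⟩ := (hG m).2 (R + r / 2) (r / 2) (by positivity)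
  refine ⟨r', n, K, J, h1, by linarith, h3, ?_⟩
  have := h4.trans hm (by positivity) (by positivity)
  rwa [add_halves] at this

theorem exists_Cls (h : ∀ r : ℝ, 0 < r → ∃ (n : ℕ) (K : Fin n → Set E2) (J : Finset (Fin n)), CE r K J) :
    ∃ G, Cls G ∧ G.Nonempty := by
  have h1 : ∀ m : ℕ, ∃ (n : ℕ) (K : Fin n → Set E2) (J : Finset (Fin n)), CE (1 / ((m : ℝ) + 1)) K J ∧
      ∃ s ∈ chords (4 * (1 / ((m : ℝ) + 1))) K J, s.1 = 0 := by
    intro m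
    obtain ⟨n, K, J, hK⟩ := h (1 / ((m : ℝ) + 1)) (by positivity)
    obtain ⟨i, hi⟩ := hK.nonempty
    obtain ⟨s, hs1, hs2, hs3, hs4⟩ := exists_mem_chords (by positivity) hK hi
    refine ⟨n, _, J, hK.translate (-s.1), ?_⟩
    rw [chords_translate]
    exact ⟨tr (-s.1) s, ⟨s, ⟨i, hi, hs1, hs2, hs3, hs4⟩, rfl⟩, by simp [tr]⟩
  choose n K J hK σ hσ hσ0 using h1
  set A : ℕ → Set (E2 × E2) := fun m => chords (4 * (1 / ((m : ℝ) + 1))) (K m) (J m) with hA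
  refine ⟨Lim A, ⟨isClosed_Lim A, fun R r hr => ?_⟩, ?_⟩
  · obtain ⟨m, hm1, hm2⟩ := ((closeIn_Lim A 0 R r hr).and (UF_inv.eventually_lt_const hr)).exists
    exact ⟨1 / ((m : ℝ) + 1), n m, K m, J m, by positivity, hm2.le, hK m, hm1⟩
  · have hb : ∀ᶠ m in (UF : Filter ℕ), dist (σ m) 0 ≤ 1 := by
      refine Eventually.of_forall fun m => ?_
      obtain ⟨i, -, -, -, h3, -⟩ := hσ m
      rw [Prod.dist_eq]
      refine max_le ?_ ?_
      · rw [hσ0 m]; simp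
      · rw [hσ0 m, dist_comm] at h3
        exact h3.le
    obtain ⟨s, -, hs⟩ := exists_tendsto_of_bounded 0 1 hb
    exact ⟨s, mem_Lim_of_tendsto (Eventually.of_forall hσ) hs⟩

/-- Sequence of counterexamples approaching a member of the class. -/
structure Seqn (G : Set (E2 × E2)) where
  n : ℕ → ℕ
  K : ∀ m, Fin (n m) → Set E2
  J : ∀ m, Finset (Fin (n m))
  r : ℕ → ℝ
  rpos : ∀ m, 0 < r m
  rle : ∀ m, r m ≤ 1 / ((m : ℝ) + 1)
  ce : ∀ m, CE (r m) (K m) (J m)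
  close : ∀ m : ℕ, CloseIn 0 (m : ℝ) (1 / ((m : ℝ) + 1)) (chords (4 * r m) (K m) (J m)) G

theorem Cls.seqn {G : Set (E2 × E2)} (hG : Cls G) : Nonempty (Seqn G) := by
  choose r n K J h1 h2 h3 h4 using fun m : ℕ => hG.2 (m : ℝ) (1 / ((m : ℝ) + 1)) (by positivity)
  exact ⟨⟨n, K, J, r, h1, h2, h3, h4⟩⟩

/-- The members `K m (i m)` converge to the segment `s`. -/
def Seqn.Conv {G : Set (E2 × E2)} (F : Seqn G) (i : ∀ m, Fin (F.n m)) (s : E2 × E2) : Prop :=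
  ∃ σ : ℕ → E2 × E2, Tendsto σ UF (𝓝 s) ∧ ∀ᶠ m in (UF : Filter ℕ),
    (σ m).1 ∈ F.K m (i m) ∧ (σ m).2 ∈ F.K m (i m) ∧ ∀ x ∈ F.K m (i m), ∃ y ∈ Sg (σ m), dist x y ≤ 4 * F.r m

theorem Seqn.tendsto_r {G : Set (E2 × E2)} (F : Seqn G) : Tendsto (fun m => 4 * F.r m) UF (𝓝 0) := by
  have h1 : Tendsto F.r UF (𝓝 0) :=
    squeeze_zero (fun m => (F.rpos m).le) F.rle UF_inv
  simpa using h1.const_mul 4

theorem tendsto_nat_UF : Tendsto (fun m : ℕ => (m : ℝ)) UF atTop :=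
  tendsto_natCast_atTop_atTop.mono_left UF_le

theorem Seqn.conv_of_bounded {G : Set (E2 × E2)} (F : Seqn G) (hG : IsClosed G) (i : ∀ m, Fin (F.n m)) (M : ℝ)
    (hi : ∀ᶠ m in (UF : Filter ℕ), i m ∈ F.J m ∧ ∃ x ∈ F.K m (i m), dist x 0 ≤ M) :
    ∃ s ∈ G, F.Conv i s := by
  have h1 : ∀ m, ∃ s : E2 × E2, i m ∈ F.J m → s.1 ∈ F.K m (i m) ∧ s.2 ∈ F.K m (i m) ∧ dist s.1 s.2 = 1 ∧
      ∀ x ∈ F.K m (i m), ∃ y ∈ Sg s, dist x y ≤ 4 * F.r m := by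
    intro m
    by_cases hm : i m ∈ F.J m
    · obtain ⟨s, hs⟩ := exists_mem_chords (F.rpos m).le (F.ce m) hm
      exact ⟨s, fun _ => hs⟩
    · exact ⟨0, fun h => absurd h hm⟩
  choose σ hσ using h1
  have hb : ∀ᶠ m in (UF : Filter ℕ), dist (σ m) 0 ≤ M + 1 := by
    filter_upwards [hi] with m hm
    obtain ⟨hm1, x, hx, hxM⟩ := hm
    obtain ⟨h1, h2, h3, h4⟩ := hσ m hm1
    obtain ⟨-, hc, -, hd, -⟩ := (F.ce m).thin _ hm1
    have e1 := Metric.dist_le_diam_of_mem hc.isBounded h1 hx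
    have e2 := Metric.dist_le_diam_of_mem hc.isBounded h2 hx
    rw [hd] at e1 e2
    have : dist (σ m) ((0 : E2), (0 : E2)) ≤ M + 1 :=
      dist_prod_le ⟨by linarith [dist_triangle (σ m).1 x 0], by linarith [dist_triangle (σ m).2 x 0]⟩
    exact this
  obtain ⟨s, -, hs⟩ := exists_tendsto_of_bounded 0 (M + 1) hb
  refine ⟨s, ?_, σ, hs, ?_⟩
  · refine mem_of_approx hG fun ε hε => ?_
    have e1 : ∀ᶠ m in (UF : Filter ℕ), dist (σ m) s < ε / 2 :=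
      hs.eventually (Metric.ball_mem_nhds s (by positivity))
    have e2 : ∀ᶠ m : ℕ in (UF : Filter ℕ), 1 / ((m : ℝ) + 1) < ε / 2 := UF_inv.eventually_lt_const (by positivity)
    have e3 : ∀ᶠ m : ℕ in (UF : Filter ℕ), M + 1 ≤ (m : ℝ) := tendsto_nat_UF.eventually_ge_atTop _
    obtain ⟨m, hm1, hm2, hm3, hm4, hm5⟩ := (e1.and (e2.and (e3.and (hb.and hi)))).exists
    obtain ⟨h1, h2, h3, h4⟩ := hσ m hm5.1
    obtain ⟨t, ht, htd⟩ := (F.close m).1 (σ m) ⟨i m, hm5.1, h1, h2, h3, h4⟩ (hm4.trans hm3)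
    refine ⟨t, ht, ?_⟩
    rw [dist_comm] at htd
    linarith [dist_triangle t (σ m) s]
  · filter_upwards [hi] with m hm
    obtain ⟨h1, h2, -, h4⟩ := hσ m hm.1
    exact ⟨h1, h2, h4⟩

theorem Seqn.conv_of_mem {G : Set (E2 × E2)} (F : Seqn G) {s : E2 × E2} (hs : s ∈ G) :
    ∃ i : ∀ m, Fin (F.n m), (∀ᶠ m in (UF : Filter ℕ), i m ∈ F.J m) ∧ F.Conv i s := by
  have h1 : ∀ m : ℕ, ∃ (i : Fin (F.n m)) (σ : E2 × E2), dist s 0 ≤ m → i ∈ F.J m ∧ σ.1 ∈ F.K m i ∧ σ.2 ∈ F.K m i ∧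
      dist σ s < 1 / ((m : ℝ) + 1) ∧ ∀ x ∈ F.K m i, ∃ y ∈ Sg σ, dist x y ≤ 4 * F.r m := by
    intro m
    by_cases hm : dist s 0 ≤ m
    · obtain ⟨σ, ⟨i, hi, h1, h2, h3, h4⟩, hd⟩ := (F.close m).2 s hs hm
      exact ⟨i, σ, fun _ => ⟨hi, h1, h2, hd, h4⟩⟩
    · obtain ⟨i, -⟩ := (F.ce m).nonempty
      exact ⟨i, 0, fun h => absurd h hm⟩
  choose i σ hσ using h1
  have e3 : ∀ᶠ m : ℕ in (UF : Filter ℕ), dist s 0 ≤ (m : ℝ) := tendsto_nat_UF.eventually_ge_atTop _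
  refine ⟨i, ?_, σ, ?_, ?_⟩
  · filter_upwards [e3] with m hm using (hσ m hm).1
  · rw [Metric.tendsto_nhds]
    intro ε hε
    filter_upwards [e3, UF_inv.eventually_lt_const hε] with m hm hm2
    exact (hσ m hm).2.2.2.1.trans hm2
  · filter_upwards [e3] with m hm
    obtain ⟨-, h1, h2, -, h4⟩ := hσ m hm
    exact ⟨h1, h2, h4⟩

/-- Limits of points of the members lie on the limit segment. -/
theorem Seqn.Conv.limit {G : Set (E2 × E2)} {F : Seqn G} {i : ∀ m, Fin (F.n m)} {s : E2 × E2}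
    (h : F.Conv i s) {x : ℕ → E2} {x' : E2} (hx : ∀ᶠ m in (UF : Filter ℕ), x m ∈ F.K m (i m))
    (hlim : Tendsto x UF (𝓝 x')) : x' ∈ Sg s := by
  obtain ⟨σ, hσ, hK⟩ := h
  have h1 : ∀ m, ∃ y, ((x m ∈ F.K m (i m)) ∧ ∀ x ∈ F.K m (i m), ∃ y ∈ Sg (σ m), dist x y ≤ 4 * F.r m) →
      y ∈ Sg (σ m) ∧ dist (x m) y ≤ 4 * F.r m := by
    intro m
    by_cases hm : (x m ∈ F.K m (i m)) ∧ ∀ x ∈ F.K m (i m), ∃ y ∈ Sg (σ m), dist x y ≤ 4 * F.r m
    · obtain ⟨y, hy⟩ := hm.2 _ hm.1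
      exact ⟨y, fun _ => hy⟩
    · exact ⟨0, fun h => absurd h hm⟩
  choose y hy using h1
  have h2 : ∀ᶠ m in (UF : Filter ℕ), y m ∈ Sg (σ m) ∧ dist (x m) (y m) ≤ 4 * F.r m := by
    filter_upwards [hx, hK] with m h1 h2
    exact hy m ⟨h1, h2.2.2⟩
  have h3 : Tendsto y UF (𝓝 x') := by
    rw [Metric.tendsto_nhds]
    intro ε hε
    have e1 : ∀ᶠ m in (UF : Filter ℕ), dist (x m) x' < ε / 2 :=
      hlim.eventually (Metric.ball_mem_nhds x' (by positivity))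
    have e2 : ∀ᶠ m in (UF : Filter ℕ), 4 * F.r m < ε / 2 := F.tendsto_r.eventually_lt_const (by positivity)
    filter_upwards [e1, e2, h2] with m h1 h2 h3
    rw [dist_comm] at h3
    linarith [dist_triangle (y m) (x m) x', h3.2, dist_comm (x m) (y m)]
  exact Sg_limit hσ h3 (h2.mono fun m hm => hm.1)

/-- Every point of the limit segment is a limit of points of the members. -/
theorem Seqn.Conv.approx {G : Set (E2 × E2)} {F : Seqn G} {i : ∀ m, Fin (F.n m)} {s : E2 × E2}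
    (h : F.Conv i s) (hi : ∀ᶠ m in (UF : Filter ℕ), i m ∈ F.J m) {x : E2} (hx : x ∈ Sg s) {ε : ℝ} (hε : 0 < ε) :
    ∀ᶠ m in (UF : Filter ℕ), ∃ y ∈ F.K m (i m), dist y x < ε := by
  obtain ⟨σ, hσ, hK⟩ := h
  have e1 : ∀ᶠ m in (UF : Filter ℕ), dist (σ m) s < ε := hσ.eventually (Metric.ball_mem_nhds s hε)
  filter_upwards [e1, hK, hi] with m h1 h2 h3
  obtain ⟨y, hy, hxy⟩ := Sg_near (by rwa [dist_comm] at h1) hx
  have hc := ((F.ce m).thin _ h3).1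
  exact ⟨y, hc.segment_subset h2.1 h2.2.1 hy, by rwa [dist_comm]⟩

end Pool.Agent.Helper11_Exact
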