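import Mathlib
import Pool.Agent.Helper11_Exact.Cls

set_option autoImplicit false

open Set Filter Topology MeasureTheory Real
open scoped ENNReal
open Pool.Agent.Helper11_Thin

namespace Pool.Agent.Helper11_Exact

theorem Seqn.Conv.tendsto {G : Set (E2 × E2)} {F : Seqn G} {i : ∀ m, Fin (F.n m)} {s : E2 × E2}
    (h : F.Conv i s) {x : ℕ → E2} (hx : ∀ᶠ m in (UF : Filter ℕ), x m ∈ F.K m (i m)) :
    ∃ x' ∈ Sg s, Tendsto x UF (𝓝 x') := by
  have h' := h
  obtain ⟨σ, hσ, hK⟩ := h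
  have hb : ∀ᶠ m in (UF : Filter ℕ), dist (x m) s.1 ≤ 1 + dist s.1 s.2 + 1 := by
    have e1 : ∀ᶠ m in (UF : Filter ℕ), dist (σ m) s < 1 := hσ.eventually (Metric.ball_mem_nhds s one_pos)
    have e2 : ∀ᶠ m in (UF : Filter ℕ), 4 * F.r m < 1 := F.tendsto_r.eventually_lt_const one_pos
    filter_upwards [e1, e2, hK, hx] with m h1 h2 h3 h4
    obtain ⟨y, hy, hxy⟩ := h3.2.2 _ h4
    obtain ⟨z, hz, hyz⟩ := Sg_near h1 hy
    have h5 := dist_le_of_mem_Sg hz (left_mem_Sg s)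
    linarith [dist_triangle4 (x m) y z s.1]
  obtain ⟨x', -, hx'⟩ := exists_tendsto_of_bounded s.1 _ hb
  exact ⟨x', h'.limit hx hx', hx'⟩

theorem Seqn.Conv.eventually_disjoint {G : Set (E2 × E2)} {F : Seqn G} {i j : ∀ m, Fin (F.n m)}
    {s t : E2 × E2} (hi : F.Conv i s) (hj : F.Conv j t) (h : Disjoint (Sg s) (Sg t)) :
    ∀ᶠ m in (UF : Filter ℕ), Disjoint (F.K m (i m)) (F.K m (j m)) := by
  by_contra hcon
  rw [← Ultrafilter.eventually_not] at hcon
  have hch : ∀ᶠ m in (UF : Filter ℕ), ∃ x, x ∈ F.K m (i m) ∧ x ∈ F.K m (j m) := by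
    filter_upwards [hcon] with m hm
    rw [Set.not_disjoint_iff] at hm
    exact hm
  obtain ⟨x, hx⟩ := hch.choice
  obtain ⟨x', hx', hlim⟩ := hi.tendsto (hx.mono fun m hm => hm.1)
  have := hj.limit (hx.mono fun m hm => hm.2) hlim
  exact Set.disjoint_left.mp h hx' this

/-- Members of the families which meet members converging to given segments end up near the union of
the limit members meeting these segments. -/
theorem Seqn.near_sub {G : Set (E2 × E2)} (hG : IsClosed G) (F : Seqn G) {ι : Type*}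
    (X : Finset ι) (i : ι → ∀ m, Fin (F.n m)) (s : ι → E2 × E2)
    (hi : ∀ t ∈ X, F.Conv (i t) (s t)) {ρ : ℝ} (hρ0' : 0 < ρ) :
    ∀ᶠ m in (UF : Filter ℕ), ∀ j ∈ F.J m, (∃ t ∈ X, (F.K m j ∩ F.K m (i t m)).Nonempty) →
      F.K m j ⊆ Metric.cthickening ρ (UU (Meet G (⋃ t ∈ X, Sg (s t)))) := by
  classical
  set V : Set E2 := ⋃ t ∈ X, Sg (s t) with hV
  by_contra hc
  rw [← Ultrafilter.eventually_not] at hc
  have hc2 : ∀ᶠ m in (UF : Filter ℕ), ∃ t ∈ X, ∃ j ∈ F.J m, ∃ x z : E2, x ∈ F.K m j ∧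
      x ∉ Metric.cthickening ρ (UU (Meet G V)) ∧ z ∈ F.K m j ∧ z ∈ F.K m (i t m) := by
    filter_upwards [hc] with m hm
    push Not at hm
    obtain ⟨j, hj, ⟨t, ht, z, hz1, hz2⟩, hm⟩ := hm
    rw [not_subset] at hm
    obtain ⟨x, hx, hxn⟩ := hm
    exact ⟨t, ht, j, hj, x, z, hx, hxn, hz1, hz2⟩
  have hc3 := (Ultrafilter.eventually_exists_mem_iff (f := UF) X.finite_toSet
    (P := fun t m => ∃ j ∈ F.J m, ∃ x z : E2, x ∈ F.K m j ∧
      x ∉ Metric.cthickening ρ (UU (Meet G V)) ∧ z ∈ F.K m j ∧ z ∈ F.K m (i t m))).mp hc2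
  obtain ⟨t, ht, hc4⟩ := hc3
  have hc5 : ∀ m, ∃ (j : Fin (F.n m)) (x z : E2), (∃ j ∈ F.J m, ∃ x z : E2, x ∈ F.K m j ∧
      x ∉ Metric.cthickening ρ (UU (Meet G V)) ∧ z ∈ F.K m j ∧ z ∈ F.K m (i t m)) → j ∈ F.J m ∧ x ∈ F.K m j ∧
      x ∉ Metric.cthickening ρ (UU (Meet G V)) ∧ z ∈ F.K m j ∧ z ∈ F.K m (i t m) := by
    intro m
    by_cases h : ∃ j ∈ F.J m, ∃ x z : E2, x ∈ F.K m j ∧
      x ∉ Metric.cthickening ρ (UU (Meet G V)) ∧ z ∈ F.K m j ∧ z ∈ F.K m (i t m)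
    · obtain ⟨j, hj, x, z, h'⟩ := h
      exact ⟨j, x, z, fun _ => ⟨hj, h'⟩⟩
    · exact ⟨(F.ce m).nonempty.choose, 0, 0, fun h' => absurd h' h⟩
  choose j x z hjxz using hc5
  have h1 : ∀ᶠ m in (UF : Filter ℕ), j m ∈ F.J m ∧ x m ∈ F.K m (j m) ∧
      x m ∉ Metric.cthickening ρ (UU (Meet G V)) ∧ z m ∈ F.K m (j m) ∧ z m ∈ F.K m (i t m) := by
    filter_upwards [hc4] with m hm using hjxz m hm
  obtain ⟨z', hz', hzlim⟩ := (hi t ht).tendsto (h1.mono fun m hm => hm.2.2.2.2)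
  have h2 : ∀ᶠ m in (UF : Filter ℕ), dist (z m) z' < 1 := hzlim.eventually (Metric.ball_mem_nhds z' one_pos)
  obtain ⟨s', hs', hjs⟩ := F.conv_of_bounded hG j (dist z' 0 + 1) (by
    filter_upwards [h1, h2] with m hm hm2
    exact ⟨hm.1, z m, hm.2.2.2.1, by linarith [dist_triangle (z m) z' 0]⟩)
  have hz's : z' ∈ Sg s' := hjs.limit (h1.mono fun m hm => hm.2.2.2.1) hzlim
  obtain ⟨x', hx', hxlim⟩ := hjs.tendsto (h1.mono fun m hm => hm.2.1)
  have hxU : x' ∈ UU (Meet G V) :=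
    mem_UU.mpr ⟨s', ⟨hs', z', hz's, mem_iUnion₂.mpr ⟨t, ht, hz'⟩⟩, hx'⟩
  have h3 : ∀ᶠ m in (UF : Filter ℕ), dist (x m) x' < ρ := hxlim.eventually (Metric.ball_mem_nhds x' hρ0')
  obtain ⟨m, hm1, hm3⟩ := (h1.and h3).exists
  exact hm1.2.2.1 (Metric.mem_cthickening_of_dist_le _ _ _ _ hxU hm3.le)

theorem exists_cthickening {A : Set E2} (hA : IsCompact A) {c : ℝ≥0∞} (h : volume A < c) :
    ∃ ρ > 0, volume (Metric.cthickening ρ A) < c := by
  have ht := tendsto_measure_cthickening_of_isCompact (μ := (volume : Measure E2)) hA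
  have hev : ∀ᶠ r in 𝓝[>] (0 : ℝ), volume (Metric.cthickening r A) < c :=
    (ht.eventually_lt_const h).filter_mono nhdsWithin_le_nhds
  obtain ⟨ρ, hρ, hρ0⟩ := (hev.and self_mem_nhdsWithin).exists
  exact ⟨ρ, hρ0, hρ⟩

/-- Disjoint members converging to given segments: area of the neighbours of the limit. -/
theorem Seqn.Qlim {G : Set (E2 × E2)} (hG : Cls G) (F : Seqn G) {ι : Type*}
    (X : Finset ι) (hne : X.Nonempty) (i : ι → ∀ m, Fin (F.n m)) (s : ι → E2 × E2)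
    (hi : ∀ t ∈ X, F.Conv (i t) (s t)) (hJ : ∀ᶠ m in (UF : Filter ℕ), ∀ t ∈ X, i t m ∈ F.J m)
    (hdis : ∀ᶠ m in (UF : Filter ℕ), ∀ t ∈ X, ∀ t' ∈ X, t ≠ t' →
      Disjoint (F.K m (i t m)) (F.K m (i t' m))) :
    ENNReal.ofReal (π * X.card) ≤ volume (UU (Meet G (⋃ t ∈ X, Sg (s t)))) := by
  classical
  by_contra hcon
  push Not at hcon
  have hVc : IsCompact (⋃ t ∈ X, Sg (s t)) := X.isCompact_biUnion fun t _ => isCompact_Sg _
  obtain ⟨ρ, hρ0, hρ⟩ := exists_cthickening (isCompact_UU (isCompact_Meet hG.1 hG.unit1 hVc)) hcon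
  obtain ⟨m, hm1, hm2, hm3⟩ := (hJ.and (hdis.and (F.near_sub hG.1 X i s hi hρ0))).exists
  have hinj : InjOn (fun t => i t m) (X : Set ι) := by
    intro s hs t ht hst
    by_contra hne
    have h1 := hm2 s hs t ht hne
    simp only at hst
    rw [hst] at h1
    obtain ⟨x, hx⟩ := ((F.ce m).thin _ (hm1 t ht)).2.2.1
    exact Set.disjoint_left.mp h1 hx hx
  set N : Finset (Fin (F.n m)) :=
    Finset.univ.filter (fun j => ∃ t ∈ X, (F.K m j ∩ F.K m (i t m)).Nonempty) with hN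
  have hnear := (F.ce m).near (X.image (fun t => i t m)) N (by
      intro y hy
      obtain ⟨t, ht, rfl⟩ := Finset.mem_image.mp hy
      exact hm1 t ht) (by
      intro y hy z hz hyz
      simp only [Finset.coe_image, mem_image, Finset.mem_coe] at hy hz
      obtain ⟨s, hs, rfl⟩ := hy
      obtain ⟨t, ht, rfl⟩ := hz
      exact (hm2 s hs t ht (fun h => hyz (by rw [h]))).mono interior_subset interior_subset)
    (hne.image _) (by
      intro y hy
      obtain ⟨t, ht, rfl⟩ := Finset.mem_image.mp hy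
      obtain ⟨x, hx⟩ := ((F.ce m).thin _ (hm1 t ht)).2.2.1
      simp only [hN, Finset.mem_filter, Finset.mem_univ, true_and]
      exact ⟨t, ht, x, hx, hx⟩) (by
      intro k hk hkN y hy
      obtain ⟨t, ht, rfl⟩ := Finset.mem_image.mp hy
      have h1 : Disjoint (F.K m k) (F.K m (i t m)) := by
        rw [Set.disjoint_iff_inter_eq_empty, ← Set.not_nonempty_iff_eq_empty]
        intro hne
        apply hkN
        simp only [hN, Finset.mem_filter, Finset.mem_univ, true_and]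
        exact ⟨t, ht, hne⟩
      exact h1.mono interior_subset interior_subset)
  rw [Finset.card_image_of_injOn hinj] at hnear
  have hsub : (⋃ j ∈ F.J m ∩ N, F.K m j) ⊆ Metric.cthickening ρ (UU (Meet G (⋃ t ∈ X, Sg (s t)))) := by
    intro x hx
    simp only [mem_iUnion, exists_prop, hN, Finset.mem_inter, Finset.mem_filter, Finset.mem_univ, true_and] at hx
    obtain ⟨j, ⟨hj, ht⟩, hx⟩ := hx
    exact hm3 j hj ht hx
  exact absurd (hnear.trans_le (measure_mono hsub)) (not_lt.mpr hρ.le)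

/-- Disjoint members of a limit family have many neighbours. -/
theorem Cls.Q {G : Set (E2 × E2)} (hG : Cls G) (X : Finset (E2 × E2)) (hX : (X : Set (E2 × E2)) ⊆ G)
    (hd : (X : Set (E2 × E2)).Pairwise (fun s t => Disjoint (Sg s) (Sg t))) :
    ENNReal.ofReal (π * X.card) ≤ volume (UU (Meet G (⋃ t ∈ X, Sg t))) := by
  classical
  rcases X.eq_empty_or_nonempty with rfl | hne
  · simp
  obtain ⟨F⟩ := hG.seqn
  have hch : ∀ t : E2 × E2, ∃ i : ∀ m, Fin (F.n m), t ∈ X → (∀ᶠ m in (UF : Filter ℕ), i m ∈ F.J m) ∧ F.Conv i t := by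
    intro t
    by_cases ht : t ∈ X
    · obtain ⟨i, hi⟩ := F.conv_of_mem (hX ht)
      exact ⟨i, fun _ => hi⟩
    · exact ⟨fun m => (F.ce m).nonempty.choose, fun h => absurd h ht⟩
  choose i hi using hch
  refine F.Qlim hG X hne i id (fun t ht => (hi t ht).2) ?_ ?_
  · rw [Filter.eventually_all_finset]
    exact fun t ht => (hi t ht).1
  · rw [Filter.eventually_all_finset]
    intro s hs
    rw [Filter.eventually_all_finset]
    intro t ht
    by_cases hst : s = t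
    · exact Eventually.of_forall fun m h => absurd hst h
    · filter_upwards [(hi s hs).2.eventually_disjoint (hi t ht).2 (hd hs ht hst)] with m hm _ using hm

end Pool.Agent.Helper11_Exact
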