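import Mathlib
import Pool.Agent.Helper11_Exact.Qinf
import Pool.Agent.Helper11_Exact.Iso

set_option autoImplicit false

open Set Filter Topology MeasureTheory Real
open scoped ENNReal
open Pool.Agent.Helper11_Thin

namespace Pool.Agent.Helper11_Exact

/-- A unit segment reaching from the unit ball to the outside of the open ball of radius two is
radial. -/
theorem radial {T : E2 × E2} (hT : dist T.1 T.2 = 1) {y P : E2} (hy : y ∈ Sg T) (hP : P ∈ Sg T)
    (hy1 : ‖y‖ ≤ 1) (hP2 : 2 ≤ ‖P‖) :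
    ‖y‖ = 1 ∧ (T = (y, (2 : ℝ) • y) ∨ T = ((2 : ℝ) • y, y)) := by
  have h1 : dist P y ≤ 1 := by rw [← hT]; exact dist_le_of_mem_Sg hP hy
  have h2 : ‖P‖ ≤ dist P y + ‖y‖ := by
    rw [dist_eq_norm]
    calc ‖P‖ = ‖(P - y) + y‖ := by rw [sub_add_cancel]
      _ ≤ _ := norm_add_le _ _
  have h3 : ‖y‖ = 1 := by linarith
  have h4 : dist P y = 1 := by linarith
  have h5 : ‖(P - y) + y‖ = ‖P - y‖ + ‖y‖ := by
    rw [sub_add_cancel, ← dist_eq_norm]; linarith
  have h6 : P - y = y := by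
    have h7 := sameRay_iff_norm_add.mpr h5
    have h8 := h7.norm_smul_eq
    rw [← dist_eq_norm, h4, h3, one_smul, one_smul] at h8
    exact h8.symm
  have hPy : P = (2 : ℝ) • y := by rw [two_smul]; exact sub_eq_iff_eq_add.mp h6
  refine ⟨h3, ?_⟩
  -- positions on the segment
  rw [Sg, segment_eq_image'] at hy hP
  obtain ⟨a, ⟨ha0, ha1⟩, hya⟩ := hy
  obtain ⟨b, ⟨hb0, hb1⟩, hPb⟩ := hP
  simp only at hya hPb
  have h7 : dist P y = |b - a| := by
    rw [← hya, ← hPb, dist_eq_norm]
    have : T.1 + b • (T.2 - T.1) - (T.1 + a • (T.2 - T.1)) = (b - a) • (T.2 - T.1) := by module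
    rw [this, norm_smul, ← dist_eq_norm T.2 T.1, dist_comm T.2, hT, mul_one, Real.norm_eq_abs]
  rw [h4] at h7
  rcases abs_cases (b - a) with ⟨h8, -⟩ | ⟨h8, -⟩
  · left
    have ha : a = 0 := by linarith
    have hb : b = 1 := by linarith
    rw [ha] at hya
    rw [hb] at hPb
    refine Prod.ext ?_ ?_
    · simpa using hya
    · rw [← hPy, ← hPb]; simp
  · right
    have ha : a = 1 := by linarith
    have hb : b = 0 := by linarith
    rw [ha] at hya
    rw [hb] at hPb
    refine Prod.ext ?_ ?_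
    · rw [← hPy, ← hPb]; simp
    · rw [← hya]; simp

theorem volume_Sg (s : E2 × E2) : volume (Sg s) = 0 := by
  by_cases h : s.1 = s.2
  · rw [Sg, h, segment_same]; simp
  · have h1 : Sg s ⊆ (AffineSubspace.mk' s.1 (Submodule.span ℝ {s.2 - s.1}) : Set E2) := by
      intro x hx
      rw [Sg, segment_eq_image'] at hx
      obtain ⟨θ, -, rfl⟩ := hx
      rw [SetLike.mem_coe, AffineSubspace.mem_mk']
      simp only [vsub_eq_sub, add_sub_cancel_left]
      exact Submodule.smul_mem _ _ (Submodule.mem_span_singleton_self _)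
    refine measure_mono_null h1 (Measure.addHaar_affineSubspace _ _ ?_)
    intro htop
    have h2 := congrArg AffineSubspace.direction htop
    rw [AffineSubspace.direction_mk', AffineSubspace.direction_top] at h2
    have h3 := finrank_span_singleton (K := ℝ) (sub_ne_zero.mpr (Ne.symm h))
    rw [h2, finrank_top, finrank_euclideanSpace_fin] at h3
    norm_num at h3

theorem UU_Meet_subset {G : Set (E2 × E2)} (hG : Unit1 G) {V : Set E2} {c : E2} {R : ℝ}
    (hV : V ⊆ Metric.closedBall c R) : UU (Meet G V) ⊆ Metric.closedBall c (R + 1) := by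
  intro x hx
  obtain ⟨s, ⟨hs, y, hy, hyV⟩, hx⟩ := mem_UU.mp hx
  have h1 := dist_le_of_mem_Sg hx hy
  rw [hG s hs] at h1
  have h2 : dist y c ≤ R := hV hyV
  exact Metric.mem_closedBall.mpr (by linarith [dist_triangle x y c])

theorem volume_closedBall_E2 (c : E2) {R : ℝ} (hR : 0 ≤ R) :
    volume (Metric.closedBall c R) = ENNReal.ofReal (π * R ^ 2) := by
  rw [EuclideanSpace.volume_closedBall_fin_two, ← ENNReal.ofReal_pow hR,
    ← ENNReal.ofReal_mul (by positivity), mul_comm]

/-- In a ball of radius `R` there are at most `(R + 1) ^ 2` pairwise disjoint members. -/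
theorem Cls.card_le {G : Set (E2 × E2)} (hG : Cls G) (X : Finset (E2 × E2)) (hX : (X : Set (E2 × E2)) ⊆ G)
    (hd : (X : Set (E2 × E2)).Pairwise (fun s t => Disjoint (Sg s) (Sg t))) {c : E2} {R : ℝ} (hR : 0 ≤ R)
    (hXR : ∀ s ∈ X, Sg s ⊆ Metric.closedBall c R) : (X.card : ℝ) ≤ (R + 1) ^ 2 := by
  have h1 := hG.Q X hX hd
  have h2 : (⋃ t ∈ X, Sg t) ⊆ Metric.closedBall c R := iUnion₂_subset hXR
  have h3 := h1.trans (measure_mono (UU_Meet_subset hG.unit1 h2))
  rw [volume_closedBall_E2 c (by linarith), ENNReal.ofReal_le_ofReal_iff (by positivity)] at h3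
  exact le_of_mul_le_mul_left h3 pi_pos

theorem finite_of_card_le {α : Type*} {S : Set α} {c : ℝ} (h : ∀ T : Finset α, (T : Set α) ⊆ S → (T.card : ℝ) ≤ c) :
    S.Finite := by
  by_contra hinf
  have hinf' : S.Infinite := hinf
  obtain ⟨k, hk⟩ := exists_nat_gt c
  obtain ⟨T, hT, hTc⟩ := hinf'.exists_subset_card_eq k
  have := h T hT
  rw [hTc] at this
  linarith

theorem radial_disjoint {y y' : E2} (hy : ‖y‖ = 1) (hy' : ‖y'‖ = 1) (hne : y ≠ y') :
    Disjoint (Sg (y, (2 : ℝ) • y)) (Sg (y', (2 : ℝ) • y')) := by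
  rw [Set.disjoint_left]
  intro z hz hz'
  rw [Sg, segment_eq_image'] at hz hz'
  obtain ⟨a, ⟨ha0, ha1⟩, hza⟩ := hz
  obtain ⟨b, ⟨hb0, hb1⟩, hzb⟩ := hz'
  simp only at hza hzb
  have e1 : z = (1 + a) • y := by rw [← hza]; module
  have e2 : z = (1 + b) • y' := by rw [← hzb]; module
  have n1 : ‖z‖ = 1 + a := by rw [e1, norm_smul, hy, mul_one, Real.norm_of_nonneg (by linarith)]
  have n2 : ‖z‖ = 1 + b := by rw [e2, norm_smul, hy', mul_one, Real.norm_of_nonneg (by linarith)]
  have hab : a = b := by linarith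
  rw [hab] at e1
  apply hne
  have : (1 + b) • y = (1 + b) • y' := by rw [← e1, ← e2]
  exact smul_right_injective _ (by linarith : (1 + b : ℝ) ≠ 0) this

theorem infinite_sphere : (Metric.sphere (0 : E2) 1).Infinite := by
  have h : (fun t : ℝ => (!₂[cos t, sin t] : E2)) '' Icc 0 1 ⊆ Metric.sphere 0 1 := by
    rintro _ ⟨t, -, rfl⟩
    rw [mem_sphere_zero_iff_norm, EuclideanSpace.norm_eq, Fin.sum_univ_two]
    simp
  refine Set.Infinite.mono h (Set.Infinite.image ?_ (Icc_infinite one_pos))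
  intro s hs t ht hst
  have h0 : cos s = cos t := by
    have := congrArg (fun x : E2 => x 0) hst
    simpa using this
  have hpi : (1 : ℝ) ≤ π := by linarith [pi_gt_three]
  exact injOn_cos ⟨hs.1, hs.2.trans hpi⟩ ⟨ht.1, ht.2.trans hpi⟩ h0

/-- The peeling argument. -/
theorem peel {G : Set (E2 × E2)} (hG : Cls G)
    (h1 : ∀ T ∈ G, (0 : E2) ∈ Sg T ∨ ∃ P ∈ Sg T, 2 ≤ ‖P‖)
    (h2 : ∀ v : E2, ‖v‖ = 1 → ((0 : E2), v) ∈ G) : False := by
  classical
  obtain ⟨F⟩ := hG.seqn
  -- radial members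
  set R : Set E2 := {y | ‖y‖ = 1 ∧ (y, (2 : ℝ) • y) ∈ G} with hR
  have hrad : ∀ T ∈ G, (0 : E2) ∉ Sg T → ∀ y ∈ Sg T, ‖y‖ ≤ 1 → y ∈ R ∧ Sg T = Sg (y, (2 : ℝ) • y) := by
    intro T hT h0 y hy hy1
    obtain ⟨P, hP, hP2⟩ := (h1 T hT).resolve_left h0
    obtain ⟨hn, hTe⟩ := radial (hG.unit1 T hT) hy hP hy1 hP2
    rcases hTe with hTe | hTe
    · refine ⟨⟨hn, by rw [← hTe]; exact hT⟩, by rw [hTe]⟩
    · refine ⟨⟨hn, ?_⟩, ?_⟩
      · have := hG.symm hT
        rw [hTe] at this
        exact this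
      · rw [hTe, ← Sg_swap]; rfl
  have hRfin : R.Finite := by
    refine finite_of_card_le (c := (2 + 1) ^ 2) fun T hT => ?_
    have hinj : InjOn (fun y : E2 => (y, (2 : ℝ) • y)) (T : Set E2) := fun a _ b _ hab =>
      congrArg Prod.fst hab
    have := hG.card_le (T.image (fun y => (y, (2 : ℝ) • y))) (by
      intro s hs
      simp only [Finset.coe_image, mem_image, Finset.mem_coe] at hs
      obtain ⟨y, hy, rfl⟩ := hs
      exact (hT hy).2) (by
      intro s hs t ht hst
      simp only [Finset.coe_image, mem_image, Finset.mem_coe] at hs ht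
      obtain ⟨y, hy, rfl⟩ := hs
      obtain ⟨z, hz, rfl⟩ := ht
      exact radial_disjoint (hT hy).1 (hT hz).1 (fun h => hst (by rw [h]))) (c := 0) (R := 2)
      (by norm_num) (by
      intro s hs
      simp only [Finset.mem_image] at hs
      obtain ⟨y, hy, rfl⟩ := hs
      have hb := convex_closedBall (0 : E2) 2
      refine hb.segment_subset ?_ ?_
      · rw [mem_closedBall_zero_iff, (hT hy).1]; norm_num
      · rw [mem_closedBall_zero_iff, norm_smul, (hT hy).1]; norm_num)
    rwa [Finset.card_image_of_injOn hinj] at this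
  -- the area near two members through the origin
  have harea : ∀ V : Set E2, V ⊆ Metric.closedBall 0 1 → volume (UU (Meet G V)) ≤ ENNReal.ofReal π := by
    intro V hV
    have hsub : UU (Meet G V) ⊆ Metric.closedBall 0 1 ∪ ⋃ y ∈ R, Sg (y, (2 : ℝ) • y) := by
      intro x hx
      obtain ⟨T, ⟨hT, y, hy, hyV⟩, hxT⟩ := mem_UU.mp hx
      by_cases h0 : (0 : E2) ∈ Sg T
      · left
        have := dist_le_of_mem_Sg hxT h0
        rwa [hG.unit1 T hT] at this
      · right
        have hy1 : ‖y‖ ≤ 1 := by simpa using hV hyV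
        obtain ⟨hyR, hTe⟩ := hrad T hT h0 y hy hy1
        rw [hTe] at hxT
        exact mem_iUnion₂.mpr ⟨y, hyR, hxT⟩
    refine (measure_mono hsub).trans ((measure_union_le _ _).trans ?_)
    have h0 : volume (⋃ y ∈ R, Sg (y, (2 : ℝ) • y)) = 0 :=
      (measure_biUnion_null_iff hRfin.countable).mpr fun y _ => volume_Sg _
    rw [h0, add_zero, volume_closedBall_E2 0 (by norm_num)]
    simp
  -- members meeting the small ball
  set Gm : ∀ m, Finset (Fin (F.n m)) := fun m =>
    (F.J m).filter (fun i => (F.K m i ∩ Metric.closedBall 0 (1 / 4)).Nonempty) with hGm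
  -- a choice function
  have hGlim : ∀ i : ∀ m, Fin (F.n m), (∀ᶠ m in (UF : Filter ℕ), i m ∈ Gm m) →
      ∃ s ∈ G, F.Conv i s ∧ (0 : E2) ∈ Sg s := by
    intro i hi
    have hch : ∀ m, ∃ x, i m ∈ Gm m → x ∈ F.K m (i m) ∧ x ∈ Metric.closedBall (0 : E2) (1 / 4) := by
      intro m
      by_cases h : i m ∈ Gm m
      · obtain ⟨x, hx⟩ := (Finset.mem_filter.mp h).2
        exact ⟨x, fun _ => hx⟩
      · exact ⟨0, fun h' => absurd h' h⟩
    choose x hx using hch
    obtain ⟨s, hs, hc⟩ := F.conv_of_bounded hG.1 i (1 / 4) (by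
      filter_upwards [hi] with m hm
      exact ⟨(Finset.mem_filter.mp hm).1, x m, (hx m hm).1, (hx m hm).2⟩)
    obtain ⟨x', hx', hxl⟩ := hc.tendsto (x := x) (by filter_upwards [hi] with m hm using (hx m hm).1)
    have hx'n : x' ∈ Metric.closedBall (0 : E2) (1 / 4) :=
      Metric.isClosed_closedBall.mem_of_tendsto hxl (by filter_upwards [hi] with m hm using (hx m hm).2)
    rw [mem_closedBall_zero_iff] at hx'n
    refine ⟨s, hs, hc, ?_⟩
    by_contra h0
    have := (hrad s hs h0 x' hx' (by linarith)).1.1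
    linarith
  -- eventually the members meeting the small ball meet pairwise
  have hpair : ∀ᶠ m in (UF : Filter ℕ), ∀ i ∈ Gm m, ∀ j ∈ Gm m, (F.K m i ∩ F.K m j).Nonempty := by
    by_contra hc
    rw [← Ultrafilter.eventually_not] at hc
    have hch : ∀ m, ∃ (i j : Fin (F.n m)), (¬ ∀ i ∈ Gm m, ∀ j ∈ Gm m, (F.K m i ∩ F.K m j).Nonempty) →
        i ∈ Gm m ∧ j ∈ Gm m ∧ Disjoint (F.K m i) (F.K m j) := by
      intro m
      by_cases h : ∀ i ∈ Gm m, ∀ j ∈ Gm m, (F.K m i ∩ F.K m j).Nonempty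
      · obtain ⟨i, -⟩ := (F.ce m).nonempty
        exact ⟨i, i, fun h' => absurd h h'⟩
      · push Not at h
        obtain ⟨i, hi, j, hj, hij⟩ := h
        exact ⟨i, j, fun _ => ⟨hi, hj, Set.disjoint_iff_inter_eq_empty.mpr hij⟩⟩
    choose i j hij using hch
    have hi : ∀ᶠ m in (UF : Filter ℕ), i m ∈ Gm m := by
      filter_upwards [hc] with m hm using (hij m hm).1
    have hj : ∀ᶠ m in (UF : Filter ℕ), j m ∈ Gm m := by
      filter_upwards [hc] with m hm using (hij m hm).2.1
    obtain ⟨s, hs, his, h0s⟩ := hGlim i hi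
    obtain ⟨t, ht, hjt, h0t⟩ := hGlim j hj
    have hQ := F.Qlim hG (Finset.univ : Finset (Fin 2)) ⟨0, Finset.mem_univ _⟩
      (fun a => if a = 0 then i else j) (fun a => if a = 0 then s else t)
      (by intro a _; fin_cases a <;> simp [his, hjt])
      (by
        filter_upwards [hi, hj] with m h1 h2 a _
        fin_cases a
        · exact (Finset.mem_filter.mp h1).1
        · exact (Finset.mem_filter.mp h2).1)
      (by
        filter_upwards [hc] with m hm a _ b _ hab
        have := (hij m hm).2.2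
        fin_cases a <;> fin_cases b
        · exact absurd rfl hab
        · exact this
        · exact this.symm
        · exact absurd rfl hab)
    have hle := hQ.trans (harea _ (by
      refine iUnion₂_subset fun a _ => ?_
      intro x hx
      split_ifs at hx with ha
      · have := dist_le_of_mem_Sg hx h0s
        rwa [hG.unit1 s hs] at this
      · have := dist_le_of_mem_Sg hx h0t
        rwa [hG.unit1 t ht] at this))
    rw [ENNReal.ofReal_le_ofReal_iff pi_pos.le, Finset.card_univ, Fintype.card_fin] at hle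
    push_cast at hle
    linarith [pi_pos]
  -- a direction avoiding the radial members
  obtain ⟨u, hu, huR⟩ := (infinite_sphere.sdiff hRfin).nonempty
  rw [mem_sphere_zero_iff_norm] at hu
  obtain ⟨i, hi, hiu⟩ := F.conv_of_mem (h2 u hu)
  have hiG : ∀ᶠ m in (UF : Filter ℕ), i m ∈ Gm m := by
    filter_upwards [hi, hiu.approx hi (left_mem_Sg _) (show (0 : ℝ) < 1 / 4 by norm_num)] with m hm1 hm2
    obtain ⟨y, hy, hyd⟩ := hm2
    exact Finset.mem_filter.mpr ⟨hm1, y, hy, Metric.mem_closedBall.mpr hyd.le⟩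
  have hsep : ∀ᶠ m in (UF : Filter ℕ), ∀ j ∈ F.J m \ Gm m, Disjoint (F.K m j) (F.K m (i m)) := by
    by_contra hc
    rw [← Ultrafilter.eventually_not] at hc
    have hch : ∀ m, ∃ (j : Fin (F.n m)) (z : E2), (¬ ∀ j ∈ F.J m \ Gm m, Disjoint (F.K m j) (F.K m (i m))) →
        j ∈ F.J m \ Gm m ∧ z ∈ F.K m j ∧ z ∈ F.K m (i m) := by
      intro m
      by_cases h : ∀ j ∈ F.J m \ Gm m, Disjoint (F.K m j) (F.K m (i m))
      · exact ⟨i m, 0, fun h' => absurd h h'⟩
      · push Not at h
        obtain ⟨j, hj, hd⟩ := h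
        rw [Set.not_disjoint_iff] at hd
        obtain ⟨z, hz⟩ := hd
        exact ⟨j, z, fun _ => ⟨hj, hz⟩⟩
    choose j z hjz using hch
    have h3 : ∀ᶠ m in (UF : Filter ℕ), j m ∈ F.J m \ Gm m ∧ z m ∈ F.K m (j m) ∧ z m ∈ F.K m (i m) := by
      filter_upwards [hc] with m hm using hjz m hm
    have hjJ : ∀ᶠ m in (UF : Filter ℕ), j m ∈ F.J m := by
      filter_upwards [h3] with m hm using (Finset.mem_sdiff.mp hm.1).1
    obtain ⟨z', hz', hzl⟩ := hiu.tendsto (h3.mono fun m hm => hm.2.2)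
    have h4 : ∀ᶠ m in (UF : Filter ℕ), dist (z m) z' < 1 := hzl.eventually (Metric.ball_mem_nhds z' one_pos)
    obtain ⟨T, hT, hjT⟩ := F.conv_of_bounded hG.1 j (dist z' 0 + 1) (by
      filter_upwards [h3, h4, hjJ] with m hm hm2 hm3
      exact ⟨hm3, z m, hm.2.1, by linarith [dist_triangle (z m) z' 0]⟩)
    have hzT : z' ∈ Sg T := hjT.limit (h3.mono fun m hm => hm.2.1) hzl
    have h0T : (0 : E2) ∉ Sg T := by
      intro h0
      obtain ⟨m, hm1, hm2, hm3⟩ := (h3.and (hjJ.and (hjT.approx hjJ h0 (show (0 : ℝ) < 1 / 4 by norm_num)))).exists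
      obtain ⟨y, hy, hyd⟩ := hm3
      exact (Finset.mem_sdiff.mp hm1.1).2 (Finset.mem_filter.mpr ⟨hm2, y, hy, Metric.mem_closedBall.mpr hyd.le⟩)
    have hz'1 : ‖z'‖ ≤ 1 := by
      have := dist_le_of_mem_Sg hz' (left_mem_Sg _)
      simp only [dist_zero_right, dist_zero_left, hu] at this
      exact this
    obtain ⟨hzR, -⟩ := hrad T hT h0T z' hzT hz'1
    have hz'u : z' = u := by
      have h5 := mem_Sg_iff.mp hz'
      simp only [dist_zero_left, hu, hzR.1] at h5
      exact dist_eq_zero.mp (by linarith)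
    rw [hz'u] at hzR
    exact huR hzR
  obtain ⟨m, hm1, hm2, hm3, hm4⟩ := (hpair.and (hiG.and (hsep.and hi))).exists
  -- conclusion at the finite level
  have hce := F.ce m
  have hnu : nu (F.K m) (F.J m \ Gm m) + 1 ≤ nu (F.K m) (F.J m) := by
    obtain ⟨S, hS, hSi, hc⟩ := exists_nu (F.K m) (F.J m \ Gm m)
    have hnot : i m ∉ S := fun h => (Finset.mem_sdiff.mp (hS h)).2 hm2
    rw [← hc, ← Finset.card_insert_of_notMem hnot]
    refine card_le_nu ?_ ?_
    · intro j hj
      rcases Finset.mem_insert.mp hj with rfl | hj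
      · exact hm4
      · exact (Finset.mem_sdiff.mp (hS hj)).1
    · intro a ha b hb hab
      rw [Finset.coe_insert] at ha hb
      rcases ha with ha | ha <;> rcases hb with hb | hb
      · exact absurd (ha.trans hb.symm) hab
      · rw [ha]
        exact ((hm3 b (hS hb)).mono interior_subset interior_subset).symm
      · rw [hb]
        exact (hm3 a (hS ha)).mono interior_subset interior_subset
      · exact hSi ha hb hab
  have hv1 : volume (⋃ j ∈ Gm m, F.K m j) ≤ ENNReal.ofReal π := by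
    have hcomp : IsCompact (⋃ j ∈ Gm m, F.K m j) :=
      (Gm m).isCompact_biUnion fun j hj => (hce.thin j (Finset.mem_filter.mp hj).1).2.1
    have := isodiametric hcomp (D := 2) (by
      intro p hp q hq
      simp only [mem_iUnion] at hp hq
      obtain ⟨a, ha, hp⟩ := hp
      obtain ⟨b, hb, hq⟩ := hq
      obtain ⟨z, hz1, hz2⟩ := hm1 a ha b hb
      obtain ⟨-, c1, -, d1, -⟩ := hce.thin a (Finset.mem_filter.mp ha).1
      obtain ⟨-, c2, -, d2, -⟩ := hce.thin b (Finset.mem_filter.mp hb).1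
      have e1 := Metric.dist_le_diam_of_mem c1.isBounded hp hz1
      have e2 := Metric.dist_le_diam_of_mem c2.isBounded hz2 hq
      rw [d1] at e1
      rw [d2] at e2
      linarith [dist_triangle p z q])
    refine this.trans (ENNReal.ofReal_le_ofReal ?_)
    linarith
  have hv2 := hce.min (F.J m \ Gm m) Finset.sdiff_subset (by omega)
  have hcov : (⋃ j ∈ F.J m, F.K m j) ⊆ (⋃ j ∈ Gm m, F.K m j) ∪ ⋃ j ∈ F.J m \ Gm m, F.K m j := by
    intro x hx
    simp only [mem_iUnion] at hx
    obtain ⟨j, hj, hx⟩ := hx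
    by_cases hjG : j ∈ Gm m
    · left
      exact mem_iUnion₂.mpr ⟨j, hjG, hx⟩
    · right
      exact mem_iUnion₂.mpr ⟨j, Finset.mem_sdiff.mpr ⟨hj, hjG⟩, hx⟩
  have hfinal : volume (⋃ j ∈ F.J m, F.K m j) ≤ ENNReal.ofReal (π * nu (F.K m) (F.J m)) := by
    calc _ ≤ _ := measure_mono hcov
      _ ≤ _ := measure_union_le _ _
      _ ≤ ENNReal.ofReal π + ENNReal.ofReal (π * nu (F.K m) (F.J m \ Gm m)) := add_le_add hv1 hv2
      _ = ENNReal.ofReal (π + π * nu (F.K m) (F.J m \ Gm m)) := by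
          rw [ENNReal.ofReal_add pi_pos.le (by positivity)]
      _ ≤ _ := by
          refine ENNReal.ofReal_le_ofReal ?_
          have : (nu (F.K m) (F.J m \ Gm m) : ℝ) + 1 ≤ nu (F.K m) (F.J m) := by exact_mod_cast hnu
          have := mul_le_mul_of_nonneg_left this pi_pos.le
          linarith
  exact absurd hce.big (not_lt.mpr hfinal)

end Pool.Agent.Helper11_Exact
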