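import Mathlib
import Pool.Agent.Helper11_Exact.Seg

set_option autoImplicit false

open Set Filter Topology MeasureTheory Real
open Pool.Agent.Helper11_Thin

namespace Pool.Agent.Helper11_Exact

/-- The determinant of two vectors. -/
def dt (u v : E2) : ℝ := u 0 * v 1 - u 1 * v 0

theorem dt_smul_self (a b : ℝ) (u : E2) : dt (a • u) (b • u) = 0 := by
  simp [dt]; ring

theorem dt_smul (a b : ℝ) (u v : E2) : dt (a • u) (b • v) = a * b * dt u v := by
  simp [dt]; ring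

/-- `P` is a locally finite set of centres in direction `u`. -/
structure Centres (G : Set (E2 × E2)) (u : E2) (P : Set E2) : Prop where
  meet : ∀ S ∈ G, ∃ p ∈ P, p ∈ Sg S
  plus : ∀ p ∈ P, (p, p + u) ∈ G
  minus : ∀ p ∈ P, (p, p - u) ∈ G
  fin : ∀ R : ℝ, (P ∩ Metric.closedBall 0 R).Finite

theorem mem_Sg_ray {p u x : E2} : x ∈ Sg (p, p + u) ↔ ∃ a : ℝ, 0 ≤ a ∧ a ≤ 1 ∧ x = p + a • u := by
  rw [Sg, segment_eq_image']
  constructor
  · rintro ⟨a, ⟨h0, h1⟩, rfl⟩
    exact ⟨a, h0, h1, by simp⟩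
  · rintro ⟨a, h0, h1, rfl⟩
    exact ⟨a, ⟨h0, h1⟩, by simp⟩

theorem star {G : Set (E2 × E2)} (hG : IsClosed G) (u : ℕ → E2) (hu1 : ∀ j, ‖u j‖ = 1)
    (hpar : ∀ i j, i ≠ j → dt (u i) (u j) ≠ 0) (P : ℕ → Set E2) (hP : ∀ j, Centres G (u j) (P j))
    (hdense : ∀ v : E2, ‖v‖ = 1 → ∀ r > 0, ∃ j, dist (u j) v < r ∨ dist (-(u j)) v < r) :
    ∀ S ∈ G, ∃ p ∈ Sg S, ∀ v : E2, ‖v‖ = 1 → (p, p + v) ∈ G := by
  intro S hS
  choose p hpP hpS using fun j => (hP j).meet S hS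
  set R : ℝ := ‖S.1‖ + dist S.1 S.2 with hR
  have hpR : ∀ j, ‖p j‖ ≤ R := by
    intro j
    have h1 := dist_le_of_mem_Sg (hpS j) (left_mem_Sg S)
    have h2 : ‖p j‖ ≤ dist (p j) S.1 + ‖S.1‖ := by
      rw [dist_eq_norm]
      calc ‖p j‖ = ‖(p j - S.1) + S.1‖ := by rw [sub_add_cancel]
        _ ≤ _ := norm_add_le _ _
    linarith
  -- step 1
  have hstep1 : {j | p j ∉ P 0}.Finite := by
    have hch : ∀ j, ∃ Q : E2 × E2, ∃ a b : ℝ, p j ∉ P 0 → Q.1 ∈ P 0 ∧ Q.2 ∈ P 0 ∧ 0 ≤ a ∧ a ≤ 1 ∧ 0 < a + b ∧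
        0 ≤ b ∧ b ≤ 1 ∧ Q.1 = p j + a • u j ∧ Q.2 = p j - b • u j := by
      intro j
      by_cases h : p j ∈ P 0
      · exact ⟨0, 0, 0, fun h' => absurd h h'⟩
      · obtain ⟨q1, hq1, hq1s⟩ := (hP 0).meet _ ((hP j).plus _ (hpP j))
        obtain ⟨q2, hq2, hq2s⟩ := (hP 0).meet _ ((hP j).minus _ (hpP j))
        obtain ⟨a, ha0, ha1, hqa⟩ := mem_Sg_ray.mp hq1s
        rw [sub_eq_add_neg] at hq2s
        obtain ⟨b, hb0, hb1, hqb⟩ := mem_Sg_ray.mp hq2s
        refine ⟨(q1, q2), a, b, fun _ => ⟨hq1, hq2, ha0, ha1, ?_, hb0, hb1, hqa, ?_⟩⟩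
        · rcases ha0.eq_or_lt with h0 | h0
          · exfalso; apply h
            rw [← h0, zero_smul, add_zero] at hqa
            rwa [← hqa]
          · linarith
        · rw [hqb]; simp [sub_eq_add_neg]
    choose Q a b hQ using hch
    set F := P 0 ∩ Metric.closedBall 0 (R + 1) with hF
    have hFf : F.Finite := (hP 0).fin _
    refine Set.Finite.of_injOn (f := Q) (t := F ×ˢ F) ?_ ?_ (hFf.prod hFf)
    · intro j hj
      obtain ⟨h1, h2, h3, h4, h5, h6, h7, h8, h9⟩ := hQ j hj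
      refine ⟨⟨h1, ?_⟩, ⟨h2, ?_⟩⟩
      · rw [mem_closedBall_zero_iff, h8]
        refine (norm_add_le _ _).trans (add_le_add (hpR j) ?_)
        rw [norm_smul, hu1, mul_one, Real.norm_of_nonneg h3]; exact h4
      · rw [mem_closedBall_zero_iff, h9]
        refine (norm_sub_le _ _).trans (add_le_add (hpR j) ?_)
        rw [norm_smul, hu1, mul_one, Real.norm_of_nonneg h6]; exact h7
    · intro i hi j hj hij
      by_contra hne
      obtain ⟨-, -, -, -, h5, -, -, h8, h9⟩ := hQ i hi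
      obtain ⟨-, -, -, -, k5, -, -, k8, k9⟩ := hQ j hj
      have e1 : (Q i).1 - (Q i).2 = (a i + b i) • u i := by rw [h8, h9]; module
      have e2 : (Q j).1 - (Q j).2 = (a j + b j) • u j := by rw [k8, k9]; module
      rw [hij, e2] at e1
      have e3 : dt ((a i + b i) • u i) ((a j + b j) • u j) = 0 := by
        rw [← e1]; have := dt_smul_self 1 1 ((a j + b j) • u j); simpa using this
      rw [dt_smul] at e3
      exact mul_ne_zero (mul_ne_zero h5.ne' k5.ne') (hpar i j hne) e3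
  have hinf : {j | p j ∈ P 0}.Infinite := by
    have : {j | p j ∈ P 0} = {j | p j ∉ P 0}ᶜ := by ext; simp
    rw [this]
    exact hstep1.infinite_compl
  -- step 2
  obtain ⟨q, hq⟩ : ∃ q, {j | p j = q}.Infinite := by
    by_contra hcon
    push Not at hcon
    apply hinf
    have hFf : (P 0 ∩ Metric.closedBall 0 R).Finite := (hP 0).fin _
    refine (hFf.biUnion fun q _ => hcon q).subset ?_
    intro j hj
    exact mem_iUnion₂.mpr ⟨p j, ⟨hj, mem_closedBall_zero_iff.mpr (hpR j)⟩, rfl⟩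
  have hqS : q ∈ Sg S := by
    obtain ⟨j, hj⟩ := hq.nonempty
    rw [← (hj : p j = q)]; exact hpS j
  have hqR : ‖q‖ ≤ R := by
    obtain ⟨j, hj⟩ := hq.nonempty
    rw [← (hj : p j = q)]; exact hpR j
  -- step 3
  have hall : ∀ i, q ∈ P i := by
    intro i
    by_contra hqi
    have hch : ∀ j, ∃ (Q : E2) (a : ℝ), p j = q → Q ∈ P i ∧ a ≠ 0 ∧ ‖Q‖ ≤ R + 1 ∧ Q = q + a • u j := by
      intro j
      by_cases h : p j = q
      · have h1 := (hP j).plus _ (hpP j)
        rw [h] at h1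
        obtain ⟨Q, hQ, hQs⟩ := (hP i).meet _ h1
        obtain ⟨a, ha0, ha1, hqa⟩ := mem_Sg_ray.mp hQs
        refine ⟨Q, a, fun _ => ⟨hQ, ?_, ?_, hqa⟩⟩
        · rintro rfl
          rw [zero_smul, add_zero] at hqa
          exact hqi (hqa ▸ hQ)
        · rw [hqa]
          refine (norm_add_le _ _).trans (add_le_add hqR ?_)
          rw [norm_smul, hu1, mul_one, Real.norm_of_nonneg ha0]; exact ha1
      · exact ⟨0, 0, fun h' => absurd h' h⟩
    choose Q a hQ using hch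
    apply hq
    refine Set.Finite.of_injOn (f := Q) (t := P i ∩ Metric.closedBall 0 (R + 1)) ?_ ?_ ((hP i).fin _)
    · intro j hj
      exact ⟨(hQ j hj).1, mem_closedBall_zero_iff.mpr (hQ j hj).2.2.1⟩
    · intro j hj k hk hjk
      by_contra hne
      obtain ⟨-, h1, -, h2⟩ := hQ j hj
      obtain ⟨-, k1, -, k2⟩ := hQ k hk
      have e1 : a j • u j = a k • u k := by
        rw [hjk, k2] at h2
        exact (add_left_cancel h2).symm
      have e2 : dt (a j • u j) (a k • u k) = 0 := by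
        rw [← e1]; exact dt_smul_self _ _ _
      rw [dt_smul] at e2
      exact mul_ne_zero (mul_ne_zero h1 k1) (hpar j k hne) e2
  refine ⟨q, hqS, fun v hv => ?_⟩
  rw [← hG.closure_eq, Metric.mem_closure_iff]
  intro r hr
  obtain ⟨j, hj | hj⟩ := hdense v hv r hr
  · refine ⟨(q, q + u j), (hP j).plus _ (hall j), ?_⟩
    rw [Prod.dist_eq, dist_self]
    refine max_lt hr ?_
    rw [dist_add_left, dist_comm]; exact hj
  · refine ⟨(q, q - u j), (hP j).minus _ (hall j), ?_⟩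
    rw [Prod.dist_eq, dist_self]
    refine max_lt hr ?_
    simp only [sub_eq_add_neg]
    rw [dist_add_left, dist_comm]; exact hj

end Pool.Agent.Helper11_Exact
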