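import Mathlib
import Pool.Agent.Helper11_Exact.Star
import Pool.Agent.Helper11_Exact.Growth
import Pool.Agent.Helper11_Exact.Peel

set_option autoImplicit false

open Set Filter Topology MeasureTheory Real
open scoped ENNReal
open Pool.Agent.Helper11_Thin

namespace Pool.Agent.Helper11_Exact

/-- The unit vector of slope `σ`. -/
noncomputable def dir (σ : ℝ) : E2 := (1 / √(1 + σ ^ 2)) • !₂[1, σ]

theorem norm_vec (σ : ℝ) : ‖(!₂[1, σ] : E2)‖ = √(1 + σ ^ 2) := by
  rw [EuclideanSpace.norm_eq, Fin.sum_univ_two]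
  simp

theorem sqrt_pos' (σ : ℝ) : 0 < √(1 + σ ^ 2) := Real.sqrt_pos.mpr (by positivity)

theorem norm_dir (σ : ℝ) : ‖dir σ‖ = 1 := by
  rw [dir, norm_smul, norm_vec, Real.norm_of_nonneg (by positivity), one_div, inv_mul_cancel₀ (sqrt_pos' σ).ne']

theorem dt_dir (w : E2) (σ : ℝ) : dt w (dir σ) = (1 / √(1 + σ ^ 2)) * (w 0 * σ - w 1) := by
  simp [dt, dir]; ring

theorem dt_dir_ne {σ τ : ℝ} (h : σ ≠ τ) : dt (dir σ) (dir τ) ≠ 0 := by
  rw [dt_dir]
  have h1 := sqrt_pos' σ
  have h2 := sqrt_pos' τ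
  refine mul_ne_zero (by positivity) ?_
  have : (dir σ) 0 * τ - (dir σ) 1 = (1 / √(1 + σ ^ 2)) * (τ - σ) := by
    simp [dir]; ring
  rw [this]
  exact mul_ne_zero (by positivity) (sub_ne_zero.mpr h.symm)

/-- A direction not parallel to any of finitely many nonzero vectors. -/
theorem exists_generic (T : Finset E2) : ∃ σ : ℝ, ∀ w ∈ T, w ≠ 0 → dt w (dir σ) ≠ 0 := by
  classical
  have hfin : (⋃ w ∈ T, {σ : ℝ | w ≠ 0 ∧ dt w (dir σ) = 0}).Finite := by
    refine T.finite_toSet.biUnion fun w _ => ?_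
    by_cases h0 : w 0 = 0
    · refine Set.Finite.subset Set.finite_empty ?_
      rintro σ ⟨hw, h⟩
      rw [dt_dir, h0] at h
      have h1 := sqrt_pos' σ
      have h2 : w 1 = 0 := by
        rcases mul_eq_zero.mp h with h | h
        · have : 0 < 1 / √(1 + σ ^ 2) := by positivity
          linarith
        · linarith
      apply hw
      ext i
      fin_cases i
      · exact h0
      · exact h2
    · refine Set.Finite.subset (Set.finite_singleton (w 1 / w 0)) ?_
      rintro σ ⟨hw, h⟩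
      rw [dt_dir] at h
      have h1 := sqrt_pos' σ
      rcases mul_eq_zero.mp h with h | h
      · have : 0 < 1 / √(1 + σ ^ 2) := by positivity
        linarith
      · rw [mem_singleton_iff, eq_div_iff h0]; linarith
  obtain ⟨σ, hσ⟩ := hfin.infinite_compl.nonempty
  refine ⟨σ, fun w hw hw0 h => hσ ?_⟩
  exact mem_iUnion₂.mpr ⟨w, hw, hw0, h⟩

theorem disjoint_of_dt {p q v : E2} (h : dt (p - q) v ≠ 0) : Disjoint (Sg (p, p + v)) (Sg (q, q + v)) := by
  rw [Set.disjoint_left]
  intro x hx hx'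
  obtain ⟨a, -, -, ha⟩ := mem_Sg_ray.mp hx
  obtain ⟨b, -, -, hb⟩ := mem_Sg_ray.mp hx'
  apply h
  have e1 : p - q = (b - a) • v := by
    have : p + a • v = q + b • v := by rw [← ha, ← hb]
    have h2 : p = q + b • v - a • v := by rw [← this]; abel
    rw [h2]; module
  rw [e1]
  have := dt_smul_self (b - a) 1 v
  simpa using this

/-- All unit segments starting at `p` belong to the family. -/
def StarPt (G : Set (E2 × E2)) (p : E2) : Prop := ∀ v : E2, ‖v‖ = 1 → (p, p + v) ∈ G

theorem star_area {G : Set (E2 × E2)} (hG : Cls G) (T : Finset E2) (hT : ∀ p ∈ T, StarPt G p) {c : E2} {R : ℝ}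
    (hTR : ∀ p ∈ T, dist p c ≤ R) :
    ENNReal.ofReal (π * T.card) ≤ volume (UU (Meet G (Metric.closedBall c (R + 1)))) := by
  classical
  obtain ⟨σ, hσ⟩ := exists_generic ((T ×ˢ T).image (fun z => z.1 - z.2))
  have hinj : InjOn (fun p : E2 => (p, p + dir σ)) (T : Set E2) := fun a _ b _ h => congrArg Prod.fst h
  have h1 := hG.Q (T.image (fun p => (p, p + dir σ))) (by
    intro s hs
    simp only [Finset.coe_image, mem_image, Finset.mem_coe] at hs
    obtain ⟨p, hp, rfl⟩ := hs
    exact hT p hp _ (norm_dir σ)) (by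
    intro s hs t ht hst
    simp only [Finset.coe_image, mem_image, Finset.mem_coe] at hs ht
    obtain ⟨p, hp, rfl⟩ := hs
    obtain ⟨q, hq, rfl⟩ := ht
    refine disjoint_of_dt (hσ _ ?_ ?_)
    · exact Finset.mem_image.mpr ⟨(p, q), Finset.mem_product.mpr ⟨hp, hq⟩, rfl⟩
    · exact sub_ne_zero.mpr fun h => hst (by rw [h]))
  rw [Finset.card_image_of_injOn hinj] at h1
  refine h1.trans (measure_mono ?_)
  intro x hx
  obtain ⟨s, ⟨hs, y, hy, hyV⟩, hx⟩ := mem_UU.mp hx
  refine mem_UU.mpr ⟨s, ⟨hs, y, hy, ?_⟩, hx⟩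
  obtain ⟨t, ht, hyt⟩ := mem_iUnion₂.mp hyV
  obtain ⟨p, hp, rfl⟩ := Finset.mem_image.mp ht
  have h2 := dist_le_of_mem_Sg hyt (left_mem_Sg _)
  simp only [dist_self_add_right, norm_dir] at h2
  exact Metric.mem_closedBall.mpr (by linarith [dist_triangle y p c, hTR p hp])

theorem star_card {G : Set (E2 × E2)} (hG : Cls G) (T : Finset E2) (hT : ∀ p ∈ T, StarPt G p) {c : E2} {R : ℝ}
    (hR : 0 ≤ R) (hTR : ∀ p ∈ T, dist p c ≤ R) : (T.card : ℝ) ≤ (R + 2) ^ 2 := by
  have h1 := (star_area hG T hT hTR).trans (measure_mono (UU_Meet_subset hG.unit1 Subset.rfl))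
  rw [volume_closedBall_E2 c (by linarith), ENNReal.ofReal_le_ofReal_iff (by positivity)] at h1
  have h2 := le_of_mul_le_mul_left h1 pi_pos
  linarith

/-- A maximal separated subset. -/
theorem exists_separated {α : Type*} [PseudoMetricSpace α] (A : Finset α) (r : ℝ) :
    ∃ Z ⊆ A, (Z : Set α).Pairwise (fun a b => r ≤ dist a b) ∧ ∀ a ∈ A, 0 < r → ∃ z ∈ Z, dist a z < r := by
  classical
  have hne : (A.powerset.filter (fun Z : Finset α => (Z : Set α).Pairwise (fun a b => r ≤ dist a b))).Nonempty :=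
    ⟨∅, Finset.mem_filter.mpr ⟨Finset.empty_mem_powerset _, by simp⟩⟩
  obtain ⟨Z, hZ, hmax⟩ := Finset.exists_max_image _ Finset.card hne
  rw [Finset.mem_filter, Finset.mem_powerset] at hZ
  refine ⟨Z, hZ.1, hZ.2, fun a ha hr => ?_⟩
  by_contra hcon
  push Not at hcon
  have haZ : a ∉ Z := fun h => by
    have := hcon a h
    rw [dist_self] at this
    linarith
  have h1 := hmax (insert a Z) (by
    rw [Finset.mem_filter, Finset.mem_powerset]
    refine ⟨Finset.insert_subset ha hZ.1, ?_⟩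
    rw [Finset.coe_insert]
    intro x hx y hy hxy
    rcases hx with hx | hx <;> rcases hy with hy | hy
    · exact absurd (hx.trans hy.symm) hxy
    · rw [hx]; exact hcon y hy
    · rw [hy, dist_comm]; exact hcon x hx
    · exact hZ.2 hx hy hxy)
  rw [Finset.card_insert_of_notMem haZ] at h1
  omega

/-- Some centre of a full star is isolated. -/
theorem isolated {G : Set (E2 × E2)} (hG : Cls G) (hne : G.Nonempty)
    (hst : ∀ S ∈ G, ∃ p ∈ Sg S, StarPt G p) (l : ℝ) (hl : 1 ≤ l) :
    ∃ p, StarPt G p ∧ ∀ q, StarPt G q → q ≠ p → 2 - 1 / l ≤ dist p q := by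
  classical
  by_contra hcon
  push Not at hcon
  obtain ⟨S, hS⟩ := hne
  obtain ⟨c, -, hc⟩ := hst S hS
  have hfin : ∀ R : ℝ, {p | StarPt G p ∧ dist p c ≤ R}.Finite := by
    intro R
    refine finite_of_card_le (c := (|R| + 2) ^ 2) fun T hT => ?_
    exact star_card hG T (fun p hp => (hT hp).1) (c := c) (abs_nonneg R)
      (fun p hp => (hT hp).2.trans (le_abs_self R))
  choose A hA using fun R : ℝ => (hfin R).exists_finset_coe
  have hAm : ∀ R p, p ∈ A R ↔ StarPt G p ∧ dist p c ≤ R := by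
    intro R p
    rw [← Finset.mem_coe, hA R]; rfl
  have hkey : ∀ R : ℝ, 0 ≤ R → (1 + 1 / (100 * l ^ 2)) * (A R).card ≤ (A (R + 2)).card := by
    intro R hR
    obtain ⟨Z, hZA, hZs, hZc⟩ := exists_separated (A R) 3
    -- number of separated points
    have hZn : ((A R).card : ℝ) ≤ 25 * Z.card := by
      have h1 : A R ⊆ Z.biUnion (fun z => (A R).filter (fun p => dist p z ≤ 3)) := by
        intro p hp
        obtain ⟨z, hz, hpz⟩ := hZc p hp (by norm_num)
        exact Finset.mem_biUnion.mpr ⟨z, hz, Finset.mem_filter.mpr ⟨hp, hpz.le⟩⟩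
      have h2 : (A R).card ≤ ∑ z ∈ Z, ((A R).filter (fun p => dist p z ≤ 3)).card :=
        (Finset.card_le_card h1).trans Finset.card_biUnion_le
      have h3 : ∀ z ∈ Z, (((A R).filter (fun p => dist p z ≤ 3)).card : ℝ) ≤ 25 := by
        intro z _
        have := star_card hG ((A R).filter (fun p => dist p z ≤ 3))
          (fun p hp => ((hAm R p).mp (Finset.mem_filter.mp hp).1).1) (c := z) (R := 3) (by norm_num)
          (fun p hp => (Finset.mem_filter.mp hp).2)
        linarith
      calc ((A R).card : ℝ) ≤ ((∑ z ∈ Z, ((A R).filter (fun p => dist p z ≤ 3)).card : ℕ) : ℝ) := by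
            exact_mod_cast h2
        _ = ∑ z ∈ Z, (((A R).filter (fun p => dist p z ≤ 3)).card : ℝ) := by push_cast; rfl
        _ ≤ ∑ z ∈ Z, (25 : ℝ) := Finset.sum_le_sum h3
        _ = 25 * Z.card := by rw [Finset.sum_const, nsmul_eq_mul]; ring
    -- partners
    have hpart : ∀ z : E2, ∃ q, z ∈ Z → StarPt G q ∧ q ≠ z ∧ dist z q < 2 - 1 / l := by
      intro z
      by_cases hz : z ∈ Z
      · obtain ⟨q, h1, h2, h3⟩ := hcon z ((hAm R z).mp (hZA hz)).1
        exact ⟨q, fun _ => ⟨h1, h2, h3⟩⟩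
      · exact ⟨0, fun h => absurd h hz⟩
    choose q hq using hpart
    have hl0 : 0 < l := by linarith
    set Dz : E2 → Set E2 := fun z => Metric.closedBall ((1 / 2 : ℝ) • (z + q z)) (1 / (2 * l)) with hDz
    have hmid1 : ∀ z, dist ((1 / 2 : ℝ) • (z + q z)) z = dist z (q z) / 2 := by
      intro z
      rw [dist_eq_norm, show (1 / 2 : ℝ) • (z + q z) - z = (1 / 2 : ℝ) • (q z - z) by module, norm_smul,
        ← dist_eq_norm, dist_comm (q z)]
      norm_num
      ring
    have hmid2 : ∀ z, dist ((1 / 2 : ℝ) • (z + q z)) (q z) = dist z (q z) / 2 := by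
      intro z
      rw [dist_eq_norm, show (1 / 2 : ℝ) • (z + q z) - q z = (1 / 2 : ℝ) • (z - q z) by module, norm_smul,
        ← dist_eq_norm]
      norm_num
      ring
    have hD1 : ∀ z ∈ Z, Dz z ⊆ Metric.closedBall z 1 := by
      intro z hz x hx
      have h1 := (hq z hz).2.2
      have h2 : dist x ((1 / 2 : ℝ) • (z + q z)) ≤ 1 / (2 * l) := hx
      have h3 : 1 / (2 * l) = 1 / l / 2 := by field_simp
      rw [Metric.mem_closedBall]
      linarith [dist_triangle x ((1 / 2 : ℝ) • (z + q z)) z, hmid1 z]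
    have hD2 : ∀ z ∈ Z, Dz z ⊆ Metric.closedBall (q z) 1 := by
      intro z hz x hx
      have h1 := (hq z hz).2.2
      have h2 : dist x ((1 / 2 : ℝ) • (z + q z)) ≤ 1 / (2 * l) := hx
      have h3 : 1 / (2 * l) = 1 / l / 2 := by field_simp
      rw [Metric.mem_closedBall]
      linarith [dist_triangle x ((1 / 2 : ℝ) • (z + q z)) (q z), hmid2 z]
    have hqZ : ∀ z ∈ Z, q z ∉ Z := by
      intro z hz hqz
      have h1 := hZs hz hqz (hq z hz).2.1.symm
      have h2 := (hq z hz).2.2
      have h3 : 0 < 1 / l := by positivity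
      simp only at h1
      linarith
    have hZA2 : Z ⊆ A (R + 2) := by
      intro z hz
      have := (hAm R z).mp (hZA hz)
      exact (hAm _ z).mpr ⟨this.1, by linarith [this.2]⟩
    have hcov : UU (Meet G (Metric.closedBall c (R + 1))) ⊆
        (⋃ z ∈ Z, Metric.closedBall z 1 \ Dz z) ∪ ⋃ p ∈ A (R + 2) \ Z, Metric.closedBall p 1 := by
      intro x hx
      obtain ⟨s, ⟨hs, y, hy, hyV⟩, hx⟩ := mem_UU.mp hx
      obtain ⟨p, hp, hpst⟩ := hst s hs
      have h1 := dist_le_of_mem_Sg hx hp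
      have h2 := dist_le_of_mem_Sg hp hy
      rw [hG.unit1 s hs] at h1 h2
      have h3 : dist y c ≤ R + 1 := hyV
      have hpA : p ∈ A (R + 2) := (hAm _ p).mpr ⟨hpst, by linarith [dist_triangle p y c]⟩
      by_cases hpZ : p ∈ Z
      · by_cases hxD : x ∈ Dz p
        · right
          have hpR := (hAm R p).mp (hZA hpZ)
          have hqp := hq p hpZ
          have h4 : 0 < 1 / l := by positivity
          refine mem_iUnion₂.mpr ⟨q p, Finset.mem_sdiff.mpr ⟨(hAm _ _).mpr ⟨hqp.1, ?_⟩, hqZ p hpZ⟩, hD2 p hpZ hxD⟩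
          have := dist_triangle (q p) p c
          rw [dist_comm (q p) p] at this
          linarith [hpR.2, hqp.2.2]
        · left
          exact mem_iUnion₂.mpr ⟨p, hpZ, h1, hxD⟩
      · right
        exact mem_iUnion₂.mpr ⟨p, Finset.mem_sdiff.mpr ⟨hpA, hpZ⟩, h1⟩
    have hDv : ∀ z, volume (Dz z) = ENNReal.ofReal (π * (1 / (2 * l)) ^ 2) := fun z =>
      volume_closedBall_E2 _ (by positivity)
    have hδ : π * (1 / (2 * l)) ^ 2 ≤ π := by
      have h1 : 1 / (2 * l) ≤ 1 := by rw [div_le_one (by positivity)]; linarith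
      have h2 : 0 ≤ 1 / (2 * l) := by positivity
      have h3 : (1 / (2 * l)) ^ 2 ≤ 1 := by nlinarith
      nlinarith [pi_pos]
    have hv : volume (UU (Meet G (Metric.closedBall c (R + 1)))) ≤
        ENNReal.ofReal (Z.card * (π - π * (1 / (2 * l)) ^ 2) + ((A (R + 2)).card - Z.card) * π) := by
      refine (measure_mono hcov).trans ((measure_union_le _ _).trans ?_)
      have e1 : volume (⋃ z ∈ Z, Metric.closedBall z 1 \ Dz z) ≤
          ENNReal.ofReal (Z.card * (π - π * (1 / (2 * l)) ^ 2)) := by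
        refine (measure_biUnion_finset_le _ _).trans ?_
        have : ∀ z ∈ Z, volume (Metric.closedBall z 1 \ Dz z) = ENNReal.ofReal (π - π * (1 / (2 * l)) ^ 2) := by
          intro z hz
          rw [measure_sdiff (hD1 z hz) Metric.isClosed_closedBall.measurableSet.nullMeasurableSet
            (by rw [hDv]; exact ENNReal.ofReal_ne_top), hDv, volume_closedBall_E2 _ zero_le_one,
            ENNReal.ofReal_sub _ (by positivity)]
          norm_num
        rw [Finset.sum_congr rfl this, Finset.sum_const, nsmul_eq_mul,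
          ENNReal.ofReal_mul (by positivity), ENNReal.ofReal_natCast]
      have e2 : volume (⋃ p ∈ A (R + 2) \ Z, Metric.closedBall p 1) ≤
          ENNReal.ofReal (((A (R + 2)).card - Z.card) * π) := by
        refine (measure_biUnion_finset_le _ _).trans ?_
        have : ∀ p ∈ A (R + 2) \ Z, volume (Metric.closedBall p 1) = ENNReal.ofReal π := by
          intro p _
          rw [volume_closedBall_E2 _ zero_le_one]; norm_num
        rw [Finset.sum_congr rfl this, Finset.sum_const, nsmul_eq_mul, Finset.card_sdiff_of_subset hZA2,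
          ENNReal.ofReal_mul (sub_nonneg.mpr (by exact_mod_cast Finset.card_le_card hZA2)),
          ENNReal.ofReal_sub _ (by positivity), ENNReal.ofReal_natCast, ENNReal.ofReal_natCast]
        push_cast
        rfl
      refine (add_le_add e1 e2).trans ?_
      rw [← ENNReal.ofReal_add]
      · exact mul_nonneg (by positivity) (by linarith)
      · exact mul_nonneg (sub_nonneg.mpr (by exact_mod_cast Finset.card_le_card hZA2)) pi_pos.le
    have hmain := (star_area hG (A R) (fun p hp => ((hAm R p).mp hp).1) (c := c) (R := R)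
      (fun p hp => ((hAm R p).mp hp).2)).trans hv
    rw [ENNReal.ofReal_le_ofReal_iff (add_nonneg (mul_nonneg (by positivity) (by linarith))
      (mul_nonneg (sub_nonneg.mpr (by exact_mod_cast Finset.card_le_card hZA2)) pi_pos.le))] at hmain
    have h5 : Z.card * (π - π * (1 / (2 * l)) ^ 2) + ((A (R + 2)).card - Z.card) * π =
        π * ((A (R + 2)).card - Z.card * (1 / (2 * l)) ^ 2) := by ring
    rw [h5] at hmain
    have h6 := le_of_mul_le_mul_left hmain pi_pos
    have h7 : (1 / (2 * l)) ^ 2 = 25 * (1 / (100 * l ^ 2)) := by field_simp; norm_num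
    rw [h7] at h6
    have h8 : ((A R).card : ℝ) * (1 / (100 * l ^ 2)) ≤ 25 * Z.card * (1 / (100 * l ^ 2)) := by
      have : 0 ≤ 1 / (100 * l ^ 2) := by positivity
      gcongr
    linarith
  refine growth (ε := 1 / (100 * l ^ 2)) (c := 1) (C := 4) (by positivity) one_pos
    (fun j => ((A (2 * j)).card : ℝ)) ?_ ?_ ?_
  · intro j
    have := hkey (2 * j) (by positivity)
    have e : (2 * (j : ℝ) + 2) = 2 * ((j + 1 : ℕ) : ℝ) := by push_cast; ring
    rw [e] at this
    exact this
  · have : 0 < (A (2 * ((0 : ℕ) : ℝ))).card := Finset.card_pos.mpr ⟨c, (hAm _ c).mpr ⟨hc, by simp⟩⟩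
    have h2 : 1 ≤ (A (2 * ((0 : ℕ) : ℝ))).card := this
    exact_mod_cast h2
  · intro j
    have := star_card hG (A (2 * j)) (fun p hp => ((hAm _ p).mp hp).1) (c := c) (R := 2 * j) (by positivity)
      (fun p hp => ((hAm _ p).mp hp).2)
    refine this.trans (le_of_eq ?_)
    ring

end Pool.Agent.Helper11_Exact
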