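import Mathlib
import Pool.Agent.Helper11_Exact.Isolated

set_option autoImplicit false

open Set Filter Topology MeasureTheory Real
open scoped ENNReal
open Pool.Agent.Helper11_Thin

namespace Pool.Agent.Helper11_Exact

/-- Points of converging segments converge along the ultrafilter. -/
theorem exists_limit_Sg {σ : ℕ → E2 × E2} {s : E2 × E2} (hσ : Tendsto σ UF (𝓝 s)) {y : ℕ → E2}
    (hy : ∀ᶠ m in (UF : Filter ℕ), y m ∈ Sg (σ m)) : ∃ x ∈ Sg s, Tendsto y UF (𝓝 x) := by
  have h1 : ∀ᶠ m in (UF : Filter ℕ), dist (σ m) s < 1 := hσ.eventually (Metric.ball_mem_nhds s one_pos)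
  obtain ⟨x, -, hx⟩ := exists_tendsto_of_bounded (y := y) s.1 (1 + dist s.1 s.2) (by
    filter_upwards [h1, hy] with m h1 h2
    obtain ⟨z, hz, hyz⟩ := Sg_near h1 h2
    have := dist_le_of_mem_Sg hz (left_mem_Sg s)
    linarith [dist_triangle (y m) z s.1])
  exact ⟨x, Sg_limit hσ hx hy, hx⟩

theorem no_stars {G : Set (E2 × E2)} (hG : Cls G) (hne : G.Nonempty)
    (hst : ∀ S ∈ G, ∃ p ∈ Sg S, StarPt G p) : False := by
  classical
  choose P hP hPi using fun m : ℕ => isolated hG hne hst ((m : ℝ) + 1) (by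
    have : (0 : ℝ) ≤ m := by positivity
    linarith)
  set Gm : ℕ → Set (E2 × E2) := fun m => tr (-(P m)) '' G with hGm
  have hcls : Cls (Lim Gm) := Cls.lim fun m => hG.translate _
  refine peel hcls ?_ ?_
  · intro T hT
    obtain ⟨τ, hτ, hlim⟩ := exists_seq_of_mem_Lim hT
    have hch : ∀ m, ∃ q : E2, τ m ∈ Gm m → q - P m ∈ Sg (τ m) ∧ StarPt G q := by
      intro m
      by_cases h : τ m ∈ Gm m
      · obtain ⟨S, hS, hSτ⟩ := h
        obtain ⟨q, hq, hqs⟩ := hst S hS
        refine ⟨q, fun _ => ⟨?_, hqs⟩⟩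
        rw [← hSτ, sub_eq_add_neg, Sg_tr]
        exact hq
      · exact ⟨0, fun h' => absurd h' h⟩
    choose q hq using hch
    have h1 : ∀ᶠ m in (UF : Filter ℕ), q m - P m ∈ Sg (τ m) ∧ StarPt G (q m) := by
      filter_upwards [hτ] with m hm using hq m hm
    obtain ⟨Q, hQ, hQlim⟩ := exists_limit_Sg hlim (h1.mono fun m hm => hm.1)
    by_cases h2 : ∀ᶠ m in (UF : Filter ℕ), q m = P m
    · left
      have : Q = 0 := by
        refine tendsto_nhds_unique hQlim (tendsto_const_nhds.congr' ?_)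
        filter_upwards [h2] with m hm
        rw [hm, sub_self]
      rwa [this] at hQ
    · right
      rw [← Ultrafilter.eventually_not] at h2
      refine ⟨Q, hQ, ?_⟩
      have h3 : Tendsto (fun m : ℕ => 2 - 1 / ((m : ℝ) + 1)) UF (𝓝 (2 - 0)) := UF_inv.const_sub 2
      rw [sub_zero] at h3
      refine le_of_tendsto_of_tendsto h3 hQlim.norm ?_
      filter_upwards [h1, h2] with m hm1 hm2
      have := hPi m (q m) hm1.2 hm2
      rwa [dist_comm, dist_eq_norm] at this
  · intro v hv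
    refine mem_Lim_of_tendsto (y := fun _ => (0, v)) (Eventually.of_forall fun m => ?_) tendsto_const_nhds
    exact ⟨(P m, P m + v), hP m v hv, by simp [tr]⟩

end Pool.Agent.Helper11_Exact
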