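import Mathlib
import Pool.Agent.Helper11_Exact.NoStars

set_option autoImplicit false

open Set Filter Topology MeasureTheory Real
open scoped ENNReal
open Pool.Agent.Helper11_Thin

namespace Pool.Agent.Helper11_Exact

/-- Approximate centres in direction `u` in the ball of radius `m` about `x`. -/
structure Approx (G : Set (E2 × E2)) (u x : E2) (m : ℕ) (v : E2) (A : Set E2) : Prop where
  near : dist v u ≤ 1 / ((m : ℝ) + 1)
  meet : ∀ S ∈ G, (∃ y ∈ Sg S, dist y x ≤ m) → ∃ p ∈ A, ∃ y ∈ Sg S, dist p y ≤ 1 / ((m : ℝ) + 1)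
  plus : ∀ p ∈ A, ∃ s ∈ G, dist s (p, p + v) ≤ 1 / ((m : ℝ) + 1)
  minus : ∀ p ∈ A, ∃ s ∈ G, dist s (p, p - v) ≤ 1 / ((m : ℝ) + 1)
  card : ∀ T : Finset E2, (T : Set E2) ⊆ A → ∀ (c : E2) (R : ℝ), 0 ≤ R → (∀ p ∈ T, dist p c ≤ R) →
    (T.card : ℝ) ≤ (R + 3) ^ 2

theorem tendsto_of_dist_le {X : Type*} [PseudoMetricSpace X] {y z : ℕ → X} {x : X}
    (hz : Tendsto z UF (𝓝 x)) (h : ∀ᶠ m : ℕ in (UF : Filter ℕ), dist (y m) (z m) ≤ 1 / ((m : ℝ) + 1)) :
    Tendsto y UF (𝓝 x) := by
  rw [Metric.tendsto_nhds]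
  intro ε hε
  have e1 : ∀ᶠ m in (UF : Filter ℕ), dist (z m) x < ε / 2 :=
    hz.eventually (Metric.ball_mem_nhds x (by positivity))
  filter_upwards [e1, h, UF_inv.eventually_lt_const (show (0 : ℝ) < ε / 2 by positivity)] with m h1 h2 h3
  linarith [dist_triangle (y m) (z m) x]

theorem stars_of_approx {G : Set (E2 × E2)} (hG : Cls G) (u : ℕ → E2) (hu1 : ∀ j, ‖u j‖ = 1)
    (hpar : ∀ i j, i ≠ j → dt (u i) (u j) ≠ 0)
    (hdense : ∀ v : E2, ‖v‖ = 1 → ∀ r > 0, ∃ j, dist (u j) v < r ∨ dist (-(u j)) v < r)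
    (x : ℕ → E2) (hx : ∀ m, ∃ S ∈ G, x m ∈ Sg S)
    (h : ∀ m j : ℕ, j < m → ∃ (v : E2) (A : Set E2), Approx G (u j) (x m) m v A) :
    ∃ G', Cls G' ∧ G'.Nonempty ∧ ∀ S ∈ G', ∃ p ∈ Sg S, StarPt G' p := by
  classical
  have h' : ∀ m j : ℕ, ∃ (v : E2) (A : Set E2), j < m → Approx G (u j) (x m) m v A := by
    intro m j
    by_cases hj : j < m
    · obtain ⟨v, A, hA⟩ := h m j hj
      exact ⟨v, A, fun _ => hA⟩
    · exact ⟨0, ∅, fun h => absurd h hj⟩
  choose v A hA using h'
  have hev : ∀ j : ℕ, ∀ᶠ m : ℕ in (UF : Filter ℕ), j < m := fun j => UF_ev (eventually_gt_atTop j)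
  set Gm : ℕ → Set (E2 × E2) := fun m => tr (-(x m)) '' G with hGm
  have hcls : Cls (Lim Gm) := Cls.lim fun m => hG.translate _
  set P : ℕ → Set E2 := fun j => Lim (fun m => (fun p => p - x m) '' A m j) with hP
  have hvlim : ∀ j, Tendsto (fun m => v m j) UF (𝓝 (u j)) := by
    intro j
    refine tendsto_of_dist_le (z := fun _ => u j) tendsto_const_nhds ?_
    filter_upwards [hev j] with m hm using (hA m j hm).near
  have hcen : ∀ j, Centres (Lim Gm) (u j) (P j) := by
    intro j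
    refine ⟨?_, ?_, ?_, ?_⟩
    · intro S hS
      obtain ⟨τ, hτ, hlim⟩ := exists_seq_of_mem_Lim hS
      have hb : ∀ᶠ m in (UF : Filter ℕ), dist (τ m) S < 1 := hlim.eventually (Metric.ball_mem_nhds S one_pos)
      have hM : ∀ᶠ m : ℕ in (UF : Filter ℕ), dist S.1 0 + 1 ≤ (m : ℝ) := tendsto_nat_UF.eventually_ge_atTop _
      have hch : ∀ m, ∃ p y : E2, (τ m ∈ Gm m ∧ dist (τ m) S < 1 ∧ dist S.1 0 + 1 ≤ (m : ℝ) ∧ j < m) →
          p ∈ A m j ∧ y ∈ Sg (τ m) ∧ dist (p - x m) y ≤ 1 / ((m : ℝ) + 1) := by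
        intro m
        by_cases hc : τ m ∈ Gm m ∧ dist (τ m) S < 1 ∧ dist S.1 0 + 1 ≤ (m : ℝ) ∧ j < m
        · obtain ⟨⟨s, hs, hsτ⟩, h2, h3, h4⟩ := hc
          obtain ⟨p, hp, y, hy, hpy⟩ := (hA m j h4).meet s hs ⟨s.1, left_mem_Sg s, by
            rw [Prod.dist_eq, max_lt_iff] at h2
            have e1 : dist s.1 (x m) = dist (τ m).1 0 := by
              rw [← hsτ, dist_eq_norm, dist_zero_right]; simp [tr, sub_eq_add_neg]
            rw [e1]
            linarith [dist_triangle (τ m).1 S.1 0, h2.1]⟩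
          refine ⟨p, y - x m, fun _ => ⟨hp, ?_, ?_⟩⟩
          · rw [← hsτ, sub_eq_add_neg, Sg_tr]; exact hy
          · rw [dist_sub_right]; exact hpy
        · exact ⟨0, 0, fun h => absurd h hc⟩
      choose p y hpy using hch
      have h1 : ∀ᶠ m in (UF : Filter ℕ), p m ∈ A m j ∧ y m ∈ Sg (τ m) ∧ dist (p m - x m) (y m) ≤ 1 / ((m : ℝ) + 1) := by
        filter_upwards [hτ, hb, hM, hev j] with m h1 h2 h3 h4 using hpy m ⟨h1, h2, h3, h4⟩
      obtain ⟨q, hq, hqlim⟩ := exists_limit_Sg hlim (h1.mono fun m hm => hm.2.1)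
      refine ⟨q, ?_, hq⟩
      refine mem_Lim_of_tendsto (y := fun m => p m - x m) (h1.mono fun m hm => ⟨p m, hm.1, rfl⟩) ?_
      exact tendsto_of_dist_le hqlim (h1.mono fun m hm => hm.2.2)
    · intro q hq
      obtain ⟨p', hp', hlim⟩ := exists_seq_of_mem_Lim hq
      have hch : ∀ m, ∃ s : E2 × E2, (p' m ∈ (fun p => p - x m) '' A m j ∧ j < m) →
          s ∈ Gm m ∧ dist s (p' m, p' m + v m j) ≤ 1 / ((m : ℝ) + 1) := by
        intro m
        by_cases hc : p' m ∈ (fun p => p - x m) '' A m j ∧ j < m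
        · obtain ⟨⟨p, hp, hpp⟩, hj⟩ := hc
          obtain ⟨s, hs, hsd⟩ := (hA m j hj).plus p hp
          refine ⟨tr (-(x m)) s, fun _ => ⟨⟨s, hs, rfl⟩, ?_⟩⟩
          have : (p' m, p' m + v m j) = tr (-(x m)) (p, p + v m j) := by
            rw [← hpp]
            simp only [tr]
            refine Prod.ext ?_ ?_
            · simp [sub_eq_add_neg]
            · simp only; abel
          rw [this, dist_tr]
          exact hsd
        · exact ⟨0, fun h => absurd h hc⟩
      choose s hs using hch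
      have h1 : ∀ᶠ m in (UF : Filter ℕ), s m ∈ Gm m ∧ dist (s m) (p' m, p' m + v m j) ≤ 1 / ((m : ℝ) + 1) := by
        filter_upwards [hp', hev j] with m h1 h2 using hs m ⟨h1, h2⟩
      refine mem_Lim_of_tendsto (y := s) (h1.mono fun m hm => hm.1) ?_
      refine tendsto_of_dist_le (z := fun m => (p' m, p' m + v m j)) ?_ (h1.mono fun m hm => hm.2)
      exact hlim.prodMk_nhds (hlim.add (hvlim j))
    · intro q hq
      obtain ⟨p', hp', hlim⟩ := exists_seq_of_mem_Lim hq
      have hch : ∀ m, ∃ s : E2 × E2, (p' m ∈ (fun p => p - x m) '' A m j ∧ j < m) →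
          s ∈ Gm m ∧ dist s (p' m, p' m - v m j) ≤ 1 / ((m : ℝ) + 1) := by
        intro m
        by_cases hc : p' m ∈ (fun p => p - x m) '' A m j ∧ j < m
        · obtain ⟨⟨p, hp, hpp⟩, hj⟩ := hc
          obtain ⟨s, hs, hsd⟩ := (hA m j hj).minus p hp
          refine ⟨tr (-(x m)) s, fun _ => ⟨⟨s, hs, rfl⟩, ?_⟩⟩
          have : (p' m, p' m - v m j) = tr (-(x m)) (p, p - v m j) := by
            rw [← hpp]
            simp only [tr]
            refine Prod.ext ?_ ?_
            · simp [sub_eq_add_neg]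
            · simp only; abel
          rw [this, dist_tr]
          exact hsd
        · exact ⟨0, fun h => absurd h hc⟩
      choose s hs using hch
      have h1 : ∀ᶠ m in (UF : Filter ℕ), s m ∈ Gm m ∧ dist (s m) (p' m, p' m - v m j) ≤ 1 / ((m : ℝ) + 1) := by
        filter_upwards [hp', hev j] with m h1 h2 using hs m ⟨h1, h2⟩
      refine mem_Lim_of_tendsto (y := s) (h1.mono fun m hm => hm.1) ?_
      refine tendsto_of_dist_le (z := fun m => (p' m, p' m - v m j)) ?_ (h1.mono fun m hm => hm.2)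
      exact hlim.prodMk_nhds (hlim.sub (hvlim j))
    · intro R
      refine finite_of_card_le (c := (|R| + 1 + 3) ^ 2) fun T hT => ?_
      have hch : ∀ t : E2, ∃ p' : ℕ → E2, t ∈ T → (∀ᶠ m in (UF : Filter ℕ), p' m ∈ (fun p => p - x m) '' A m j) ∧
          Tendsto p' UF (𝓝 t) := by
        intro t
        by_cases ht : t ∈ T
        · obtain ⟨p', h1, h2⟩ := exists_seq_of_mem_Lim (hT ht).1
          exact ⟨p', fun _ => ⟨h1, h2⟩⟩
        · exact ⟨0, fun h => absurd h ht⟩
      choose p' hp' using hch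
      have e1 : ∀ᶠ m in (UF : Filter ℕ), ∀ t ∈ T, p' t m ∈ (fun p => p - x m) '' A m j := by
        rw [Filter.eventually_all_finset]
        exact fun t ht => (hp' t ht).1
      have e2 : ∀ᶠ m in (UF : Filter ℕ), ∀ t ∈ T, dist (p' t m) t < 1 := by
        rw [Filter.eventually_all_finset]
        exact fun t ht => (hp' t ht).2.eventually (Metric.ball_mem_nhds t one_pos)
      have e3 : ∀ᶠ m in (UF : Filter ℕ), ∀ t ∈ T, ∀ t' ∈ T, t ≠ t' → p' t m ≠ p' t' m := by
        rw [Filter.eventually_all_finset]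
        intro t ht
        rw [Filter.eventually_all_finset]
        intro t' ht'
        by_cases htt : t = t'
        · exact Eventually.of_forall fun m h => absurd htt h
        · have hd : 0 < dist t t' / 2 := by have := dist_pos.mpr htt; positivity
          have a1 : ∀ᶠ m in (UF : Filter ℕ), dist (p' t m) t < dist t t' / 2 :=
            (hp' t ht).2.eventually (Metric.ball_mem_nhds t hd)
          have a2 : ∀ᶠ m in (UF : Filter ℕ), dist (p' t' m) t' < dist t t' / 2 :=
            (hp' t' ht').2.eventually (Metric.ball_mem_nhds t' hd)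
          filter_upwards [a1, a2] with m h1 h2 _ heq
          rw [heq] at h1
          have := dist_triangle t (p' t' m) t'
          rw [dist_comm t (p' t' m)] at this
          linarith
      obtain ⟨m, hm1, hm2, hm3, hm4⟩ := (e1.and (e2.and (e3.and (hev j)))).exists
      have hinj : InjOn (fun t => p' t m + x m) (T : Set E2) := by
        intro s hs t ht hst
        by_contra hne
        exact hm3 s hs t ht hne (add_right_cancel hst)
      have := (hA m j hm4).card (T.image (fun t => p' t m + x m)) (by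
        intro s hs
        simp only [Finset.coe_image, mem_image, Finset.mem_coe] at hs
        obtain ⟨t, ht, rfl⟩ := hs
        obtain ⟨p, hp, hpe⟩ := hm1 t ht
        rw [← hpe]
        simpa using hp) (x m) (|R| + 1) (by positivity) (by
        intro s hs
        obtain ⟨t, ht, rfl⟩ := Finset.mem_image.mp hs
        have h1 := hm2 t ht
        have h2 : dist t 0 ≤ R := (hT ht).2
        have h3 : dist (p' t m + x m) (x m) = dist (p' t m) 0 := by
          rw [dist_eq_norm, dist_zero_right]; simp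
        rw [h3]
        linarith [dist_triangle (p' t m) t 0, le_abs_self R])
      rwa [Finset.card_image_of_injOn hinj] at this
  refine ⟨Lim Gm, hcls, ?_, ?_⟩
  · choose S hS hxS using hx
    have hb : ∀ᶠ m in (UF : Filter ℕ), dist (tr (-(x m)) (S m)) 0 ≤ 1 := by
      refine Eventually.of_forall fun m => ?_
      have h0 : (0 : E2) ∈ Sg (tr (-(x m)) (S m)) := by
        rw [mem_Sg_tr]; simpa using hxS m
      have h1 : dist (tr (-(x m)) (S m)).1 (tr (-(x m)) (S m)).2 = 1 := by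
        simp only [tr, dist_add_right]; exact hG.unit1 _ (hS m)
      have e1 := dist_le_of_mem_Sg (left_mem_Sg _) h0
      have e2 := dist_le_of_mem_Sg (right_mem_Sg _) h0
      rw [h1] at e1 e2
      exact dist_prod_le (c := (0 : E2)) ⟨e1, e2⟩
    obtain ⟨s, -, hs⟩ := exists_tendsto_of_bounded 0 1 hb
    exact ⟨s, mem_Lim_of_tendsto (Eventually.of_forall fun m => ⟨S m, hS m, rfl⟩) hs⟩
  · exact star hcls.1 u hu1 hpar P hcen hdense

end Pool.Agent.Helper11_Exact
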