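import Mathlib
import Pool.Agent.Helper11_Exact.Approx

set_option autoImplicit false

open Set Filter Topology MeasureTheory Real
open scoped ENNReal
open Pool.Agent.Helper11_Thin

namespace Pool.Agent.Helper11_Exact

/-- A bounded nonempty predicate on `ℕ` has a maximum. -/
theorem exists_max_nat {P : ℕ → Prop} (h0 : ∃ n, P n) {b : ℕ} (hb : ∀ n, P n → n ≤ b) :
    ∃ n, P n ∧ ∀ m, P m → m ≤ n := by
  classical
  obtain ⟨n0, hn0⟩ := h0
  refine ⟨Nat.findGreatest P b, Nat.findGreatest_spec (hb n0 hn0) hn0, fun m hm => ?_⟩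
  exact Nat.le_findGreatest (hb m hm) hm

/-- Members disjoint from one of the two needles at every centre are covered by few balls. -/
theorem bad_cover {W : Set (E2 × E2)} (hu : Unit1 W) {k : ℕ}
    (hk : ∀ T : Finset (E2 × E2), (T : Set (E2 × E2)) ⊆ W →
      (T : Set (E2 × E2)).Pairwise (fun s t => Disjoint (Sg s) (Sg t)) → T.card ≤ k)
    (A : Finset E2) (v : E2) (hA : (A : Set E2).Pairwise (fun p p' => dt (p - p') v ≠ 0))
    (sp sm : E2 → E2 × E2) (hsp : ∀ p ∈ A, sp p ∈ W ∧ p ∈ Sg (sp p) ∧ ∀ y ∈ Sg (sp p), ∃ t : ℝ, y = p + t • v)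
    (hsm : ∀ p ∈ A, sm p ∈ W ∧ p ∈ Sg (sm p) ∧ ∀ y ∈ Sg (sm p), ∃ t : ℝ, y = p + t • v) :
    ∃ X : Finset (E2 × E2), X.card + A.card ≤ k ∧
      ∀ S ∈ W, (¬ ∃ p ∈ A, (Sg S ∩ Sg (sp p)).Nonempty ∧ (Sg S ∩ Sg (sm p)).Nonempty) →
        ∃ S' ∈ X, dist S.1 S'.1 < 5 := by
  classical
  set Un : Set (E2 × E2) := {S ∈ W | ¬ ∃ p ∈ A, (Sg S ∩ Sg (sp p)).Nonempty ∧ (Sg S ∩ Sg (sm p)).Nonempty}
    with hUn
  have hclaim : ∀ X : Finset (E2 × E2), (X : Set (E2 × E2)) ⊆ Un →
      (X : Set (E2 × E2)).Pairwise (fun s t => 5 ≤ dist s.1 t.1) → X.card + A.card ≤ k := by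
    intro X hX hXs
    set nd : E2 → E2 × E2 := fun p => if ∃ S ∈ X, (Sg S ∩ Sg (sp p)).Nonempty then sm p else sp p with hnd
    have hnd1 : ∀ p ∈ A, nd p ∈ W ∧ p ∈ Sg (nd p) ∧ ∀ y ∈ Sg (nd p), ∃ t : ℝ, y = p + t • v := by
      intro p hp
      simp only [hnd]
      split_ifs
      · exact hsm p hp
      · exact hsp p hp
    have hnd2 : ∀ p ∈ A, ∀ S ∈ X, Disjoint (Sg S) (Sg (nd p)) := by
      intro p hp S hS
      simp only [hnd]
      split_ifs with hc
      · obtain ⟨S₁, hS₁, y, hy1, hy2⟩ := hc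
        rw [Set.disjoint_left]
        intro z hz hz'
        by_cases hSS : S = S₁
        · subst hSS
          exact (hX hS).2 ⟨p, hp, ⟨y, hy1, hy2⟩, ⟨z, hz, hz'⟩⟩
        · have h1 := hXs hS hS₁ hSS
          have d1 := dist_le_of_mem_Sg (left_mem_Sg S) hz
          have d2 := dist_le_of_mem_Sg hz' (hsm p hp).2.1
          have d3 := dist_le_of_mem_Sg (hsp p hp).2.1 hy2
          have d4 := dist_le_of_mem_Sg hy1 (left_mem_Sg S₁)
          rw [hu _ (hX hS).1] at d1
          rw [hu _ (hsm p hp).1] at d2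
          rw [hu _ (hsp p hp).1] at d3
          rw [hu _ (hX hS₁).1] at d4
          simp only at h1
          linarith [dist_triangle4 S.1 z p y, dist_triangle S.1 y S₁.1]
      · push Not at hc
        rw [Set.disjoint_iff_inter_eq_empty]
        exact hc S hS
    have hnd3 : ∀ p ∈ A, ∀ p' ∈ A, p ≠ p' → Disjoint (Sg (nd p)) (Sg (nd p')) := by
      intro p hp p' hp' hne
      rw [Set.disjoint_left]
      intro z hz hz'
      obtain ⟨t, ht⟩ := (hnd1 p hp).2.2 z hz
      obtain ⟨t', ht'⟩ := (hnd1 p' hp').2.2 z hz'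
      apply hA hp hp' hne
      have e1 : p - p' = (t' - t) • v := by
        have h2 : p = p' + t' • v - t • v := by rw [← ht', ht]; abel
        rw [h2]; module
      rw [e1]
      have := dt_smul_self (t' - t) 1 v
      simpa using this
    have hinj : InjOn nd (A : Set E2) := by
      intro p hp p' hp' h
      by_contra hne
      have := hnd3 p hp p' hp' hne
      rw [h] at this
      exact Set.disjoint_left.mp this (hnd1 p' hp').2.1 (hnd1 p' hp').2.1
    have hdisj : Disjoint X (A.image nd) := by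
      rw [Finset.disjoint_left]
      intro S hS hS'
      obtain ⟨p, hp, rfl⟩ := Finset.mem_image.mp hS'
      exact Set.disjoint_left.mp (hnd2 p hp _ hS) (hnd1 p hp).2.1 (hnd1 p hp).2.1
    have := hk (X ∪ A.image nd) (by
      intro S hS
      rw [Finset.coe_union] at hS
      rcases hS with hS | hS
      · exact (hX hS).1
      · simp only [Finset.coe_image, mem_image, Finset.mem_coe] at hS
        obtain ⟨p, hp, rfl⟩ := hS
        exact (hnd1 p hp).1) (by
      intro S hS S' hS' hne
      rw [Finset.coe_union] at hS hS'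
      rcases hS with hS | hS <;> rcases hS' with hS' | hS'
      · have h1 := hXs hS hS' hne
        rw [Set.disjoint_left]
        intro z hz hz'
        have d1 := dist_le_of_mem_Sg (left_mem_Sg S) hz
        have d4 := dist_le_of_mem_Sg hz' (left_mem_Sg S')
        rw [hu _ (hX hS).1] at d1
        rw [hu _ (hX hS').1] at d4
        simp only at h1
        linarith [dist_triangle S.1 z S'.1]
      · simp only [Finset.coe_image, mem_image, Finset.mem_coe] at hS'
        obtain ⟨p, hp, rfl⟩ := hS'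
        exact hnd2 p hp S hS
      · simp only [Finset.coe_image, mem_image, Finset.mem_coe] at hS
        obtain ⟨p, hp, rfl⟩ := hS
        exact (hnd2 p hp S' hS').symm
      · simp only [Finset.coe_image, mem_image, Finset.mem_coe] at hS hS'
        obtain ⟨p, hp, rfl⟩ := hS
        obtain ⟨p', hp', rfl⟩ := hS'
        exact hnd3 p hp p' hp' (fun h => hne (by rw [h])))
    rwa [Finset.card_union_of_disjoint hdisj, Finset.card_image_of_injOn hinj] at this
  obtain ⟨n, ⟨X, hX, hXs, hXn⟩, hmax⟩ := exists_max_nat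
    (P := fun n => ∃ X : Finset (E2 × E2), (X : Set (E2 × E2)) ⊆ Un ∧
      (X : Set (E2 × E2)).Pairwise (fun s t => 5 ≤ dist s.1 t.1) ∧ X.card = n)
    ⟨0, ∅, by simp, by simp, rfl⟩ (b := k) (by
      rintro n ⟨X, hX, hXs, rfl⟩
      have := hclaim X hX hXs
      omega)
  refine ⟨X, hclaim X hX hXs, fun S hS hSu => ?_⟩
  by_contra hcon
  push Not at hcon
  have hSX : S ∉ X := fun h => by
    have := hcon S h
    rw [dist_self] at this
    norm_num at this
  have := hmax (n + 1) ⟨insert S X, by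
    rw [Finset.coe_insert]
    exact Set.insert_subset ⟨hS, hSu⟩ hX, by
    rw [Finset.coe_insert]
    intro x hx y hy hxy
    rcases hx with hx | hx <;> rcases hy with hy | hy
    · exact absurd (hx.trans hy.symm) hxy
    · rw [hx]; exact hcon y hy
    · rw [hy, dist_comm]; exact hcon x hx
    · exact hXs hx hy hxy, by rw [Finset.card_insert_of_notMem hSX, hXn]⟩
  omega

end Pool.Agent.Helper11_Exact
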