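import Mathlib
import Pool.Agent.Helper11_Segments.Bounded

set_option autoImplicit false

open Set MeasureTheory Real Filter
open scoped ENNReal NNReal
open Pool.Agent.Helper11_Segments

namespace Pool.Agent.Helper11_Exact

theorem lintegral_abs_two (w₁ w₂ : ℝ) (h1 : 0 ≤ w₁) (h2 : 0 ≤ w₂) (c : ℝ) :
    ∫⁻ x : ℝ, {x : ℝ | -w₁ ≤ x + c ∧ x + c ≤ w₂}.indicator (fun x => ENNReal.ofReal |x + c|) x
      = ENNReal.ofReal (w₁ ^ 2 / 2 + w₂ ^ 2 / 2) := by
  have h3 : ∫⁻ x : ℝ, {x : ℝ | -w₁ ≤ x + c ∧ x + c ≤ w₂}.indicator (fun x => ENNReal.ofReal |x + c|) x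
      = ∫⁻ x : ℝ, (Icc (-w₁) w₂).indicator (fun x => ENNReal.ofReal |x|) x := by
    exact lintegral_add_right_eq_self
      (fun x => (Icc (-w₁) w₂).indicator (fun x => ENNReal.ofReal |x|) x) c
  rw [h3, lintegral_indicator measurableSet_Icc, ← ofReal_integral_eq_lintegral_ofReal]
  · congr 1
    rw [integral_Icc_eq_integral_Ioc, ← intervalIntegral.integral_of_le (by linarith)]
    have h3 : ∫ x in (-w₁)..w₂, |x| = (∫ x in (-w₁)..0, |x|) + ∫ x in (0 : ℝ)..w₂, |x| := by
      rw [intervalIntegral.integral_add_adjacent_intervals] <;>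
      exact (continuous_abs.intervalIntegrable _ _)
    have h4 : ∫ x in (-w₁)..0, |x| = ∫ x in (-w₁)..0, -x := by
      refine intervalIntegral.integral_congr fun x hx => ?_
      rw [uIcc_of_le (by linarith)] at hx
      exact abs_of_nonpos hx.2
    have h5 : ∫ x in (0 : ℝ)..w₂, |x| = ∫ x in (0 : ℝ)..w₂, x := by
      refine intervalIntegral.integral_congr fun x hx => ?_
      rw [uIcc_of_le (by linarith)] at hx
      exact abs_of_nonneg hx.1
    rw [h3, h4, h5, intervalIntegral.integral_neg, integral_id, integral_id]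
    ring
  · exact (continuous_abs.integrableOn_Icc)
  · exact Filter.Eventually.of_forall fun x => abs_nonneg x

theorem slice_le (S : Set ℝ) (w₁ w₂ c : ℝ) (h1 : 0 ≤ w₁) (h2 : 0 ≤ w₂)
    (hS : ∀ x ∈ S, -w₁ ≤ x + c ∧ x + c ≤ w₂) :
    ∫⁻ x : ℝ, S.indicator (fun x => ENNReal.ofReal |x + c|) x ≤ ENNReal.ofReal (w₁ ^ 2 / 2 + w₂ ^ 2 / 2) := by
  rw [← lintegral_abs_two w₁ w₂ h1 h2 c]
  exact lintegral_mono fun x => indicator_le_indicator_of_subset hS (fun _ => zero_le) x

/-- The line of slope `σ` and intercept `β` carries members reaching far to both sides of `c`. -/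
def GoodLine (G : Set Ndl) (δ σ β c : ℝ) : Prop :=
  (∃ s ∈ G, s.m = σ ∧ s.b = β ∧ s.t ≤ c ∧ c + (1 - δ) * wid 1 σ ≤ s.u) ∧
    ∃ s ∈ G, s.m = σ ∧ s.b = β ∧ c ≤ s.u ∧ s.t ≤ c - (1 - δ) * wid 1 σ

/-- The refined bounded segment theorem. -/
theorem refined_bounded (G : Set Ndl) (k : ℕ) (hk : NuLe G k) (R : ℝ≥0)
    (h1 : ∀ s ∈ G, |s.m| ≤ R) (h2 : ∀ s ∈ G, ∀ p ∈ s.seg, |p.1| ≤ R)
    (h3 : ∀ s ∈ G, s.u - s.t ≤ wid 1 s.m)
    (hC : IsClosed {p : ℝ × ℝ × ℝ | ∃ s ∈ G, s.m = p.1 ∧ s.b = p.2.1 ∧ s.t ≤ p.2.2 ∧ p.2.2 ≤ s.u})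
    (δ : ℝ) (hδ0 : 0 ≤ δ) (hδ1 : δ ≤ 1) (a b : ℝ) (q : ℕ) (hq1 : 1 ≤ q) (hqk : q ≤ k)
    (H : ∀ σ ∈ Ioo a b, ∀ T : Finset (ℝ × ℝ), InjOn Prod.fst (T : Set (ℝ × ℝ)) →
      (∀ z ∈ T, GoodLine G δ σ z.1 z.2) → T.card < q) :
    volume (⋃ s ∈ G, s.seg) ≤
      ENNReal.ofReal (k * π - (δ - δ ^ 2 / 2) * (k - q + 1) * ∫ σ in Ioo a b, (1 + σ ^ 2)⁻¹) := by
  classical
  set r : ℝ × ℝ → ℝ × ℝ → Prop := fun g g' => (R : ℝ) * |g.1 - g'.1| < g'.2 - g.2 with hr
  have hR := R.coe_nonneg
  have htr : ∀ a b c, r a b → r b c → r a c := by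
    intro a b c hab hbc
    simp only [hr] at *
    have := abs_sub_le a.1 b.1 c.1
    nlinarith
  set Ln : Set (ℝ × ℝ) := (fun s : Ndl => (s.m, s.b)) '' G with hLn
  have hchain : ¬ ∃ f : Fin (k + 1) → ℝ × ℝ, (∀ i, f i ∈ Ln) ∧ ∀ i j, i < j → r (f i) (f j) := by
    rintro ⟨f, hf, hfr⟩
    choose s hsG hsf using hf
    have hirr : ∀ a, ¬ r a a := fun a h => by simp [hr] at h
    have hinj : Function.Injective s := by
      intro i j hij
      by_contra hne
      rcases lt_or_gt_of_ne hne with h | h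
      · have := hfr i j h; rw [← hsf i, ← hsf j, hij] at this; exact hirr _ this
      · have := hfr j i h; rw [← hsf i, ← hsf j, hij] at this; exact hirr _ this
    have hdis : ∀ i j, i < j → Disjoint (s i).seg (s j).seg := by
      intro i j hij
      have h := hfr i j hij
      rw [← hsf i, ← hsf j] at h
      simp only [hr] at h
      rw [Set.disjoint_left]
      rintro p ⟨hp1, hp2, hp3⟩ hq
      have hpR := h2 (s j) (hsG j) p hq
      obtain ⟨hq1, hq2, hq3⟩ := hq
      have e : (s j).b - (s i).b = ((s i).m - (s j).m) * p.1 := by linarith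
      have : ((s i).m - (s j).m) * p.1 ≤ |(s i).m - (s j).m| * R := by
        refine (le_abs_self _).trans ?_
        rw [abs_mul]; gcongr
      nlinarith
    have hle := hk (Finset.univ.image s) (by
      intro y hy
      simp only [Finset.coe_image, Finset.coe_univ, image_univ, mem_range] at hy
      obtain ⟨i, rfl⟩ := hy
      exact hsG i) (by
      intro y hy z hz hyz
      simp only [Finset.coe_image, Finset.coe_univ, image_univ, mem_range] at hy hz
      obtain ⟨i, rfl⟩ := hy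
      obtain ⟨j, rfl⟩ := hz
      have hij : i ≠ j := fun h => hyz (by rw [h])
      rcases lt_or_gt_of_ne hij with h | h
      · exact hdis i j h
      · exact (hdis j i h).symm)
    rw [Finset.card_image_of_injective _ hinj, Finset.card_univ, Fintype.card_fin] at hle
    omega
  obtain ⟨c, hc1, hc2, hc3⟩ := mirsky r htr k Ln hchain
  have hlip : ∀ i, ∀ g ∈ c i, ∀ g' ∈ c i, |g.2 - g'.2| ≤ R * |g.1 - g'.1| := by
    intro i g hg g' hg'
    have h1 := hc3 i g hg g' hg'
    have h2 := hc3 i g' hg' g hg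
    simp only [hr, not_lt] at h1 h2
    rw [abs_sub_comm g'.1] at h2
    exact abs_le.mpr ⟨by linarith, by linarith⟩
  choose B hB hBg using fun i => exists_lipschitz R (c i) (hlip i)
  set Bad : Fin k → Set ℝ := fun i => {σ : ℝ | DifferentiableAt ℝ (B i) σ ∧ ∃ s ∈ G, s.m = σ ∧
    s.b = B i σ ∧ ¬ (s.t ≤ -deriv (B i) σ ∧ -deriv (B i) σ ≤ s.u)} with hBad
  set Z : Set ℝ := ⋃ i, ({σ | ¬ DifferentiableAt ℝ (B i) σ} ∪ Bad i) with hZ
  have hZ0 : volume Z = 0 := by
    refine measure_iUnion_null fun i => measure_union_null ?_ ?_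
    · exact (hB i).ae_differentiableAt_real
    · exact (bad_countable (B i) G k hk).measure_zero _
  have hZd : ∀ σ ∉ Z, ∀ i, DifferentiableAt ℝ (B i) σ := by
    intro σ hσ i
    by_contra hcon
    exact hσ (mem_iUnion.mpr ⟨i, Or.inl hcon⟩)
  have hZb : ∀ σ ∉ Z, ∀ i, ∀ s ∈ G, s.m = σ → s.b = B i σ →
      s.t ≤ -deriv (B i) σ ∧ -deriv (B i) σ ≤ s.u := by
    intro σ hσ i s hs hm hb
    by_contra hcon
    exact hσ (mem_iUnion.mpr ⟨i, Or.inr ⟨hZd σ hσ i, s, hs, hm, hb, hcon⟩⟩)
  set C : Set (ℝ × ℝ × ℝ) := {p : ℝ × ℝ × ℝ | ∃ s ∈ G, s.m = p.1 ∧ s.b = p.2.1 ∧ s.t ≤ p.2.2 ∧ p.2.2 ≤ s.u}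
    with hCdef
  set E : Fin k → Set (ℝ × ℝ) := fun i => {p | DifferentiableAt ℝ (B i) p.1 ∧
    |p.2 + deriv (B i) p.1| ≤ wid 1 p.1 ∧ (p.1, B i p.1, p.2) ∈ C ∧ ∀ i' < i, B i' p.1 ≠ B i p.1} with hE
  have hEm : ∀ i, MeasurableSet (E i) := by
    intro i
    have hwm : Measurable (wid 1) := by unfold wid; fun_prop
    have hdm : Measurable (deriv (B i)) := measurable_deriv (B i)
    refine MeasurableSet.inter ?_ (MeasurableSet.inter ?_ (MeasurableSet.inter ?_ ?_))
    · exact (measurableSet_of_differentiableAt ℝ (B i)).preimage measurable_fst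
    · exact measurableSet_le (f := fun p : ℝ × ℝ => |p.2 + deriv (B i) p.1|)
        (g := fun p : ℝ × ℝ => wid 1 p.1) (by fun_prop) (by fun_prop)
    · have hBc := (hB i).continuous
      have : Continuous (fun p : ℝ × ℝ => (p.1, B i p.1, p.2)) := by fun_prop
      exact (hC.preimage this).measurableSet
    · have : {p : ℝ × ℝ | ∀ i' < i, B i' p.1 ≠ B i p.1} = ⋂ i' : Fin k, ⋂ (_ : i' < i), {p : ℝ × ℝ | B i' p.1 = B i p.1}ᶜ := by
        ext p; simp
      change MeasurableSet {p : ℝ × ℝ | ∀ i' < i, B i' p.1 ≠ B i p.1}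
      rw [this]
      refine MeasurableSet.iInter fun i' => MeasurableSet.iInter fun _ => MeasurableSet.compl ?_
      have hBc := (hB i).continuous
      have hBc' := (hB i').continuous
      exact (isClosed_eq (f := fun p : ℝ × ℝ => B i' p.1) (g := fun p : ℝ × ℝ => B i p.1)
        (by fun_prop) (by fun_prop)).measurableSet
  have hcov : (⋃ s ∈ G, s.seg) ⊆ ⋃ i : Fin k,
      (Phi (B i) '' E i ∪ Phi (B i) '' ((Z ∩ Icc (-(R : ℝ)) R) ×ˢ Icc (-(R : ℝ)) R)) := by
    intro p hp
    simp only [mem_iUnion] at hp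
    obtain ⟨s, hs, hps⟩ := hp
    have hsL : (s.m, s.b) ∈ Ln := ⟨s, hs, rfl⟩
    have hex : ∃ i, B i s.m = s.b := by
      obtain ⟨i, hi⟩ := mem_iUnion.mp (hc1 hsL)
      exact ⟨i, (hBg i _ hi).symm⟩
    obtain ⟨i, hi, hmin⟩ : ∃ i, B i s.m = s.b ∧ ∀ i' < i, B i' s.m ≠ s.b := by
      have hne : (Finset.univ.filter (fun i => B i s.m = s.b)).Nonempty := by
        obtain ⟨i, hi⟩ := hex
        exact ⟨i, by simp [hi]⟩
      refine ⟨_, (Finset.mem_filter.mp (Finset.min'_mem _ hne)).2, fun i' hi' h => ?_⟩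
      have := Finset.min'_le _ i' (show i' ∈ Finset.univ.filter (fun i => B i s.m = s.b) from
        Finset.mem_filter.mpr ⟨Finset.mem_univ _, h⟩)
      exact absurd hi' (not_lt.mpr this)
    refine mem_iUnion.mpr ⟨i, ?_⟩
    have hpP : p = Phi (B i) (s.m, p.1) := by
      refine Prod.ext rfl ?_
      simp only [Phi]
      rw [hps.2.2, hi]
    have hpR := abs_le.mp (h2 s hs p hps)
    have hmR := abs_le.mp (h1 s hs)
    by_cases hgood : s.m ∈ Z
    · right
      exact ⟨(s.m, p.1), ⟨⟨hgood, hmR⟩, hpR⟩, hpP.symm⟩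
    · left
      refine ⟨(s.m, p.1), ⟨hZd _ hgood i, ?_, ⟨s, hs, rfl, hi.symm, hps.1, hps.2.1⟩, ?_⟩, hpP.symm⟩
      · have h4 := hZb _ hgood i s hs rfl hi.symm
        have h5 := h3 s hs
        obtain ⟨hq1, hq2, -⟩ := hps
        simp only
        exact abs_le.mpr ⟨by linarith [h4.1, h4.2], by linarith [h4.1, h4.2]⟩
      · intro i' hi'
        simp only
        rw [hi]; exact hmin i' hi'
  -- the slices
  set g : Fin k → ℝ → ℝ≥0∞ := fun i σ =>
    ∫⁻ x : ℝ, {x : ℝ | (σ, x) ∈ E i}.indicator (fun x => ENNReal.ofReal |x + deriv (B i) σ|) x with hg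
  have hvolE : ∀ i, volume (Phi (B i) '' E i) ≤ ∫⁻ σ, g i σ := by
    intro i
    have h1 := addHaar_image_le_lintegral_abs_det_fderiv (volume : Measure (ℝ × ℝ)) (f := Phi (B i))
      (f' := Phi' (B i)) (hEm i) (fun p hp => (hasFDerivAt_Phi (B i) p hp.1).hasFDerivWithinAt)
    refine h1.trans (le_of_eq ?_)
    simp_rw [det_Phi', abs_neg]
    have hdm : Measurable (deriv (B i)) := measurable_deriv (B i)
    rw [← lintegral_indicator (hEm i), Measure.volume_eq_prod, lintegral_prod]
    · refine lintegral_congr fun σ => ?_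
      rfl
    · refine (Measurable.indicator (by fun_prop) (hEm i)).aemeasurable
  have hgm : ∀ i, Measurable (g i) := by
    intro i
    have hdm : Measurable (deriv (B i)) := measurable_deriv (B i)
    have : Measurable (fun p : ℝ × ℝ => (E i).indicator (fun p => ENNReal.ofReal |p.2 + deriv (B i) p.1|) p) :=
      Measurable.indicator (by fun_prop) (hEm i)
    exact this.lintegral_prod_right'
  have hw0 : ∀ σ, 0 ≤ wid 1 σ := fun σ => by unfold wid; positivity
  have hw2 : ∀ σ : ℝ, (wid 1 σ) ^ 2 = (1 + σ ^ 2)⁻¹ := fun σ => by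
    unfold wid
    rw [div_pow, Real.sq_sqrt (by positivity), one_pow, one_div]
  have hg1 : ∀ i σ, g i σ ≤ ENNReal.ofReal ((wid 1 σ) ^ 2) := by
    intro i σ
    have := slice_le {x : ℝ | (σ, x) ∈ E i} (wid 1 σ) (wid 1 σ) (deriv (B i) σ) (hw0 σ) (hw0 σ)
      (fun x hx => abs_le.mp hx.2.1)
    rwa [add_halves] at this
  set δ' : ℝ := δ - δ ^ 2 / 2 with hδ'
  have hδ'0 : 0 ≤ δ' := by rw [hδ']; nlinarith
  have hδ'1 : δ' ≤ 1 := by rw [hδ']; nlinarith
  have hg2 : ∀ i, ∀ σ ∉ Z, ¬ GoodLine G δ σ (B i σ) (-deriv (B i) σ) →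
      g i σ ≤ ENNReal.ofReal ((1 - δ') * (wid 1 σ) ^ 2) := by
    intro i σ hσ hng
    have hδw : 0 ≤ (1 - δ) * wid 1 σ := mul_nonneg (by linarith) (hw0 σ)
    unfold GoodLine at hng
    rw [not_and_or] at hng
    rcases hng with hng | hng
    · have := slice_le {x : ℝ | (σ, x) ∈ E i} (wid 1 σ) ((1 - δ) * wid 1 σ) (deriv (B i) σ) (hw0 σ) hδw (by
        rintro x ⟨-, hx2, ⟨s, hs, hsm, hsb, hst, hsu⟩, -⟩
        refine ⟨(abs_le.mp hx2).1, ?_⟩
        by_contra hcon
        push Not at hcon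
        simp only at hsm hsb hst hsu
        exact hng ⟨s, hs, hsm, hsb, (hZb σ hσ i s hs hsm hsb).1, by linarith⟩)
      refine this.trans (le_of_eq ?_)
      congr 1
      rw [hδ']; ring
    · have := slice_le {x : ℝ | (σ, x) ∈ E i} ((1 - δ) * wid 1 σ) (wid 1 σ) (deriv (B i) σ) hδw (hw0 σ) (by
        rintro x ⟨-, hx2, ⟨s, hs, hsm, hsb, hst, hsu⟩, -⟩
        refine ⟨?_, (abs_le.mp hx2).2⟩
        by_contra hcon
        push Not at hcon
        simp only at hsm hsb hst hsu
        exact hng ⟨s, hs, hsm, hsb, (hZb σ hσ i s hs hsm hsb).2, by linarith⟩)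
      refine this.trans (le_of_eq ?_)
      congr 1
      rw [hδ']; ring
  have hkq : (0 : ℝ) ≤ (k : ℝ) - q + 1 := by
    have : (q : ℝ) ≤ k := by exact_mod_cast hqk
    linarith
  have hq1' : (1 : ℝ) ≤ q := by exact_mod_cast hq1
  set h : ℝ → ℝ := fun σ => k * (1 + σ ^ 2)⁻¹ - (Ioo a b).indicator (fun σ => δ' * (k - q + 1) * (1 + σ ^ 2)⁻¹) σ
    with hh
  have hh0 : ∀ σ, 0 ≤ h σ := by
    intro σ
    have hpos : 0 < (1 + σ ^ 2)⁻¹ := by positivity
    simp only [hh]
    by_cases hσ : σ ∈ Ioo a b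
    · rw [indicator_of_mem hσ]
      have e1 : δ' * ((k : ℝ) - q + 1) ≤ k := by nlinarith
      nlinarith
    · rw [indicator_of_notMem hσ]
      have : (0 : ℝ) ≤ k := by positivity
      nlinarith
  have hsum : ∀ σ ∉ Z, ∑ i, g i σ ≤ ENNReal.ofReal (h σ) := by
    intro σ hσ
    by_cases hσI : σ ∈ Ioo a b
    · set I : Finset (Fin k) := Finset.univ.filter (fun i => (∀ i' < i, B i' σ ≠ B i σ) ∧
        GoodLine G δ σ (B i σ) (-deriv (B i) σ)) with hI
      have hIc : I.card < q := by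
        have hinj : InjOn (fun i => (B i σ, -deriv (B i) σ)) (I : Set (Fin k)) := by
          intro i hi j hj hij
          have hi' := (Finset.mem_filter.mp hi).2.1
          have hj' := (Finset.mem_filter.mp hj).2.1
          have hb : B i σ = B j σ := congrArg Prod.fst hij
          by_contra hne
          rcases lt_or_gt_of_ne hne with h | h
          · exact hj' i h hb
          · exact hi' j h hb.symm
        have := H σ hσI (I.image (fun i => (B i σ, -deriv (B i) σ))) (by
          intro x hx y hy hxy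
          simp only [Finset.coe_image, mem_image, Finset.mem_coe] at hx hy
          obtain ⟨i, hi, rfl⟩ := hx
          obtain ⟨j, hj, rfl⟩ := hy
          have hi' := (Finset.mem_filter.mp hi).2.1
          have hj' := (Finset.mem_filter.mp hj).2.1
          have hij : i = j := by
            by_contra hne
            rcases lt_or_gt_of_ne hne with h | h
            · exact hj' i h hxy
            · exact hi' j h hxy.symm
          rw [hij]) (by
          intro z hz
          obtain ⟨i, hi, rfl⟩ := Finset.mem_image.mp hz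
          exact (Finset.mem_filter.mp hi).2.2)
        rwa [Finset.card_image_of_injOn hinj] at this
      have hbound : ∀ i, g i σ ≤ ENNReal.ofReal ((if i ∈ I then 1 else (1 - δ')) * (wid 1 σ) ^ 2) := by
        intro i
        split_ifs with hi
        · rw [one_mul]; exact hg1 i σ
        · by_cases hnew : ∀ i' < i, B i' σ ≠ B i σ
          · refine hg2 i σ hσ fun hgood => hi ?_
            exact Finset.mem_filter.mpr ⟨Finset.mem_univ _, hnew, hgood⟩
          · have : g i σ = 0 := by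
              simp only [hg]
              have he : {x : ℝ | (σ, x) ∈ E i} = ∅ := by
                ext x
                simp only [mem_ofPred_eq, mem_empty_iff_false, iff_false]
                exact fun hx => hnew hx.2.2.2
              rw [he]; simp
            rw [this]; exact zero_le
      refine (Finset.sum_le_sum fun i _ => hbound i).trans ?_
      rw [← ENNReal.ofReal_sum_of_nonneg]
      · refine ENNReal.ofReal_le_ofReal ?_
        rw [← Finset.sum_mul]
        have e1 : ∑ i : Fin k, (if i ∈ I then (1 : ℝ) else (1 - δ')) = I.card + (k - I.card) * (1 - δ') := by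
          rw [Finset.sum_ite, Finset.sum_const, Finset.sum_const, nsmul_eq_mul, nsmul_eq_mul, mul_one]
          have e2 : (Finset.univ.filter (fun i => i ∈ I)) = I := by ext; simp
          have e3 : (Finset.univ.filter (fun i => i ∉ I)).card = k - I.card := by
            have : (Finset.univ.filter (fun i => i ∉ I)) = Iᶜ := by ext; simp
            rw [this, Finset.card_compl, Fintype.card_fin]
          have e4 : I.card ≤ k := by simpa using Finset.card_le_univ I
          rw [e2, e3, Nat.cast_sub e4]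
        rw [e1, hw2]
        simp only [hh]
        rw [indicator_of_mem hσI]
        have hpos : 0 < (1 + σ ^ 2)⁻¹ := by positivity
        have hIc' : (I.card : ℝ) ≤ q - 1 := by
          have : (I.card : ℝ) + 1 ≤ q := by exact_mod_cast hIc
          linarith
        have : (I.card : ℝ) + (k - I.card) * (1 - δ') ≤ k - δ' * (k - q + 1) := by nlinarith
        calc ((I.card : ℝ) + (k - I.card) * (1 - δ')) * (1 + σ ^ 2)⁻¹
            ≤ (k - δ' * (k - q + 1)) * (1 + σ ^ 2)⁻¹ := mul_le_mul_of_nonneg_right this hpos.le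
          _ = _ := by ring
      · intro i _
        split_ifs
        · positivity
        · exact mul_nonneg (by linarith) (by positivity)
    · have : h σ = ∑ i : Fin k, (wid 1 σ) ^ 2 := by
        simp only [hh]
        rw [indicator_of_notMem hσI, hw2]
        simp
      rw [this, ENNReal.ofReal_sum_of_nonneg (fun i _ => by positivity)]
      exact Finset.sum_le_sum fun i _ => hg1 i σ
  have hint1 : Integrable (fun σ : ℝ => (k : ℝ) * (1 + σ ^ 2)⁻¹) := integrable_inv_one_add_sq.const_mul _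
  have hint2 : Integrable ((Ioo a b).indicator (fun σ : ℝ => δ' * (k - q + 1) * (1 + σ ^ 2)⁻¹)) :=
    (integrable_inv_one_add_sq.const_mul _).indicator measurableSet_Ioo
  calc volume (⋃ s ∈ G, s.seg) ≤ volume (⋃ i : Fin k,
      (Phi (B i) '' E i ∪ Phi (B i) '' ((Z ∩ Icc (-(R : ℝ)) R) ×ˢ Icc (-(R : ℝ)) R))) := measure_mono hcov
    _ ≤ ∑ i : Fin k, volume (Phi (B i) '' E i ∪
          Phi (B i) '' ((Z ∩ Icc (-(R : ℝ)) R) ×ˢ Icc (-(R : ℝ)) R)) := measure_iUnion_fintype_le _ _
    _ ≤ ∑ i : Fin k, ∫⁻ σ, g i σ := by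
        refine Finset.sum_le_sum fun i _ => ?_
        refine (measure_union_le _ _).trans ?_
        rw [volume_Phi_null (B i) R R (hB i) (Z ∩ Icc (-(R : ℝ)) R)
          (measure_mono_null inter_subset_left hZ0) inter_subset_right, add_zero]
        exact hvolE i
    _ = ∫⁻ σ, ∑ i : Fin k, g i σ := by rw [lintegral_finsetSum _ fun i _ => hgm i]
    _ ≤ ∫⁻ σ, ENNReal.ofReal (h σ) := by
        refine lintegral_mono_ae ?_
        have : ∀ᵐ σ : ℝ, σ ∉ Z := measure_eq_zero_iff_ae_notMem.mp hZ0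
        filter_upwards [this] with σ hσ using hsum σ hσ
    _ = ENNReal.ofReal (∫ σ, h σ) := by
        have hint : Integrable h := hint1.sub hint2
        rw [ofReal_integral_eq_lintegral_ofReal hint (Eventually.of_forall hh0)]
    _ = _ := by
        congr 1
        simp only [hh]
        rw [integral_sub hint1 hint2, integral_const_mul, integral_univ_inv_one_add_sq,
          integral_indicator measurableSet_Ioo, integral_const_mul]

end Pool.Agent.Helper11_Exact
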