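import Mathlib
import Pool.Agent.Helper11_Exact.Slice
import Pool.Agent.Helper11_Exact.Isolated

set_option autoImplicit false

open Set Filter Topology MeasureTheory Real
open scoped ENNReal NNReal
open Pool.Agent.Helper11_Thin Pool.Agent.Helper11_Segments

namespace Pool.Agent.Helper11_Exact

theorem unit_coord {s : E2 × E2} (h : dist s.1 s.2 = 1) :
    (s.2 0 - s.1 0) ^ 2 + (s.2 1 - s.1 1) ^ 2 = 1 := by
  have h2 : dist s.1 s.2 ^ 2 = 1 := by rw [h]; norm_num
  rw [EuclideanSpace.dist_eq, Real.sq_sqrt (by positivity), Fin.sum_univ_two, Real.dist_eq,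
    Real.dist_eq, sq_abs, sq_abs] at h2
  linarith [sq_abs (s.1 0 - s.2 0)]

theorem norm_coord_le (x : E2) : |x 0| ≤ ‖x‖ := by
  have := PiLp.norm_apply_le x 0
  simpa using this

theorem wid_one (σ : ℝ) : wid 1 σ = 1 / √(1 + σ ^ 2) := rfl

theorem ndl_width {s : E2 × E2} (h : dist s.1 s.2 = 1) (hne : s.2 0 - s.1 0 ≠ 0) :
    wid 1 (ndl (coord s.1) (coord s.2)).m = |s.2 0 - s.1 0| := by
  have h1 := unit_coord h
  simp only [ndl, wid, coord_apply]
  have h2 : 1 + ((s.2 1 - s.1 1) / (s.2 0 - s.1 0)) ^ 2 = (1 / |s.2 0 - s.1 0|) ^ 2 := by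
    rw [div_pow, div_pow, sq_abs, one_pow]
    field_simp
    linarith
  rw [h2, Real.sqrt_sq (by positivity), one_div_one_div]

/-- The members of slope at most `N`. -/
def slopeLe (F : Set (E2 × E2)) (N : ℝ) : Set (E2 × E2) :=
  {s ∈ F | |s.2 1 - s.1 1| ≤ N * |s.2 0 - s.1 0|}

theorem slopeLe_ne {F : Set (E2 × E2)} (hu : Unit1 F) {N : ℝ} {s : E2 × E2} (hs : s ∈ slopeLe F N) :
    s.2 0 - s.1 0 ≠ 0 := by
  intro h
  have h1 := unit_coord (hu s hs.1)
  have h2 := hs.2
  rw [h, abs_zero, mul_zero] at h2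
  have h3 := abs_nonpos_iff.mp h2
  rw [h, h3] at h1
  norm_num at h1

theorem isCompact_slopeLe {F : Set (E2 × E2)} (hF : IsCompact F) (N : ℝ) : IsCompact (slopeLe F N) := by
  refine hF.inter_right ?_
  exact isClosed_le (f := fun s : E2 × E2 => |s.2 1 - s.1 1|) (g := fun s : E2 × E2 => N * |s.2 0 - s.1 0|)
    (by fun_prop) (by fun_prop)

/-- The refined segment theorem for compact families of unit segments. -/
theorem refined {F : Set (E2 × E2)} (hFc : IsCompact F) (hu : Unit1 F) (hsymm : ∀ s ∈ F, s.swap ∈ F)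
    (k : ℕ) (hk : ∀ T : Finset (E2 × E2), (T : Set (E2 × E2)) ⊆ F →
      (T : Set (E2 × E2)).Pairwise (fun s t => Disjoint (Sg s) (Sg t)) → T.card ≤ k)
    (a b δ : ℝ) (hδ0 : 0 ≤ δ) (hδ1 : δ ≤ 1) (q : ℕ) (hq1 : 1 ≤ q) (hqk : q ≤ k)
    (hvol : ENNReal.ofReal (k * π - (δ - δ ^ 2 / 2) * (k - q + 1) * ∫ σ in Ioo a b, (1 + σ ^ 2)⁻¹) <
      volume (UU F)) :
    ∃ σ ∈ Ioo a b, ∃ A : Finset E2, q ≤ A.card ∧
      (A : Set E2).Pairwise (fun p p' => dt (p - p') (dir σ) ≠ 0) ∧
      ∀ p ∈ A, (∃ α : ℝ, 0 ≤ α ∧ α ≤ δ ∧ (p - α • dir σ, p + (1 - α) • dir σ) ∈ F) ∧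
        ∃ α : ℝ, 0 ≤ α ∧ α ≤ δ ∧ (p + α • dir σ, p - (1 - α) • dir σ) ∈ F := by
  classical
  by_contra hcon
  obtain ⟨M, hM⟩ := hFc.isBounded.subset_closedBall (0 : E2 × E2)
  have hM1 : ∀ s ∈ F, ‖s.1‖ ≤ |M| ∧ ‖s.2‖ ≤ |M| := by
    intro s hs
    have := hM hs
    rw [mem_closedBall_zero_iff, Prod.norm_def, max_le_iff] at this
    exact ⟨this.1.trans (le_abs_self M), this.2.trans (le_abs_self M)⟩
  set GN : ℕ → Set Ndl := fun N => (fun s : E2 × E2 => ndl (coord s.1) (coord s.2)) '' slopeLe F N with hGN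
  have hsegim : ∀ N : ℕ, ∀ s ∈ slopeLe F N, (ndl (coord s.1) (coord s.2)).seg = coord '' Sg s := by
    intro N s hs
    rw [seg_ndl, Sg, coord_segment]
    have := slopeLe_ne hu hs
    simp only [coord_apply]
    exact fun h => this (by rw [h, sub_self])
  -- the bound for every `N`
  have hbd : ∀ N : ℕ, volume (⋃ g ∈ GN N, g.seg) ≤
      ENNReal.ofReal (k * π - (δ - δ ^ 2 / 2) * (k - q + 1) * ∫ σ in Ioo a b, (1 + σ ^ 2)⁻¹) := by
    intro N
    set R : ℝ≥0 := (N : ℝ≥0) + ⟨|M|, abs_nonneg M⟩ with hR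
    have hRv : (R : ℝ) = N + |M| := by rw [hR]; push_cast; rfl
    refine refined_bounded (GN N) k ?_ R ?_ ?_ ?_ ?_ δ hδ0 hδ1 a b q hq1 hqk ?_
    · -- no k + 1 disjoint members
      intro T hT hTp
      have hch : ∀ g : Ndl, ∃ s : E2 × E2, g ∈ T → s ∈ slopeLe F N ∧ ndl (coord s.1) (coord s.2) = g := by
        intro g
        by_cases hg : g ∈ T
        · obtain ⟨s, hs, hsg⟩ := hT hg
          exact ⟨s, fun _ => ⟨hs, hsg⟩⟩
        · exact ⟨0, fun h => absurd h hg⟩
      choose φ hφ using hch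
      have hinj : InjOn φ (T : Set Ndl) := by
        intro g hg g' hg' h
        rw [← (hφ g hg).2, ← (hφ g' hg').2, h]
      have := hk (T.image φ) (by
        intro y hy
        simp only [Finset.coe_image, mem_image, Finset.mem_coe] at hy
        obtain ⟨g, hg, rfl⟩ := hy
        exact (hφ g hg).1.1) (by
        intro y hy z hz hyz
        simp only [Finset.coe_image, mem_image, Finset.mem_coe] at hy hz
        obtain ⟨g, hg, rfl⟩ := hy
        obtain ⟨g', hg', rfl⟩ := hz
        have hgg : g ≠ g' := fun h => hyz (by rw [h])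
        have hd := hTp hg hg' hgg
        rw [← (hφ g hg).2, ← (hφ g' hg').2, hsegim N _ (hφ g hg).1, hsegim N _ (hφ g' hg').1] at hd
        exact (disjoint_image_iff coord.injective).mp hd)
      rwa [Finset.card_image_of_injOn hinj] at this
    · rintro _ ⟨s, hs, rfl⟩
      have h1 := slopeLe_ne hu hs
      simp only [ndl, coord_apply]
      rw [abs_div, div_le_iff₀ (abs_pos.mpr h1), hRv]
      have h2 := hs.2
      have h3 : (N : ℝ) * |s.2 0 - s.1 0| ≤ (N + |M|) * |s.2 0 - s.1 0| := by
        have := abs_nonneg M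
        gcongr
        linarith
      linarith
    · rintro _ ⟨s, hs, rfl⟩ p hp
      rw [hsegim N s hs] at hp
      obtain ⟨x, hx, rfl⟩ := hp
      simp only [coord_apply]
      have h1 : ‖x‖ ≤ |M| := by
        have hb := convex_closedBall (0 : E2) |M|
        have := hb.segment_subset (mem_closedBall_zero_iff.mpr (hM1 s hs.1).1)
          (mem_closedBall_zero_iff.mpr (hM1 s hs.1).2) hx
        exact mem_closedBall_zero_iff.mp this
      have h2 := norm_coord_le x
      rw [hRv]
      have : (0 : ℝ) ≤ N := by positivity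
      linarith
    · rintro _ ⟨s, hs, rfl⟩
      rw [ndl_width (hu s hs.1) (slopeLe_ne hu hs)]
      simp only [ndl, coord_apply]
      rw [max_sub_min_eq_abs]
    · -- closedness
      have hcomp : IsCompact ((fun z : (E2 × E2) × ℝ => ((z.1.2 1 - z.1.1 1) / (z.1.2 0 - z.1.1 0),
          z.1.1 1 - (z.1.2 1 - z.1.1 1) / (z.1.2 0 - z.1.1 0) * z.1.1 0, z.1.1 0 + z.2 * (z.1.2 0 - z.1.1 0))) ''
          (slopeLe F N ×ˢ Icc (0 : ℝ) 1)) := by
        refine ((isCompact_slopeLe hFc N).prod isCompact_Icc).image_of_continuousOn ?_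
        have hd : ContinuousOn (fun z : (E2 × E2) × ℝ => (z.1.2 1 - z.1.1 1) / (z.1.2 0 - z.1.1 0))
            (slopeLe F N ×ˢ Icc (0 : ℝ) 1) := by
          refine ContinuousOn.div (by fun_prop) (by fun_prop) ?_
          rintro z ⟨hz, -⟩
          exact slopeLe_ne hu hz
        refine hd.prodMk (ContinuousOn.prodMk ?_ (by fun_prop))
        refine ContinuousOn.sub (by fun_prop) (hd.mul (by fun_prop))
      convert hcomp.isClosed using 1
      ext p
      constructor
      · rintro ⟨_, ⟨s, hs, rfl⟩, h1, h2, h3, h4⟩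
        simp only [ndl, coord_apply] at h1 h2 h3 h4
        have h5 : p.2.2 ∈ segment ℝ (s.1 0) (s.2 0) := by
          rw [segment_eq_uIcc]; exact ⟨h3, h4⟩
        rw [segment_eq_image'] at h5
        obtain ⟨θ, hθ, hθe⟩ := h5
        refine ⟨(s, θ), ⟨hs, hθ⟩, ?_⟩
        refine Prod.ext h1 (Prod.ext h2 ?_)
        simpa using hθe
      · rintro ⟨⟨s, θ⟩, ⟨hs, hθ⟩, rfl⟩
        refine ⟨_, ⟨s, hs, rfl⟩, ?_⟩
        simp only [ndl, coord_apply, true_and]
        have h5 : s.1 0 + θ * (s.2 0 - s.1 0) ∈ segment ℝ (s.1 0) (s.2 0) := by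
          rw [segment_eq_image']
          exact ⟨θ, hθ, by simp⟩
        rw [segment_eq_uIcc] at h5
        exact h5
    · -- no direction with many good lines
      intro σ hσ T hTinj hT
      by_contra hq
      push Not at hq
      apply hcon
      have hw : 0 < wid 1 σ := by rw [wid_one]; have := sqrt_pos' σ; positivity
      have hdir : dir σ = !₂[wid 1 σ, σ * wid 1 σ] := by
        rw [dir, wid_one]
        ext i
        fin_cases i <;> simp [mul_comm]
      have hdir0 : (dir σ) 0 = wid 1 σ := by rw [hdir]; simp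
      have hdir1 : (dir σ) 1 = σ * wid 1 σ := by rw [hdir]; simp
      set pt : ℝ × ℝ → E2 := fun z => !₂[z.2, σ * z.2 + z.1] with hpt
      have hinj : InjOn pt (T : Set (ℝ × ℝ)) := by
        intro z hz z' hz' h
        have h0 : z.2 = z'.2 := by simpa [hpt] using congrArg (fun x : E2 => x 0) h
        have h1 : σ * z.2 + z.1 = σ * z'.2 + z'.1 := by simpa [hpt] using congrArg (fun x : E2 => x 1) h
        rw [h0] at h1
        exact Prod.ext (by linarith) h0
      -- members on the line of slope `σ`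
      have hmem : ∀ β : ℝ, ∀ g ∈ GN N, g.m = σ → g.b = β → g.u = g.t + wid 1 σ ∧
          (!₂[g.t, σ * g.t + β], !₂[g.u, σ * g.u + β]) ∈ F := by
        rintro β _ ⟨s, hs, rfl⟩ hm hb
        have hne := slopeLe_ne hu hs
        have hw1 := ndl_width (hu s hs.1) hne
        rw [hm] at hw1
        have hue : (ndl (coord s.1) (coord s.2)).u = (ndl (coord s.1) (coord s.2)).t + wid 1 σ := by
          rw [hw1]
          simp only [ndl, coord_apply]
          have := max_sub_min_eq_abs (s.1 0) (s.2 0)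
          linarith
        refine ⟨hue, ?_⟩
        simp only [ndl, coord_apply] at hm hb ⊢
        have e1 : s.1 1 = σ * s.1 0 + β := by rw [← hb, hm]; ring
        have e2 : s.2 1 = σ * s.2 0 + β := by
          have : s.2 1 - s.1 1 = σ * (s.2 0 - s.1 0) := by rw [← hm]; field_simp
          linarith
        have e3 : (!₂[s.1 0, σ * s.1 0 + β] : E2) = s.1 := by
          ext i; fin_cases i
          · simp
          · simp [e1]
        have e4 : (!₂[s.2 0, σ * s.2 0 + β] : E2) = s.2 := by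
          ext i; fin_cases i
          · simp
          · simp [e2]
        rcases le_total (s.1 0) (s.2 0) with h | h
        · rw [min_eq_left h, max_eq_right h, e3, e4]
          exact hs.1
        · rw [min_eq_right h, max_eq_left h, e3, e4]
          exact hsymm s hs.1
      refine ⟨σ, hσ, T.image pt, by rwa [Finset.card_image_of_injOn hinj], ?_, ?_⟩
      · intro x hx y hy hxy
        simp only [Finset.coe_image, mem_image, Finset.mem_coe] at hx hy
        obtain ⟨z, hz, rfl⟩ := hx
        obtain ⟨z', hz', rfl⟩ := hy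
        have hzz : z.1 ≠ z'.1 := fun h => hxy (by rw [hTinj hz hz' h])
        rw [dt_dir]
        have h1 := sqrt_pos' σ
        refine mul_ne_zero (by positivity) ?_
        have : (pt z - pt z') 0 * σ - (pt z - pt z') 1 = z'.1 - z.1 := by
          simp [hpt]; ring
        rw [this]
        exact sub_ne_zero.mpr hzz.symm
      · intro x hx
        obtain ⟨z, hz, rfl⟩ := Finset.mem_image.mp hx
        obtain ⟨⟨g, hg, hgm, hgb, hgt, hgu⟩, ⟨g', hg', hgm', hgb', hgt', hgu'⟩⟩ := hT z hz
        obtain ⟨e1, e2⟩ := hmem z.1 g hg hgm hgb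
        obtain ⟨e1', e2'⟩ := hmem z.1 g' hg' hgm' hgb'
        constructor
        · refine ⟨(z.2 - g.t) / wid 1 σ, by apply div_nonneg <;> linarith, ?_, ?_⟩
          · rw [div_le_iff₀ hw]; nlinarith
          · have p1 : pt z - ((z.2 - g.t) / wid 1 σ) • dir σ = !₂[g.t, σ * g.t + z.1] := by
              ext i; fin_cases i
              · simp [hpt, hdir]; field_simp; ring
              · simp [hpt, hdir]; field_simp; ring
            have p2 : pt z + (1 - (z.2 - g.t) / wid 1 σ) • dir σ = !₂[g.u, σ * g.u + z.1] := by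
              rw [e1]
              ext i; fin_cases i
              · simp [hpt, hdir]; field_simp; ring
              · simp [hpt, hdir]; field_simp; ring
            rw [p1, p2]; exact e2
        · refine ⟨(g'.u - z.2) / wid 1 σ, by apply div_nonneg <;> linarith, ?_, ?_⟩
          · rw [div_le_iff₀ hw]; nlinarith
          · have p1 : pt z + ((g'.u - z.2) / wid 1 σ) • dir σ = !₂[g'.u, σ * g'.u + z.1] := by
              ext i; fin_cases i
              · simp [hpt, hdir]; field_simp; ring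
              · simp [hpt, hdir]; field_simp; ring
            have p2 : pt z - (1 - (g'.u - z.2) / wid 1 σ) • dir σ = !₂[g'.t, σ * g'.t + z.1] := by
              have : g'.t = g'.u - wid 1 σ := by linarith
              rw [this]
              ext i; fin_cases i
              · simp [hpt, hdir]; field_simp; ring
              · simp [hpt, hdir]; field_simp; ring
            rw [p1, p2]
            exact hsymm _ e2'
  -- exhaustion
  have hmono : Monotone fun N : ℕ => ⋃ g ∈ GN N, g.seg := by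
    intro N N' hNN
    refine biUnion_subset_biUnion_left ?_
    rintro _ ⟨s, hs, rfl⟩
    refine ⟨s, ⟨hs.1, hs.2.trans ?_⟩, rfl⟩
    have : (N : ℝ) ≤ N' := by exact_mod_cast hNN
    gcongr
  have hNv : volume (⋃ N : ℕ, ⋃ g ∈ GN N, g.seg) ≤
      ENNReal.ofReal (k * π - (δ - δ ^ 2 / 2) * (k - q + 1) * ∫ σ in Ioo a b, (1 + σ ^ 2)⁻¹) := by
    rw [hmono.measure_iUnion]
    exact iSup_le hbd
  -- vertical members
  set FV : Set (E2 × E2) := {s ∈ F | s.1 0 = s.2 0} with hFV
  have hFVnull : volume (UU FV) = 0 := by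
    -- their abscissae form a finite set
    set X : Set ℝ := (fun s : E2 × E2 => s.1 0) '' FV with hX
    have hall : ∀ s ∈ FV, ∀ z ∈ Sg s, z 0 = s.1 0 := by
      intro s hs z hz
      rw [Sg, segment_eq_image'] at hz
      obtain ⟨θ, -, rfl⟩ := hz
      simp [hs.2]
    have hXfin : X.Finite := by
      refine finite_of_card_le (c := k) fun T hT => ?_
      have hch : ∀ x : ℝ, ∃ s : E2 × E2, x ∈ T → s ∈ FV ∧ s.1 0 = x := by
        intro x
        by_cases hx : x ∈ T
        · obtain ⟨s, hs, hsx⟩ := hT hx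
          exact ⟨s, fun _ => ⟨hs, hsx⟩⟩
        · exact ⟨0, fun h => absurd h hx⟩
      choose φ hφ using hch
      have hinj : InjOn φ (T : Set ℝ) := by
        intro x hx x' hx' h
        rw [← (hφ x hx).2, ← (hφ x' hx').2, h]
      have := hk (T.image φ) (by
        intro y hy
        simp only [Finset.coe_image, mem_image, Finset.mem_coe] at hy
        obtain ⟨x, hx, rfl⟩ := hy
        exact (hφ x hx).1.1) (by
        intro y hy z hz hyz
        simp only [Finset.coe_image, mem_image, Finset.mem_coe] at hy hz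
        obtain ⟨x, hx, rfl⟩ := hy
        obtain ⟨x', hx', rfl⟩ := hz
        have hxx : x ≠ x' := fun h => hyz (by rw [h])
        rw [Set.disjoint_left]
        intro w hw hw'
        have e1 := hall _ (hφ x hx).1 w hw
        have e2 := hall _ (hφ x' hx').1 w hw'
        rw [(hφ x hx).2] at e1
        rw [(hφ x' hx').2] at e2
        exact hxx (e1.symm.trans e2))
      rw [Finset.card_image_of_injOn hinj] at this
      exact_mod_cast this
    rw [← volume_coord_image]
    have hsub : coord '' UU FV ⊆ X ×ˢ univ := by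
      rintro _ ⟨z, hz, rfl⟩
      obtain ⟨s, hs, hzs⟩ := mem_UU.mp hz
      refine ⟨⟨s, hs, ?_⟩, mem_univ _⟩
      simp only [coord_apply]
      exact (hall s hs z hzs).symm
    refine measure_mono_null hsub ?_
    rw [Measure.volume_eq_prod, Measure.prod_prod, hXfin.measure_zero, zero_mul]
  have hcov : UU F ⊆ coord ⁻¹' (⋃ N : ℕ, ⋃ g ∈ GN N, g.seg) ∪ UU FV := by
    intro z hz
    obtain ⟨s, hs, hzs⟩ := mem_UU.mp hz
    by_cases hv : s.1 0 = s.2 0
    · right
      exact mem_UU.mpr ⟨s, ⟨hs, hv⟩, hzs⟩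
    · left
      have h1 : s.2 0 - s.1 0 ≠ 0 := sub_ne_zero.mpr (Ne.symm hv)
      obtain ⟨N, hN⟩ := exists_nat_ge (|s.2 1 - s.1 1| / |s.2 0 - s.1 0|)
      rw [div_le_iff₀ (abs_pos.mpr h1)] at hN
      have hsN : s ∈ slopeLe F N := ⟨hs, hN⟩
      rw [mem_preimage, mem_iUnion]
      refine ⟨N, mem_iUnion₂.mpr ⟨_, ⟨s, hsN, rfl⟩, ?_⟩⟩
      rw [hsegim N s hsN]
      exact mem_image_of_mem _ hzs
  have hle : volume (UU F) ≤
      ENNReal.ofReal (k * π - (δ - δ ^ 2 / 2) * (k - q + 1) * ∫ σ in Ioo a b, (1 + σ ^ 2)⁻¹) := by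
    refine (measure_mono hcov).trans ((measure_union_le _ _).trans ?_)
    rw [hFVnull, add_zero, measurePreserving_coord.measure_preimage_equiv]
    exact hNv
  exact absurd hvol (not_lt.mpr hle)

end Pool.Agent.Helper11_Exact
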