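import Mathlib
import Pool.Agent.Helper11_Exact.Bad
import Pool.Agent.Helper11_Exact.Refined

set_option autoImplicit false

open Set Filter Topology MeasureTheory Real
open scoped ENNReal
open Pool.Agent.Helper11_Thin

namespace Pool.Agent.Helper11_Exact

theorem continuous_dir : Continuous dir := by
  unfold dir
  have h : ∀ σ : ℝ, √(1 + σ ^ 2) ≠ 0 := fun σ => (sqrt_pos' σ).ne'
  have h1 : Continuous (fun σ : ℝ => 1 / √(1 + σ ^ 2)) := by
    refine Continuous.div continuous_const (by fun_prop) h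
  have h2 : Continuous (fun σ : ℝ => (!₂[1, σ] : E2)) := by fun_prop
  exact h1.smul h2

theorem omega_pos {a b : ℝ} (hab : a < b) : 0 < ∫ σ in Ioo a b, (1 + σ ^ 2)⁻¹ := by
  have hint : Integrable (fun σ : ℝ => (1 + σ ^ 2)⁻¹) := integrable_inv_one_add_sq
  rw [setIntegral_pos_iff_support_of_nonneg_ae (Eventually.of_forall fun σ => by positivity)
    hint.integrableOn]
  have : Function.support (fun σ : ℝ => (1 + σ ^ 2)⁻¹) ∩ Ioo a b = Ioo a b := by
    refine inter_eq_right.mpr fun σ _ => ?_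
    rw [Function.mem_support]; positivity
  rw [this, Real.volume_Ioo]
  simp [hab]

/-- Points of `Sg (p - α v, p + (1 - α) v)`. -/
theorem mem_needle {p v y : E2} {α : ℝ} :
    y ∈ Sg (p - α • v, p + (1 - α) • v) ↔ ∃ t : ℝ, -α ≤ t ∧ t ≤ 1 - α ∧ y = p + t • v := by
  rw [Sg, segment_eq_image']
  constructor
  · rintro ⟨θ, ⟨h0, h1⟩, rfl⟩
    refine ⟨θ - α, by linarith, by linarith, ?_⟩
    simp only
    module
  · rintro ⟨t, h0, h1, rfl⟩
    refine ⟨t + α, ⟨by linarith, by linarith⟩, ?_⟩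
    simp only
    module

theorem mem_needle' {p v y : E2} {α : ℝ} :
    y ∈ Sg (p + α • v, p - (1 - α) • v) ↔ ∃ t : ℝ, -(1 - α) ≤ t ∧ t ≤ α ∧ y = p + t • v := by
  have e : (p + α • v, p - (1 - α) • v) = (p - α • (-v), p + (1 - α) • (-v)) := by
    refine Prod.ext ?_ ?_ <;> simp [sub_eq_add_neg]
  rw [e, mem_needle]
  constructor
  · rintro ⟨t, h0, h1, rfl⟩
    exact ⟨-t, by linarith, by linarith, by simp⟩
  · rintro ⟨t, h0, h1, rfl⟩
    exact ⟨-t, by linarith, by linarith, by simp⟩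

theorem approx_exists {G : Set (E2 × E2)} (hG : Cls G) (hne : G.Nonempty) (s : ℕ → ℝ) (m : ℕ) :
    ∃ x, (∃ S ∈ G, x ∈ Sg S) ∧ ∀ j < m, ∃ (v : E2) (A : Set E2), Approx G (dir (s j)) x m v A := by
  classical
  set e : ℝ := 1 / ((m : ℝ) + 1) with he
  have hm0 : (0 : ℝ) ≤ m := by positivity
  have he0 : 0 < e := by positivity
  have he1 : e ≤ 1 := by rw [he, div_le_one (by positivity)]; linarith
  -- windows
  have hwin : ∀ j, ∃ η > 0, ∀ σ, dist σ (s j) < η → dist (dir σ) (dir (s j)) < e := fun j =>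
    Metric.continuousAt_iff.mp continuous_dir.continuousAt e he0
  choose η hη hwin using hwin
  set ω : ℕ → ℝ := fun j => ∫ σ in Ioo (s j - η j) (s j + η j), (1 + σ ^ 2)⁻¹ with hω
  have hω0 : ∀ j, 0 < ω j := fun j => omega_pos (by linarith [hη j])
  set δ' : ℝ := e - e ^ 2 / 2 with hδ'
  have hδ'0 : 0 < δ' := by rw [hδ']; nlinarith
  set γ : ℝ := 1 / (2 * ((m : ℝ) + 1) * ((m : ℝ) + 6) ^ 2) with hγ
  have hγ0 : 0 < γ := by positivity
  have hγ1 : γ < 1 := by
    rw [hγ, div_lt_one (by positivity)]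
    nlinarith [mul_nonneg hm0 hm0]
  obtain ⟨ε, hε0, hε1, hεj⟩ : ∃ ε : ℝ, 0 < ε ∧ ε ≤ 1 / 2 ∧ ∀ j ∈ Finset.range m, π * ε < δ' * γ * ω j := by
    have h1 : ∀ᶠ ε in 𝓝[>] (0 : ℝ), ∀ j ∈ Finset.range m, π * ε < δ' * γ * ω j := by
      rw [Filter.eventually_all_finset]
      intro j _
      have h2 : Tendsto (fun ε : ℝ => π * ε) (𝓝[>] 0) (𝓝 (π * 0)) :=
        (continuous_const.mul continuous_id).continuousAt.tendsto.mono_left nhdsWithin_le_nhds
      rw [mul_zero] at h2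
      exact h2.eventually_lt_const (mul_pos (mul_pos hδ'0 hγ0) (hω0 j))
    have h2 : ∀ᶠ ε in 𝓝[>] (0 : ℝ), ε < 1 / 2 :=
      (eventually_lt_nhds (by norm_num)).filter_mono nhdsWithin_le_nhds
    obtain ⟨ε, ⟨h3, h4⟩, h5⟩ := ((h1.and h2).and self_mem_nhdsWithin).exists
    exact ⟨ε, h5, h4.le, h3⟩
  obtain ⟨S₀, hS₀⟩ := hne
  set c : E2 := S₀.1 with hc
  have hS₀u := hG.unit1 S₀ hS₀
  -- area function
  set a : ℝ → ℝ := fun R => (volume (UU G ∩ Metric.closedBall c R)).toReal with ha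
  have hafin : ∀ R, volume (UU G ∩ Metric.closedBall c R) ≠ ∞ := fun R =>
    ((measure_mono inter_subset_right).trans_lt measure_closedBall_lt_top).ne
  have haof : ∀ R, volume (UU G ∩ Metric.closedBall c R) = ENNReal.ofReal (a R) := fun R =>
    (ENNReal.ofReal_toReal (hafin R)).symm
  have ha0 : ∀ R, 0 ≤ a R := fun R => ENNReal.toReal_nonneg
  have hamono : ∀ R R', R ≤ R' → a R ≤ a R' := fun R R' h =>
    ENNReal.toReal_mono (hafin R') (measure_mono (inter_subset_inter_right _ (Metric.closedBall_subset_closedBall h)))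
  have hale : ∀ R, 0 ≤ R → a R ≤ π * R ^ 2 := by
    intro R hR
    have h1 := measure_mono (μ := (volume : Measure E2)) (inter_subset_right (s := UU G) (t := Metric.closedBall c R))
    rw [haof, volume_closedBall_E2 c hR, ENNReal.ofReal_le_ofReal_iff (by positivity)] at h1
    exact h1
  have hMeetR : ∀ (V : Set E2) (R : ℝ), V ⊆ Metric.closedBall c R →
      volume (UU (Meet G V)) ≤ ENNReal.ofReal (a (R + 1)) := by
    intro V R hV
    rw [← haof]
    exact measure_mono (subset_inter (UU_mono fun s hs => hs.1) (UU_Meet_subset hG.unit1 hV))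
  have hSg0 : Sg S₀ ⊆ Metric.closedBall c 1 := by
    intro y hy
    have := dist_le_of_mem_Sg hy (left_mem_Sg S₀)
    rwa [hS₀u] at this
  have ha2 : π ≤ a 2 := by
    have h1 := hG.Q {S₀} (by simpa using hS₀) (by simp)
    have h2 := h1.trans (hMeetR _ 1 (by simpa using hSg0))
    rw [ENNReal.ofReal_le_ofReal_iff (ha0 _)] at h2
    norm_num at h2
    exact h2
  -- growth
  obtain ⟨j0, hj0⟩ : ∃ j : ℕ, a (((j + 1 : ℕ) + 1) * ((m : ℝ) + 2)) < (1 + ε) * a (((j : ℝ) + 1) * ((m : ℝ) + 2)) := by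
    by_contra hcon
    push Not at hcon
    refine growth (ε := ε) (c := π) (C := π * ((m : ℝ) + 2) ^ 2) hε0 pi_pos
      (fun j : ℕ => a (((j : ℝ) + 1) * ((m : ℝ) + 2))) ?_ ?_ ?_
    · intro j
      exact hcon j
    · refine ha2.trans (hamono _ _ ?_)
      push_cast
      linarith
    · intro j
      refine (hale _ (by positivity)).trans (le_of_eq ?_)
      ring
  set R' : ℝ := ((j0 : ℝ) + 1) * ((m : ℝ) + 2) with hR'
  have hR'2 : 2 ≤ R' := by
    rw [hR']
    have : (0 : ℝ) ≤ j0 := by positivity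
    nlinarith
  set R : ℝ := R' + m + 1 with hR
  have hR'' : (((j0 + 1 : ℕ) : ℝ) + 1) * ((m : ℝ) + 2) = R + 1 := by
    rw [hR, hR']; push_cast; ring
  rw [hR''] at hj0
  -- the window
  set W : Set (E2 × E2) := {S ∈ G | dist S.1 c ≤ R ∧ dist S.2 c ≤ R} with hW
  have hWG : W ⊆ G := fun s hs => hs.1
  have hWu : Unit1 W := fun s hs => hG.unit1 s hs.1
  have hWc : IsCompact W := by
    have h1 : IsClosed W := by
      refine hG.1.inter (IsClosed.inter ?_ ?_)
      · exact isClosed_le (f := fun S : E2 × E2 => dist S.1 c) (by fun_prop) continuous_const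
      · exact isClosed_le (f := fun S : E2 × E2 => dist S.2 c) (by fun_prop) continuous_const
    refine (isCompact_closedBall (c, c) R).of_isClosed_subset h1 ?_
    intro S hS
    exact dist_prod_le hS.2
  have hWsymm : ∀ S ∈ W, S.swap ∈ W := fun S hS => ⟨hG.symm hS.1, hS.2.2, hS.2.1⟩
  have hWball : ∀ S ∈ W, Sg S ⊆ Metric.closedBall c R := fun S hS =>
    (convex_closedBall c R).segment_subset hS.2.1 hS.2.2
  have hWin : ∀ S ∈ G, ∀ y ∈ Sg S, dist y c ≤ R - 1 → S ∈ W := by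
    intro S hS y hy hyc
    have := bounded_of_meet (hG.unit1 S hS) hy hyc
    exact ⟨hS, by linarith [this.1], by linarith [this.2]⟩
  have hR0 : 0 ≤ R := by rw [hR]; linarith
  -- maximal number of disjoint members
  obtain ⟨b, hb⟩ := exists_nat_ge ((R + 1) ^ 2)
  obtain ⟨k, ⟨T₀, hT₀W, hT₀d, hT₀k⟩, hkmax⟩ := exists_max_nat
    (P := fun n => ∃ T : Finset (E2 × E2), (T : Set (E2 × E2)) ⊆ W ∧
      (T : Set (E2 × E2)).Pairwise (fun s t => Disjoint (Sg s) (Sg t)) ∧ T.card = n)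
    ⟨0, ∅, by simp, by simp, rfl⟩ (b := b) (by
      rintro n ⟨T, hT, hTd, rfl⟩
      have := hG.card_le T (hT.trans hWG) hTd (c := c) hR0 (fun s hs => hWball s (hT hs))
      exact_mod_cast this.trans hb)
  have hk : ∀ T : Finset (E2 × E2), (T : Set (E2 × E2)) ⊆ W →
      (T : Set (E2 × E2)).Pairwise (fun s t => Disjoint (Sg s) (Sg t)) → T.card ≤ k :=
    fun T hT hTd => hkmax _ ⟨T, hT, hTd, rfl⟩
  have hk1 : 1 ≤ k := by
    have hS₀W : S₀ ∈ W := hWin S₀ hS₀ S₀.1 (left_mem_Sg S₀) (by rw [dist_self]; rw [hR]; linarith)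
    have := hk {S₀} (by simpa using hS₀W) (by simp)
    simpa using this
  have hk1' : (1 : ℝ) ≤ k := by exact_mod_cast hk1
  have hkarea : π * k ≤ a (R + 1) := by
    have h1 := (hG.Q T₀ (hT₀W.trans hWG) hT₀d).trans (hMeetR _ R (iUnion₂_subset fun t ht => hWball t (hT₀W ht)))
    rw [ENNReal.ofReal_le_ofReal_iff (ha0 _), hT₀k] at h1
    exact h1
  have hmain : π * k < (1 + ε) * a R' := hkarea.trans_lt hj0
  have hsub : UU G ∩ Metric.closedBall c R' ⊆ UU W := by
    rintro x ⟨hx, hxc⟩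
    obtain ⟨S, hS, hxS⟩ := mem_UU.mp hx
    refine mem_UU.mpr ⟨S, hWin S hS x hxS ?_, hxS⟩
    have : dist x c ≤ R' := hxc
    rw [hR]; linarith
  -- number of good lines
  set q : ℕ := k - ⌊γ * k⌋₊ with hq
  have hfl : (⌊γ * k⌋₊ : ℝ) ≤ γ * k := Nat.floor_le (by positivity)
  have hfl2 : γ * k < ⌊γ * k⌋₊ + 1 := Nat.lt_floor_add_one _
  have hflk : ⌊γ * k⌋₊ < k := by
    have : (⌊γ * k⌋₊ : ℝ) < k := by nlinarith
    exact_mod_cast this
  have hq1 : 1 ≤ q := by omega
  have hqk : q ≤ k := by omega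
  have hkq : (k : ℝ) - q = ⌊γ * k⌋₊ := by
    rw [hq, Nat.cast_sub hflk.le]; ring
  have href : ∀ j < m, ∃ σ ∈ Ioo (s j - η j) (s j + η j), ∃ A : Finset E2, q ≤ A.card ∧
      (A : Set E2).Pairwise (fun p p' => dt (p - p') (dir σ) ≠ 0) ∧
      ∀ p ∈ A, (∃ α : ℝ, 0 ≤ α ∧ α ≤ e ∧ (p - α • dir σ, p + (1 - α) • dir σ) ∈ W) ∧
        ∃ α : ℝ, 0 ≤ α ∧ α ≤ e ∧ (p + α • dir σ, p - (1 - α) • dir σ) ∈ W := by
    intro j hj
    refine refined hWc hWu hWsymm k hk _ _ e he0.le he1 q hq1 hqk ?_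
    refine lt_of_lt_of_le ?_ (measure_mono hsub)
    rw [haof, ENNReal.ofReal_lt_ofReal_iff (by nlinarith [pi_pos])]
    have h1 := hεj j (Finset.mem_range.mpr hj)
    have h2 : δ' * (γ * k) * ω j ≤ δ' * (k - q + 1) * ω j := by
      have h3 : γ * k ≤ k - q + 1 := by rw [hkq]; linarith
      have h4 := (hω0 j).le
      gcongr
    have h3 : π * ε * k < δ' * (γ * k) * ω j := by
      have : π * ε * k < δ' * γ * ω j * k := by
        have : (0 : ℝ) < k := by linarith
        exact mul_lt_mul_of_pos_right h1 this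
      linarith
    have h4 : π * k * (1 - ε) ≤ a R' := by
      have h5 : π * k * (1 - ε) ≤ (1 + ε) * a R' * (1 - ε) := by
        have : 0 ≤ 1 - ε := by linarith
        exact mul_le_mul_of_nonneg_right hmain.le this
      have h6 : (1 + ε) * a R' * (1 - ε) = a R' - ε ^ 2 * a R' := by ring
      have h7 : 0 ≤ ε ^ 2 * a R' := mul_nonneg (sq_nonneg _) (ha0 _)
      linarith
    have h5 : (e - e ^ 2 / 2) * (k - q + 1) * ∫ σ in Ioo (s j - η j) (s j + η j), (1 + σ ^ 2)⁻¹ =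
        δ' * (k - q + 1) * ω j := rfl
    rw [h5]
    linarith
  -- choose the data
  have hdata : ∀ j, ∃ (σ : ℝ) (A : Finset E2) (αp αm : E2 → ℝ), j < m → (σ ∈ Ioo (s j - η j) (s j + η j) ∧ q ≤ A.card ∧
      (A : Set E2).Pairwise (fun p p' => dt (p - p') (dir σ) ≠ 0) ∧
      (∀ p ∈ A, 0 ≤ αp p ∧ αp p ≤ e ∧ (p - αp p • dir σ, p + (1 - αp p) • dir σ) ∈ W) ∧
      ∀ p ∈ A, 0 ≤ αm p ∧ αm p ≤ e ∧ (p + αm p • dir σ, p - (1 - αm p) • dir σ) ∈ W) := by
    intro j
    by_cases hj : j < m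
    · obtain ⟨σ, hσ, A, hA1, hA2, hA3⟩ := href j hj
      choose! αp hαp using fun p hp => (hA3 p hp).1
      choose! αm hαm using fun p hp => (hA3 p hp).2
      exact ⟨σ, A, αp, αm, fun _ => ⟨hσ, hA1, hA2, hαp, hαm⟩⟩
    · exact ⟨0, ∅, 0, 0, fun h => absurd h hj⟩
  choose σ A αp αm hdata using hdata
  set sp : ℕ → E2 → E2 × E2 := fun j p => (p - αp j p • dir (σ j), p + (1 - αp j p) • dir (σ j)) with hsp
  set sm : ℕ → E2 → E2 × E2 := fun j p => (p + αm j p • dir (σ j), p - (1 - αm j p) • dir (σ j)) with hsm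
  have hbad : ∀ j, ∃ X : Finset (E2 × E2), j < m → (X.card + (A j).card ≤ k ∧
      ∀ S ∈ W, (¬ ∃ p ∈ A j, (Sg S ∩ Sg (sp j p)).Nonempty ∧ (Sg S ∩ Sg (sm j p)).Nonempty) →
        ∃ S' ∈ X, dist S.1 S'.1 < 5) := by
    intro j
    by_cases hj : j < m
    · obtain ⟨-, -, hA2, hA3, hA4⟩ := hdata j hj
      obtain ⟨X, hX1, hX2⟩ := bad_cover hWu hk (A j) (dir (σ j)) hA2 (sp j) (sm j) (by
          intro p hp
          obtain ⟨h1, h2, h3⟩ := hA3 p hp
          refine ⟨h3, mem_needle.mpr ⟨0, by linarith, by linarith, by simp⟩, fun y hy => ?_⟩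
          obtain ⟨t, -, -, ht⟩ := mem_needle.mp hy
          exact ⟨t, ht⟩) (by
          intro p hp
          obtain ⟨h1, h2, h3⟩ := hA4 p hp
          refine ⟨h3, mem_needle'.mpr ⟨0, by linarith, by linarith, by simp⟩, fun y hy => ?_⟩
          obtain ⟨t, -, -, ht⟩ := mem_needle'.mp hy
          exact ⟨t, ht⟩)
      exact ⟨X, fun _ => ⟨hX1, hX2⟩⟩
    · exact ⟨∅, fun h => absurd h hj⟩
  choose X hX using hbad
  -- the excluded region
  obtain ⟨x, ⟨hxU, hxc⟩, hxX⟩ : ∃ x, (x ∈ UU G ∧ x ∈ Metric.closedBall c R') ∧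
      ∀ j ∈ Finset.range m, ∀ S' ∈ X j, (m : ℝ) + 6 < dist x S'.1 := by
    by_contra hcon
    push Not at hcon
    have hcov : UU G ∩ Metric.closedBall c R' ⊆ ⋃ j ∈ Finset.range m, ⋃ S' ∈ X j, Metric.closedBall S'.1 ((m : ℝ) + 6) := by
      intro x hx
      obtain ⟨j, hj, S', hS', hd⟩ := hcon x hx
      exact mem_iUnion₂.mpr ⟨j, hj, mem_iUnion₂.mpr ⟨S', hS', hd⟩⟩
    have hv : volume (UU G ∩ Metric.closedBall c R') ≤ ENNReal.ofReal (m * (γ * k * (π * ((m : ℝ) + 6) ^ 2))) := by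
      refine (measure_mono hcov).trans ((measure_biUnion_finset_le _ _).trans ?_)
      have hj : ∀ j ∈ Finset.range m, volume (⋃ S' ∈ X j, Metric.closedBall S'.1 ((m : ℝ) + 6)) ≤
          ENNReal.ofReal (γ * k * (π * ((m : ℝ) + 6) ^ 2)) := by
        intro j hj
        refine (measure_biUnion_finset_le _ _).trans ?_
        have h1 : ∀ S' ∈ X j, volume (Metric.closedBall S'.1 ((m : ℝ) + 6)) = ENNReal.ofReal (π * ((m : ℝ) + 6) ^ 2) :=
          fun S' _ => volume_closedBall_E2 _ (by positivity)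
        rw [Finset.sum_congr rfl h1, Finset.sum_const, nsmul_eq_mul, ← ENNReal.ofReal_natCast,
          ← ENNReal.ofReal_mul (Nat.cast_nonneg _)]
        refine ENNReal.ofReal_le_ofReal ?_
        have h2 := (hX j (Finset.mem_range.mp hj)).1
        have h3 := (hdata j (Finset.mem_range.mp hj)).2.1
        have h4 : (X j).card ≤ ⌊γ * k⌋₊ := by omega
        have h5 : ((X j).card : ℝ) ≤ γ * k := le_trans (by exact_mod_cast h4) hfl
        gcongr
      refine (Finset.sum_le_sum hj).trans ?_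
      rw [Finset.sum_const, Finset.card_range, nsmul_eq_mul, ← ENNReal.ofReal_natCast,
        ← ENNReal.ofReal_mul (Nat.cast_nonneg _)]
    rw [haof, ENNReal.ofReal_le_ofReal_iff (by positivity)] at hv
    have h1 : (m : ℝ) * (γ * k * (π * ((m : ℝ) + 6) ^ 2)) = (m / ((m : ℝ) + 1)) * (π * k / 2) := by
      rw [hγ]; field_simp
    rw [h1] at hv
    have h2 : (m : ℝ) / ((m : ℝ) + 1) ≤ 1 := by rw [div_le_one (by positivity)]; linarith
    have h3 : (m / ((m : ℝ) + 1)) * (π * k / 2) ≤ 1 * (π * k / 2) := by gcongr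
    nlinarith [pi_pos, ha0 R']
  refine ⟨x, mem_UU.mp hxU, fun j hj => ⟨dir (σ j), A j, ?_⟩⟩
  obtain ⟨hσ, hA1, hA2, hA3, hA4⟩ := hdata j hj
  refine ⟨?_, ?_, ?_, ?_, ?_⟩
  · refine (hwin j (σ j) ?_).le
    rw [Real.dist_eq, abs_lt]
    exact ⟨by linarith [hσ.1], by linarith [hσ.2]⟩
  · rintro S hS ⟨y, hy, hyx⟩
    have hxc' : dist x c ≤ R' := hxc
    have hSW : S ∈ W := hWin S hS y hy (by rw [hR]; linarith [dist_triangle y x c])
    have hanch : ∃ p ∈ A j, (Sg S ∩ Sg (sp j p)).Nonempty ∧ (Sg S ∩ Sg (sm j p)).Nonempty := by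
      by_contra hcon
      obtain ⟨S', hS', hd⟩ := (hX j hj).2 S hSW hcon
      have h1 := hxX j (Finset.mem_range.mpr hj) S' hS'
      have h2 := dist_le_of_mem_Sg hy (left_mem_Sg S)
      rw [hG.unit1 S hS] at h2
      have h3 := dist_triangle4 x y S.1 S'.1
      rw [dist_comm x y] at h3
      linarith
    obtain ⟨p, hp, ⟨y₁, hy₁, hy₁'⟩, ⟨y₂, hy₂, hy₂'⟩⟩ := hanch
    refine ⟨p, hp, ?_⟩
    obtain ⟨t₁, ht₁, ht₁', e₁⟩ := mem_needle.mp hy₁'
    obtain ⟨t₂, ht₂, ht₂', e₂⟩ := mem_needle'.mp hy₂'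
    obtain ⟨hp1, hp2, -⟩ := hA3 p hp
    obtain ⟨hm1, hm2, -⟩ := hA4 p hp
    have hdist : ∀ t : ℝ, dist p (p + t • dir (σ j)) = |t| := by
      intro t
      rw [dist_self_add_right, norm_smul, norm_dir, mul_one, Real.norm_eq_abs]
    by_cases h1 : t₁ ≤ e
    · refine ⟨y₁, hy₁, ?_⟩
      rw [e₁, hdist]
      exact abs_le.mpr ⟨by linarith, h1⟩
    · push Not at h1
      by_cases h2 : -e ≤ t₂
      · refine ⟨y₂, hy₂, ?_⟩
        rw [e₂, hdist]
        exact abs_le.mpr ⟨h2, by linarith⟩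
      · push Not at h2
        refine ⟨p, ?_, by rw [dist_self]; exact he0.le⟩
        have hconv : Convex ℝ (Sg S) := convex_segment _ _
        refine hconv.segment_subset hy₁ hy₂ ?_
        rw [segment_eq_image']
        have hpos : 0 < t₁ - t₂ := by linarith
        refine ⟨t₁ / (t₁ - t₂), ⟨div_nonneg (by linarith) hpos.le, ?_⟩, ?_⟩
        · rw [div_le_one hpos]; linarith
        · rw [e₁, e₂]
          simp only
          have h3 : p + t₂ • dir (σ j) - (p + t₁ • dir (σ j)) = (-(t₁ - t₂)) • dir (σ j) := by module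
          rw [h3, smul_smul]
          have h4 : t₁ / (t₁ - t₂) * -(t₁ - t₂) = -t₁ := by field_simp
          rw [h4]
          module
  · intro p hp
    obtain ⟨h1, h2, h3⟩ := hA3 p hp
    refine ⟨_, hWG h3, ?_⟩
    rw [Prod.dist_eq]
    refine max_le ?_ ?_
    · simp only [dist_self_sub_left, norm_smul, norm_dir, mul_one, Real.norm_eq_abs, abs_of_nonneg h1]
      exact h2
    · simp only [dist_add_left]
      rw [dist_eq_norm, show (1 - αp j p) • dir (σ j) - dir (σ j) = -(αp j p • dir (σ j)) by module, norm_neg, norm_smul,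
        norm_dir, mul_one, Real.norm_eq_abs, abs_of_nonneg h1]
      exact h2
  · intro p hp
    obtain ⟨h1, h2, h3⟩ := hA4 p hp
    refine ⟨_, hWG h3, ?_⟩
    rw [Prod.dist_eq]
    refine max_le ?_ ?_
    · simp only [dist_self_add_left, norm_smul, norm_dir, mul_one, Real.norm_eq_abs, abs_of_nonneg h1]
      exact h2
    · simp only [dist_sub_left]
      rw [dist_eq_norm, show (1 - αm j p) • dir (σ j) - dir (σ j) = -(αm j p • dir (σ j)) by module, norm_neg, norm_smul,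
        norm_dir, mul_one, Real.norm_eq_abs, abs_of_nonneg h1]
      exact h2
  · intro T hT c₀ R₀ hR₀ hTc
    have hTA : ∀ p ∈ T, p ∈ A j := fun p hp => hT hp
    have hpin : ∀ p ∈ T, p ∈ Sg (sp j p) := by
      intro p hp
      obtain ⟨h1, h2, h3⟩ := hA3 p (hTA p hp)
      exact mem_needle.mpr ⟨0, by linarith, by linarith, by simp⟩
    have hdisj : ∀ p ∈ T, ∀ p' ∈ T, p ≠ p' → Disjoint (Sg (sp j p)) (Sg (sp j p')) := by
      intro p hp p' hp' hne
      rw [Set.disjoint_left]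
      intro z hz hz'
      obtain ⟨t, -, -, ht⟩ := mem_needle.mp hz
      obtain ⟨t', -, -, ht'⟩ := mem_needle.mp hz'
      apply hA2 (hTA p hp) (hTA p' hp') hne
      have e1 : p - p' = (t' - t) • dir (σ j) := by
        have h2 : p = p' + t' • dir (σ j) - t • dir (σ j) := by rw [← ht', ht]; abel
        rw [h2]; module
      rw [e1]
      have := dt_smul_self (t' - t) 1 (dir (σ j))
      simpa using this
    have hinj : InjOn (sp j) (T : Set E2) := by
      intro p hp p' hp' h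
      by_contra hne
      have := hdisj p hp p' hp' hne
      rw [h] at this
      exact Set.disjoint_left.mp this (hpin p' hp') (hpin p' hp')
    have := hG.card_le (T.image (sp j)) (by
      intro S hS
      simp only [Finset.coe_image, mem_image, Finset.mem_coe] at hS
      obtain ⟨p, hp, rfl⟩ := hS
      exact hWG (hA3 p (hTA p hp)).2.2) (by
      intro S hS S' hS' hne
      simp only [Finset.coe_image, mem_image, Finset.mem_coe] at hS hS'
      obtain ⟨p, hp, rfl⟩ := hS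
      obtain ⟨p', hp', rfl⟩ := hS'
      exact hdisj p hp p' hp' (fun h => hne (by rw [h]))) (c := c₀) (R := R₀ + 1) (by linarith) (by
      intro S hS
      obtain ⟨p, hp, rfl⟩ := Finset.mem_image.mp hS
      intro y hy
      have h1 := dist_le_of_mem_Sg hy (hpin p hp)
      have h2 : dist (sp j p).1 (sp j p).2 = 1 := hG.unit1 _ (hWG (hA3 p (hTA p hp)).2.2)
      rw [h2] at h1
      exact Metric.mem_closedBall.mpr (by linarith [dist_triangle y p c₀, hTc p hp]))
    rw [Finset.card_image_of_injOn hinj] at this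
    refine this.trans ?_
    nlinarith

end Pool.Agent.Helper11_Exact
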