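import Mathlib
import Pool.Agent.Helper11_Exact.Location

set_option autoImplicit false

open Set Filter Topology MeasureTheory Real
open scoped ENNReal
open Pool.Agent.Helper11_Thin

namespace Pool.Agent.Helper11_Exact

/-- An enumeration of rational slopes. -/
noncomputable def slp (j : ℕ) : ℝ := (((Denumerable.eqv ℚ).symm j : ℚ) : ℝ)

theorem slp_injective : Function.Injective slp := by
  intro i j h
  unfold slp at h
  exact (Denumerable.eqv ℚ).symm.injective (Rat.cast_injective h)

theorem exists_slp (σ : ℝ) {r : ℝ} (hr : 0 < r) : ∃ j, dist (dir (slp j)) (dir σ) < r := by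
  obtain ⟨η, hη, h⟩ := Metric.continuousAt_iff.mp continuous_dir.continuousAt r hr
  obtain ⟨x, hx1, hx2⟩ := exists_rat_btwn (show σ - η < σ + η by linarith)
  refine ⟨Denumerable.eqv ℚ x, h ?_⟩
  have : slp (Denumerable.eqv ℚ x) = x := by simp [slp]
  rw [this, Real.dist_eq, abs_lt]
  exact ⟨by linarith, by linarith⟩

theorem dir_near_vertical {σ : ℝ} (hσ : 0 < σ) : dist (dir σ) (!₂[0, 1] : E2) ≤ 2 / σ := by
  have hs := sqrt_pos' σ
  have h1 : σ ≤ √(1 + σ ^ 2) := Real.le_sqrt_of_sq_le (by linarith)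
  have h2 : √(1 + σ ^ 2) ≤ 1 + σ := by
    rw [Real.sqrt_le_left (by positivity)]; nlinarith
  rw [EuclideanSpace.dist_eq, Fin.sum_univ_two]
  rw [Real.sqrt_le_left (by positivity)]
  simp only [Real.dist_eq, sq_abs]
  have e0 : (dir σ) 0 = 1 / √(1 + σ ^ 2) := by simp [dir]
  have e1 : (dir σ) 1 = σ / √(1 + σ ^ 2) := by simp [dir]; ring
  rw [e0, e1]
  simp only [Matrix.cons_val_zero, Matrix.cons_val_one, sub_zero]
  have h3 : 0 < 1 / √(1 + σ ^ 2) := by positivity
  have h4 : 1 / √(1 + σ ^ 2) ≤ 1 / σ := one_div_le_one_div_of_le hσ h1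
  have h5 : 1 - σ / √(1 + σ ^ 2) ≤ 1 / σ := by
    have : 1 - σ / √(1 + σ ^ 2) = (√(1 + σ ^ 2) - σ) * (1 / √(1 + σ ^ 2)) := by field_simp
    rw [this]
    nlinarith
  have h6 : 0 ≤ 1 - σ / √(1 + σ ^ 2) := by
    rw [sub_nonneg, div_le_one hs]; exact h1
  have h7 : (2 / σ) ^ 2 = 4 * (1 / σ) ^ 2 := by rw [div_pow, div_pow]; ring
  rw [h7]
  have h8 : 0 < 1 / σ := by positivity
  nlinarith

theorem dense_slp (v : E2) (hv : ‖v‖ = 1) (r : ℝ) (hr : 0 < r) :
    ∃ j, dist (dir (slp j)) v < r ∨ dist (-(dir (slp j))) v < r := by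
  have hn : v 0 ^ 2 + v 1 ^ 2 = 1 := by
    have h := EuclideanSpace.norm_sq_eq v
    rw [hv, Fin.sum_univ_two] at h
    simp only [Real.norm_eq_abs, sq_abs] at h
    linarith
  by_cases h0 : v 0 = 0
  · -- vertical direction
    rw [h0] at hn
    obtain ⟨j, hj⟩ := exists_slp (2 / (r / 2)) (show 0 < r / 2 by positivity)
    have h1 := dir_near_vertical (show 0 < 2 / (r / 2) by positivity)
    have h2 : 2 / (2 / (r / 2)) = r / 2 := by field_simp
    rw [h2] at h1
    have h3 : dist (dir (slp j)) (!₂[0, 1] : E2) < r := by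
      linarith [dist_triangle (dir (slp j)) (dir (2 / (r / 2))) (!₂[0, 1] : E2)]
    have h4 : v 1 = 1 ∨ v 1 = -1 := by
      have : (v 1 - 1) * (v 1 + 1) = 0 := by linarith
      rcases mul_eq_zero.mp this with h | h
      · left; linarith
      · right; linarith
    rcases h4 with h4 | h4
    · refine ⟨j, Or.inl ?_⟩
      have : v = !₂[0, 1] := by
        ext i; fin_cases i
        · simpa using h0
        · simpa using h4
      rw [this]; exact h3
    · refine ⟨j, Or.inr ?_⟩
      have : v = -(!₂[0, 1] : E2) := by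
        ext i; fin_cases i
        · simpa using h0
        · simpa using h4
      rw [this, dist_neg_neg]; exact h3
  · obtain ⟨j, hj⟩ := exists_slp (v 1 / v 0) hr
    have hs : √(1 + (v 1 / v 0) ^ 2) = 1 / |v 0| := by
      have : 1 + (v 1 / v 0) ^ 2 = (1 / |v 0|) ^ 2 := by
        rw [div_pow, div_pow, sq_abs, one_pow]
        field_simp
        linarith
      rw [this, Real.sqrt_sq (by positivity)]
    have e0 : (dir (v 1 / v 0)) 0 = |v 0| := by
      simp only [dir, hs, one_div_one_div]; simp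
    have e1 : (dir (v 1 / v 0)) 1 = |v 0| * (v 1 / v 0) := by
      simp only [dir, hs, one_div_one_div]; simp
    rcases lt_or_gt_of_ne h0 with h | h
    · refine ⟨j, Or.inr ?_⟩
      have : v = -(dir (v 1 / v 0)) := by
        ext i; fin_cases i
        · simp only [Fin.zero_eta, PiLp.neg_apply, e0, abs_of_neg h, neg_neg]
        · simp only [Fin.mk_one, PiLp.neg_apply, e1, abs_of_neg h]; field_simp
      rw [this, dist_neg_neg]; exact hj
    · refine ⟨j, Or.inl ?_⟩
      have : v = dir (v 1 / v 0) := by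
        ext i; fin_cases i
        · simp only [Fin.zero_eta, e0, abs_of_pos h]
        · simp only [Fin.mk_one, e1, abs_of_pos h]; field_simp
      rw [this]; exact hj

/-- Thin families of diameter one: area of the union at most `π ν`. -/
theorem exact_core :
    ∃ η > 0, ∀ (n : ℕ) (K : Fin n → Set E2),
      (∀ i, Convex ℝ (K i) ∧ IsCompact (K i) ∧ (K i).Nonempty ∧ Metric.diam (K i) = 1 ∧
        volume (K i) ≤ ENNReal.ofReal η) →
      volume (⋃ i, K i) ≤ ENNReal.ofReal (π * nu K Finset.univ) := by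
  by_contra hcon
  push Not at hcon
  obtain ⟨G, hG, hne⟩ := exists_Cls fun r hr => by
    obtain ⟨n, K, hK, hv⟩ := hcon r hr
    obtain ⟨J, hJ⟩ := exists_CE K hK hv
    exact ⟨n, K, J, hJ⟩
  choose x hx hA using approx_exists hG hne slp
  obtain ⟨G', hG', hne', hst⟩ := stars_of_approx hG (fun j => dir (slp j)) (fun j => norm_dir _)
    (fun i j hij => dt_dir_ne (fun h => hij (slp_injective h))) dense_slp x hx hA
  exact no_stars hG' hne' hst

end Pool.Agent.Helper11_Exact
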